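import Pool.Agent.Lib.MP_12eaff_co.Acc.Defs

set_option autoImplicit false
set_option linter.unusedSectionVars false

namespace Pool.Agent.Lib.MP_12eaff_co.Acc

open Finset Pool.Agent.Lib.MP_12eaff_co.BK
open scoped Classical

variable {V : Type} [Fintype V] {G : SimpleGraph V} {D : ℕ}

/-- `f` is a proper colouring of everything but the hole `v`. -/
structure HC (G : SimpleGraph V) (D : ℕ) (v : V) (f : V → ℕ) : Prop where
  pc : PCol G D f
  hole : f v = D
  lt : ∀ m, m ≠ v → f m < D

/-- `u` is the only neighbour of `a` with the colour of `u`. -/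
def Uq (G : SimpleGraph V) (f : V → ℕ) (a u : V) : Prop :=
  ∀ m, G.Adj a m → m ≠ u → f m ≠ f u

namespace HC

variable {v : V} {f : V → ℕ}

theorem ne (h : HC G D v f) {a b : V} (hab : G.Adj a b) : f a ≠ f b := by
  by_cases ha : a = v
  · have := h.lt b (fun e => hab.ne (ha.trans e.symm))
    rw [ha, h.hole]; omega
  · exact h.pc a b hab (h.lt a ha)

theorem ne_hole (h : HC G D v f) {a : V} (ha : f a < D) : a ≠ v := by
  rintro rfl; rw [h.hole] at ha; omega

/-- General change of hole and colours: only edges at changed vertices are checked. -/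
theorem change (h : HC G D v f) {w : V} {g : V → ℕ} (h1 : g w = D) (h2 : ∀ m, m ≠ w → g m < D)
    (h3 : ∀ a b, G.Adj a b → g a ≠ f a → g a ≠ g b) : HC G D w g := by
  refine ⟨fun a b hab _ => ?_, h1, h2⟩
  by_cases ha : g a = f a
  · by_cases hb : g b = f b
    · rw [ha, hb]; exact h.ne hab
    · exact (h3 b a hab.symm hb).symm
  · exact h3 a b hab ha

/-- TIGHT: the hole sees every colour. -/
theorem sees (hn : ¬ Colr G D) (h : HC G D v f) {κ : ℕ} (hκ : κ < D) :
    ∃ m, G.Adj v m ∧ f m = κ := by
  by_contra hc
  push Not at hc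
  refine hn ⟨Function.update f v κ, fun a => ?_, fun a b hab => ?_⟩
  · by_cases ha : a = v
    · rw [ha, Function.update_self]; exact hκ
    · rw [Function.update_of_ne ha]; exact h.lt a ha
  · by_cases ha : a = v
    · subst ha
      rw [Function.update_self, Function.update_of_ne hab.ne.symm]
      exact (hc b hab).symm
    · by_cases hb : b = v
      · subst hb
        rw [Function.update_self, Function.update_of_ne ha]
        exact hc a hab.symm
      · rw [Function.update_of_ne ha, Function.update_of_ne hb]; exact h.ne hab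

/-- Recolouring one vertex with a colour it does not see. -/
theorem recol (h : HC G D v f) {a : V} {κ : ℕ} (ha : a ≠ v) (hκ : κ < D)
    (hs : ∀ m, G.Adj a m → f m ≠ κ) : HC G D v (Function.update f a κ) := by
  refine h.change (by rw [Function.update_of_ne ha.symm, h.hole]) (fun m hm => ?_)
    (fun x y hxy hx => ?_)
  · by_cases e : m = a
    · rw [e, Function.update_self]; exact hκ
    · rw [Function.update_of_ne e]; exact h.lt m hm
  · have e : x = a := by
      by_contra e; exact hx (Function.update_of_ne e _ _)
    subst e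
    rw [Function.update_self, Function.update_of_ne hxy.ne.symm]
    exact (hs y hxy).symm

/-- Moving the hole to a vertex whose colour is not seen elsewhere. -/
theorem shift (h : HC G D v f) {u : V} (hu : u ≠ v) (hq : Uq G f v u) :
    HC G D u (shift D f v u) := by
  refine ⟨Tr.shift_pcol h.pc hq, by simp [Acc.shift], fun m hm => ?_⟩
  rw [Acc.shift, Function.update_of_ne hm]
  by_cases e : m = v
  · rw [e, Function.update_self]; exact h.lt u hu
  · rw [Function.update_of_ne e]; exact h.lt m e

/-- Exchange of the colours of two vertices. -/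
theorem swap (h : HC G D v f) {a b : V} (ha : a ≠ v) (hb : b ≠ v) (hab : a ≠ b)
    (h1 : Uq G f a b) (h2 : Uq G f b a) (hne : f a ≠ f b) :
    HC G D v (Function.update (Function.update f a (f b)) b (f a)) := by
  refine h.change ?_ (fun m hm => ?_) (fun x y hxy hx => ?_)
  · rw [Function.update_of_ne hb.symm, Function.update_of_ne ha.symm, h.hole]
  · by_cases e : m = b
    · rw [e, Function.update_self]; exact h.lt a ha
    · rw [Function.update_of_ne e]
      by_cases e2 : m = a
      · rw [e2, Function.update_self]; exact h.lt b hb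
      · rw [Function.update_of_ne e2]; exact h.lt m hm
  · by_cases e : x = b
    · subst e
      rw [Function.update_self, Function.update_of_ne hxy.ne.symm]
      by_cases e2 : y = a
      · rw [e2, Function.update_self]; exact hne
      · rw [Function.update_of_ne e2]; exact (h2 y hxy e2).symm
    · rw [Function.update_of_ne e] at hx ⊢
      have e1 : x = a := by
        by_contra e1; exact hx (Function.update_of_ne e1 _ _)
      subst e1
      rw [Function.update_self]
      by_cases e2 : y = b
      · rw [e2, Function.update_self]; exact hne.symm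
      · rw [Function.update_of_ne e2, Function.update_of_ne hxy.ne.symm]
        exact (h1 y hxy e2).symm

/-- A vertex that is unique at the hole keeps its colour in every colouring that fixes the
other neighbours of the hole. -/
theorem rigid (hn : ¬ Colr G D) (h : HC G D v f) {u : V} (hu : u ≠ v) (hq : Uq G f v u)
    {g : V → ℕ} (hg : HC G D v g) (he : ∀ m, G.Adj v m → m ≠ u → g m = f m) : g u = f u := by
  obtain ⟨m, hm, hc⟩ := hg.sees hn (h.lt u hu)
  by_cases e : m = u
  · rw [← hc, e]
  · exact absurd ((he m hm e).symm.trans hc) (hq m hm e)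

/-- A vertex that is unique at the hole sees every other colour. -/
theorem uq_sees (hn : ¬ Colr G D) (h : HC G D v f) {u : V} (hu : u ≠ v) (hq : Uq G f v u)
    {κ : ℕ} (hκ : κ < D) (hne : κ ≠ f u) : ∃ m, G.Adj u m ∧ f m = κ := by
  by_contra hc
  push Not at hc
  have := rigid hn h hu hq (h.recol hu hκ hc) (fun m _ e => Function.update_of_ne e _ _)
  rw [Function.update_self] at this
  exact hne this

theorem image_nb (hn : ¬ Colr G D) (h : HC G D v f) : (nb G v).image f = range D := by
  ext κ
  simp only [mem_image, mem_nb, mem_range]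
  exact ⟨fun ⟨m, hm, e⟩ => e ▸ h.lt m hm.ne.symm, fun hκ => h.sees hn hκ⟩

end HC

/-- A map that loses at most one value identifies only one pair. -/
theorem one_double {s : Finset V} {f : V → ℕ} (hs : s.card ≤ (s.image f).card + 1)
    {a b x y : V} (ha : a ∈ s) (hb : b ∈ s) (hab : a ≠ b) (h : f a = f b) (hx : x ∈ s)
    (hy : y ∈ s) (hxy : x ≠ y) (h' : f x = f y) : x = a ∨ x = b := by
  by_contra hc
  push Not at hc
  -- remove `x` and one of `a`, `b` different from `y`
  have key : ∀ a b, a ∈ s → b ∈ s → a ≠ b → f a = f b → x ≠ a → x ≠ b → y ≠ a → False := by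
    intro a b ha hb hab h h1 h2 h3
    have h4 : s.image f ⊆ ((s.erase x).erase a).image f := by
      intro κ hκ
      obtain ⟨m, hm, rfl⟩ := mem_image.1 hκ
      by_cases e1 : m = x
      · exact mem_image.2 ⟨y, by simp [hy, h3, hxy.symm], by rw [e1, h']⟩
      by_cases e2 : m = a
      · exact mem_image.2 ⟨b, by simp [hb, hab.symm, h2.symm], by rw [e2, h]⟩
      · exact mem_image.2 ⟨m, by simp [hm, e1, e2], rfl⟩
    have h5 := (card_le_card h4).trans card_image_le
    rw [card_erase_of_mem (by simp [ha, h1.symm]), card_erase_of_mem hx] at h5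
    have : 2 ≤ s.card := one_lt_card.2 ⟨a, ha, b, hb, hab⟩
    omega
  by_cases e : y = a
  · exact key b a hb ha hab.symm h.symm hc.2 hc.1 (fun e2 => hab (e.symm.trans e2))
  · exact key a b ha hb hab h hc.1 hc.2 e

/-- At a hole of degree at most `D + 1` only two neighbours can share a colour. -/
theorem HC.double (hn : ¬ Colr G D) {v : V} {f : V → ℕ} (h : HC G D v f)
    (hd : (nb G v).card ≤ D + 1) {a b x : V} (ha : G.Adj v a) (hb : G.Adj v b) (hab : a ≠ b)
    (he : f a = f b) (hx : G.Adj v x) (h1 : x ≠ a) (h2 : x ≠ b) : Uq G f v x := by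
  intro y hy hyx hc
  have := one_double (s := nb G v) (f := f) (by rw [h.image_nb hn, card_range]; exact hd)
    (mem_nb.2 ha) (mem_nb.2 hb) hab he (mem_nb.2 hx) (mem_nb.2 hy) hyx.symm hc.symm
  tauto

/-- The swap lemma behind the clique claim. -/
theorem HC.swap_adj (hn : ¬ Colr G D) {q : V} {f : V → ℕ} (h : HC G D q f) {u v w : V}
    (hu : u ≠ q) (hv : G.Adj q v) (hw : w ≠ q) (hqw : Uq G f q w) (huv : G.Adj u v)
    (huw : G.Adj u w) (h1 : Uq G f v u) (h2 : Uq G f w u) (h3 : Uq G f u v) (hne : v ≠ w) :
    G.Adj v w := by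
  by_contra hc
  have hs := h.swap hu hv.ne.symm huv.ne h3 h1 (h.ne huv)
  have hvw : f v ≠ f w := hqw v hv hne
  have hr := hs.recol (a := w) (κ := f u) hw (h.lt u hu) (fun m hm => by
    have e1 : m ≠ v := fun e => hc (e ▸ hm.symm)
    rw [Function.update_of_ne e1]
    by_cases e2 : m = u
    · rw [e2, Function.update_self]; exact (h.ne huv).symm
    · rw [Function.update_of_ne e2]; exact h2 m hm e2)
  obtain ⟨m, hm, he⟩ := hr.sees hn (h.lt w hw)
  by_cases e : m = w
  · rw [e, Function.update_self] at he; exact h.ne huw he
  rw [Function.update_of_ne e] at he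
  by_cases e1 : m = v
  · rw [e1, Function.update_self] at he; exact h.ne huw he
  rw [Function.update_of_ne e1] at he
  by_cases e2 : m = u
  · rw [e2, Function.update_self] at he; exact hvw he
  rw [Function.update_of_ne e2] at he
  exact hqw m hm e he

end Pool.Agent.Lib.MP_12eaff_co.Acc
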