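import Pool.Agent.Lib.MP_12eaff_co.Acc.Ex

set_option autoImplicit false
set_option linter.unusedSectionVars false

namespace Pool.Agent.Lib.MP_12eaff_co.Acc

open Finset Pool.Agent.Lib.MP_12eaff_co.BK
open scoped Classical

variable {V : Type} [Fintype V]

/-- Growing level tree with an owner `q` for every class of `cl`. -/
structure PO {St ι : Type} (cl : V → ι) (pf : V → V → ℕ) (r : V) (s0 : St) (A : St → Finset V)
    (nx : St → V → St) where
  R : Finset V
  st : V → St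
  p : V → V
  d : V → ℕ
  q : ι → V
  r_mem : r ∈ R
  st_r : st r = s0
  d_r : d r = 0
  p_r : p r = r
  par : ∀ v ∈ R, v ≠ r → p v ∈ R ∧ d v = d (p v) + 1 ∧ v ∈ A (st (p v)) ∧ st v = nx (st (p v)) v
  own : ∀ x ∈ R, q (cl x) ∈ R ∧ cl (q (cl x)) = cl x ∧
    (x ≠ q (cl x) → d (q (cl x)) < d x ∧ (p x = q (cl x) ∨ d (q (cl x)) < d (p x)))
  hI : ∀ v ∈ R, ∀ u ∈ A (st v), u ∈ R → (v = q (cl u) ∨ d (q (cl u)) < d v) → d u ≤ d v + 1
  hK : ∀ v ∈ R, ∀ u ∈ A (st v), ∀ x ∈ R, cl x = cl u → d (q (cl u)) ≤ d v + 1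
  hP : ∀ x ∈ R, ∀ v ∈ R, x ∈ A (st v) → d v + 1 = d x →
    (x = q (cl x) ∨ v = q (cl x) ∨ d (q (cl x)) < d v) → pf (p x) x ≤ pf v x
  hJ : ∀ w ∈ R, ∀ v ∈ R, ∀ u ∈ A (st v), u ∉ R →
    ((∀ x ∈ R, cl x ≠ cl u) ∨ v = q (cl u) ∨ d (q (cl u)) < d v) → d w ≤ d v + 1

variable {St ι : Type} {cl : V → ι} {pf : V → V → ℕ} {r : V} {s0 : St} {A : St → Finset V} {nx : St → V → St}

/-- Eligible adoptions. -/
def PO.El (P : PO cl pf r s0 A nx) (v u : V) : Prop := v ∈ P.R ∧ u ∈ A (P.st v) ∧ u ∉ P.R ∧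
  ((∀ x ∈ P.R, cl x ≠ cl u) ∨ v = P.q (cl u) ∨ P.d (P.q (cl u)) < P.d v)

theorem PO.grow (P : PO cl pf r s0 A nx) (h : ∃ v u, P.El v u) :
    ∃ Q : PO cl pf r s0 A nx, Q.R.card = P.R.card + 1 := by
  obtain ⟨⟨v, u⟩, hv0, hmin⟩ := exists_min_image (univ.filter fun z : V × V => P.El z.1 z.2)
    (fun z => toLex (P.d z.1, pf z.1 z.2))
    (by obtain ⟨v, u, h⟩ := h; exact ⟨(v, u), mem_filter.2 ⟨mem_univ _, h⟩⟩)
  obtain ⟨hv, hu, huR, he⟩ := (mem_filter.1 hv0).2
  dsimp only at hv hu huR he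
  have hm : ∀ x y, P.El x y → P.d v < P.d x ∨ P.d v = P.d x ∧ pf v u ≤ pf x y :=
    fun x y h => Prod.Lex.toLex_le_toLex.1 (hmin (x, y) (mem_filter.2 ⟨mem_univ _, h⟩))
  have hm' : ∀ x y, P.El x y → P.d v ≤ P.d x := fun x y h => by
    have := hm x y h
    omega
  have hne : ∀ x ∈ P.R, x ≠ u := fun x hx e => huR (e ▸ hx)
  have hJv : ∀ w ∈ P.R, P.d w ≤ P.d v + 1 := fun w hw => P.hJ w hw v hv u hu huR he
  -- the new owner function
  obtain ⟨q', q1, q2⟩ : ∃ q' : ι → V, (∀ x ∈ P.R, q' (cl x) = P.q (cl x)) ∧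
      ((∀ x ∈ P.R, cl x ≠ cl u) → q' (cl u) = u) := by
    by_cases k : ∀ x ∈ P.R, cl x ≠ cl u
    · exact ⟨Function.update P.q (cl u) u, fun x hx => Function.update_of_ne (k x hx) _ _,
        fun _ => Function.update_self _ _ _⟩
    · exact ⟨P.q, fun _ _ => rfl, fun e => absurd e k⟩
  have old : ∀ y, (∃ x ∈ P.R, cl x = cl y) → q' (cl y) = P.q (cl y) ∧ P.q (cl y) ∈ P.R :=
    fun y ⟨x, hx, e⟩ => e ▸ ⟨q1 x hx, (P.own x hx).1⟩
  set d' := Function.update P.d u (P.d v + 1) with hd'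
  have d1 : ∀ x ∈ P.R, d' x = P.d x := fun x hx => Function.update_of_ne (hne x hx) _ _
  have d2 : d' u = P.d v + 1 := Function.update_self _ _ _
  have d3 : ∀ w ∈ insert u P.R, d' w ≤ P.d v + 1 := fun w hw => by
    rcases mem_insert.1 hw with e | e
    · rw [e, d2]
    · rw [d1 w e]; exact hJv w e
  have s1 : ∀ x ∈ P.R, Function.update P.st u (nx (P.st v) u) x = P.st x :=
    fun x hx => Function.update_of_ne (hne x hx) _ _
  have p1 : ∀ x ∈ P.R, Function.update P.p u v x = P.p x :=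
    fun x hx => Function.update_of_ne (hne x hx) _ _
  have qm : ∀ x ∈ insert u P.R, q' (cl x) ∈ insert u P.R := fun x hx => by
    by_cases k : ∃ y ∈ P.R, cl y = cl x
    · rw [(old x k).1]; exact mem_insert_of_mem (old x k).2
    · push Not at k
      obtain rfl : x = u := (mem_insert.1 hx).resolve_right fun e => k x e rfl
      rw [q2 k]; exact hx
  refine ⟨⟨insert u P.R, Function.update P.st u (nx (P.st v) u), Function.update P.p u v, d', q',
    mem_insert_of_mem P.r_mem, by rw [s1 _ P.r_mem, P.st_r], by rw [d1 _ P.r_mem, P.d_r],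
    by rw [p1 _ P.r_mem, P.p_r], ?_, ?_, ?_, ?_, ?_, ?_⟩, card_insert_of_notMem huR⟩
  · intro x hx hr
    rcases mem_insert.1 hx with e | e
    · rw [e, Function.update_self, d2, d1 v hv, s1 v hv, Function.update_self]
      exact ⟨mem_insert_of_mem hv, rfl, hu, rfl⟩
    · obtain ⟨h1, h2, h3, h4⟩ := P.par x e hr
      rw [p1 x e, d1 x e, d1 _ h1, s1 _ h1, s1 x e]
      exact ⟨mem_insert_of_mem h1, h2, h3, h4⟩
  · intro x hx
    refine ⟨qm x hx, ?_⟩
    rcases mem_insert.1 hx with e | e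
    · subst e
      by_cases k : ∃ y ∈ P.R, cl y = cl x
      · obtain ⟨k1, k2⟩ := old x k
        obtain ⟨y, y1, y2⟩ := k
        rw [k1, d1 _ k2, d2, Function.update_self, d1 v hv]
        refine ⟨by rw [← y2]; exact (P.own y y1).2.1, fun _ => ?_⟩
        rcases he with he | he | he
        · exact absurd y2 (he y y1)
        · exact ⟨by rw [← he]; omega, .inl he⟩
        · exact ⟨by omega, .inr he⟩
      · push Not at k
        rw [q2 k]
        exact ⟨rfl, fun e => absurd rfl e⟩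
    · obtain ⟨h1, h2, h3⟩ := P.own x e
      rw [q1 x e, d1 _ h1, d1 x e, p1 x e]
      refine ⟨h2, fun k => ⟨(h3 k).1, ?_⟩⟩
      by_cases z : x = r
      · have := (h3 k).1
        rw [z, P.d_r] at this; omega
      · rw [d1 _ (P.par x e z).1]; exact (h3 k).2
  · intro x hx y hy hyR k
    rcases mem_insert.1 hx with e | e
    · have := d3 y hyR
      rw [e, d2]; omega
    rw [s1 x e] at hy
    rw [d1 x e] at k ⊢
    rcases mem_insert.1 hyR with e' | e'
    · subst e'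
      rw [d2]
      have : P.El x y := by
        refine ⟨e, hy, huR, ?_⟩
        by_cases z : ∃ w ∈ P.R, cl w = cl y
        · rw [(old y z).1, d1 _ (old y z).2] at k
          exact .inr k
        · push Not at z; exact .inl z
      have := hm' x y this
      omega
    · rw [q1 y e', d1 _ (P.own y e').1] at k
      rw [d1 y e']
      exact P.hI x e y hy e' k
  · intro x hx y hy w hw k
    rcases mem_insert.1 hx with e | e
    · have := d3 _ (k ▸ qm w hw)
      rw [e, d2]; omega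
    rw [s1 x e] at hy
    rw [d1 x e]
    by_cases z : ∃ w ∈ P.R, cl w = cl y
    · rw [(old y z).1, d1 _ (old y z).2]
      obtain ⟨w', w1, w2⟩ := z
      exact P.hK x e y hy w' w1 w2
    · push Not at z
      have := hm' x y ⟨e, hy, fun a => z y a rfl, .inl z⟩
      have := d3 _ (k ▸ qm w hw)
      omega
  · intro x hx y hy e2 e3 k
    rcases mem_insert.1 hy with e | e
    · have := d3 x hx
      rw [e, d2] at e3; omega
    rw [s1 y e] at e2
    rw [d1 y e] at e3 k
    rcases mem_insert.1 hx with e' | e'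
    · subst e'
      rw [d2] at e3
      rw [Function.update_self]
      have : P.El y x := by
        refine ⟨e, e2, huR, ?_⟩
        by_cases z : ∃ w ∈ P.R, cl w = cl x
        · rw [(old x z).1, d1 _ (old x z).2] at k
          exact .inr (k.resolve_left fun a => huR (a ▸ (old x z).2))
        · push Not at z; exact .inl z
      have := hm y x this
      omega
    · rw [p1 x e']
      rw [q1 x e', d1 _ (P.own x e').1] at k
      rw [d1 x e'] at e3
      exact P.hP x e' y e e2 e3 k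
  · intro w hw x hx y hy hyR k
    have := d3 w hw
    rcases mem_insert.1 hx with e | e
    · rw [e, d2]; omega
    rw [s1 x e] at hy
    rw [d1 x e] at k ⊢
    have : P.El x y := by
      refine ⟨e, hy, fun a => hyR (mem_insert_of_mem a), ?_⟩
      by_cases z : ∃ w ∈ P.R, cl w = cl y
      · rw [(old y z).1, d1 _ (old y z).2] at k
        obtain ⟨w', w1, w2⟩ := z
        exact .inr (k.resolve_left fun a => a w' (mem_insert_of_mem w1) w2)
      · push Not at z; exact .inl z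
    have := hm' x y this
    omega

theorem PO.closed (cl : V → ι) (pf : V → V → ℕ) (r : V) (s0 : St) (A : St → Finset V) (nx : St → V → St) :
    ∃ P : PO cl pf r s0 A nx, ∀ v u, ¬ P.El v u := by
  have key : ∀ k, ∀ P : PO cl pf r s0 A nx, Fintype.card V ≤ P.R.card + k →
      ∃ Q : PO cl pf r s0 A nx, ∀ v u, ¬ Q.El v u := by
    intro k
    induction k with
    | zero =>
      intro P h
      have : P.R = univ := eq_univ_of_card _ (le_antisymm (card_le_univ _) h)
      exact ⟨P, fun v u e => e.2.2.1 (this ▸ mem_univ u)⟩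
    | succ k ih =>
      intro P h
      by_cases hc : ∃ v u, P.El v u
      · obtain ⟨Q, hQ⟩ := P.grow hc
        exact ih Q (by omega)
      · push Not at hc
        exact ⟨P, hc⟩
  refine key (Fintype.card V) ⟨{r}, fun _ => s0, fun _ => r, fun _ => 0, fun _ => r,
    mem_singleton_self r, rfl, rfl, rfl, ?_, ?_, ?_, ?_, ?_, ?_⟩ (by omega)
  · intro v hv hr; exact absurd (mem_singleton.1 hv) hr
  · intro x hx
    rw [mem_singleton.1 hx]
    exact ⟨mem_singleton_self r, rfl, fun e => absurd rfl e⟩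
  · intros; omega
  · intros; omega
  · intros; omega
  · intros; omega

/-- Level tree with ownership: the first vertex `q` of a class adopts the class; arcs into
vertices that are missing or two levels deeper are dropped; parents minimise `pf`. -/
theorem Rules.exists_own {G : SimpleGraph V} {D : ℕ} (M : Rules G D St) (cl : V → ι)
    (pf : V → V → ℕ) (s0 : St)
    (h1 : M.par s0 = M.hole s0) (h2 : M.f s0 (M.hole s0) = D) (h3 : PCol G D (M.f s0)) :
    ∃ (T : Tr G D) (st : V → St) (q : ι → V), T.r = M.hole s0 ∧ T.c = M.f s0 ∧ st T.r = s0 ∧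
      (∀ v ∈ T.R, M.hole (st v) = v ∧ M.par (st v) = T.p v ∧ M.f (st v) = T.col v ∧
        T.O v = (M.O (st v)).filter (fun u => u ∈ T.R ∧ T.d u ≤ T.d v + 1) ∧
        T.X v = (M.X (st v)).filter (fun u => u ∈ T.R ∧ T.d u ≤ T.d v + 1)) ∧
      (∀ v ∈ T.R, v ≠ T.r → st v = M.nx (st (T.p v)) v) ∧
      (∀ x ∈ T.R, q (cl x) ∈ T.R ∧ cl (q (cl x)) = cl x ∧ (x ≠ q (cl x) → T.d (q (cl x)) < T.d x ∧
        (T.p x = q (cl x) ∨ T.d (q (cl x)) < T.d (T.p x)))) ∧
      (∀ v ∈ T.R, ∀ u ∈ M.O (st v) ∪ M.X (st v), q (cl u) ∈ T.R ∧ cl (q (cl u)) = cl u ∧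
        T.d (q (cl u)) ≤ T.d v + 1 ∧
        (v = q (cl u) ∨ T.d (q (cl u)) < T.d v → u ∈ T.R ∧ T.d u ≤ T.d v + 1)) ∧
      ∀ x ∈ T.R, ∀ v ∈ T.R, x ∈ M.O (st v) ∪ M.X (st v) → T.d v + 1 = T.d x →
        (x = q (cl x) ∨ v = q (cl x) ∨ T.d (q (cl x)) < T.d v) → pf (T.p x) x ≤ pf v x := by
  obtain ⟨P, hP⟩ := PO.closed cl pf (M.hole s0) s0 (fun s => M.O s ∪ M.X s) M.nx
  have hh : ∀ v ∈ P.R, M.hole (P.st v) = v := by
    intro v hv
    by_cases hr : v = M.hole s0
    · rw [hr, P.st_r]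
    · obtain ⟨_, _, h5, h6⟩ := P.par v hv hr
      rw [h6, M.nx_hole _ _ (mem_union.1 h5)]
  have hp : ∀ v ∈ P.R, M.par (P.st v) = P.p v := by
    intro v hv
    by_cases hr : v = M.hole s0
    · rw [hr, P.st_r, P.p_r, h1]
    · obtain ⟨h4, _, h5, h6⟩ := P.par v hv hr
      rw [h6, M.nx_par _ _ (mem_union.1 h5), hh _ h4]
  have fl : ∀ {v u : V} {t : V → Prop} [DecidablePred t],
      u ∈ (M.O (P.st v)).filter t ∨ u ∈ (M.X (P.st v)).filter t →
      (u ∈ M.O (P.st v) ∨ u ∈ M.X (P.st v)) ∧ t u := fun h =>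
    h.elim (fun a => ⟨.inl (mem_filter.1 a).1, (mem_filter.1 a).2⟩)
      fun a => ⟨.inr (mem_filter.1 a).1, (mem_filter.1 a).2⟩
  refine ⟨⟨P.R, M.hole s0, M.f s0, P.p, P.d, fun v => M.f (P.st v),
    fun v => (M.O (P.st v)).filter (fun u => u ∈ P.R ∧ P.d u ≤ P.d v + 1),
    fun v => (M.X (P.st v)).filter (fun u => u ∈ P.R ∧ P.d u ≤ P.d v + 1),
    P.r_mem, P.d_r, P.p_r, h2, by simp only [P.st_r], h3,
    fun v hv hr => (P.par v hv hr).1, fun v hv hr => (P.par v hv hr).2.1, ?_, ?_, ?_, ?_,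
    fun v _ u hu => M.lt _ u (fl hu).1, ?_, ?_, fun v _ u hu => (fl hu).2⟩, P.st, P.q, rfl, rfl,
    P.st_r, fun v hv => ⟨hh v hv, hp v hv, rfl, rfl, rfl⟩,
    fun v hv hr => (P.par v hv hr).2.2.2, P.own, fun v hv u hu => ?_, P.hP⟩
  · intro v hv hr
    obtain ⟨_, h5, h6, _⟩ := P.par v hv hr
    exact (mem_union.1 h6).imp (fun a => mem_filter.2 ⟨a, hv, h5.le⟩)
      fun a => mem_filter.2 ⟨a, hv, h5.le⟩
  · intro v hv hr
    obtain ⟨h4, _, h5, h6⟩ := P.par v hv hr
    simp only [h6, M.nx_f _ _ (mem_union.1 h5), hh _ h4]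
  · intro v hv u hu
    have := M.O_adj _ u (mem_filter.1 hu).1
    rwa [hh v hv] at this
  · intro v hv u hu
    have := M.X_nadj _ u (mem_filter.1 hu).1
    rwa [hh v hv] at this
  · intro v hv u hu m hm
    exact M.uniq _ u (fl hu).1 m (by rwa [hh v hv])
  · intro v hv u hu
    have := M.ne_p _ u (fl hu).1
    rwa [hp v hv] at this
  · obtain ⟨x, x1, x2⟩ : ∃ x ∈ P.R, cl x = cl u := by
      by_contra! k
      exact hP v u ⟨hv, hu, fun a => k u a rfl, .inl k⟩
    have o := P.own x x1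
    rw [x2] at o
    refine ⟨o.1, o.2.1, P.hK v hv u hu x x1 x2, fun k => ?_⟩
    have : u ∈ P.R := by
      by_contra a
      exact hP v u ⟨hv, hu, a, .inr k⟩
    exact ⟨this, P.hI v hv u hu this k⟩

end Pool.Agent.Lib.MP_12eaff_co.Acc
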