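import Pool.Agent.Lib.MP_12eaff_co.Acc.Count
import Pool.Agent.Lib.MP_12eaff_co.Acc.Own
import Pool.Agent.Lib.MP_12eaff_co.Acc.Hole

set_option autoImplicit false
set_option linter.unusedSectionVars false

namespace Pool.Agent.Lib.MP_12eaff_co.Acc

open Finset Pool.Agent.Lib.MP_12eaff_co.BK
open scoped Classical

variable {V : Type} [Fintype V] {G : SimpleGraph V} {D : ℕ}

/-- Real trees: everything but the hole is coloured, arcs may be dropped. -/
structure IsB (T : Tr G D) : Prop where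
  ncol : ¬ Colr G D
  deg : ∀ v, (nb G v).card ≤ D + 1
  full : ∀ m, m ≠ T.r → T.c m < D
  noX : ∀ v ∈ T.R, T.X v = ∅

/-- The plain tree: everything but the hole is coloured, all unique neighbours are arcs. -/
structure IsA (T : Tr G D) : Prop extends IsB T where
  all : ∀ v ∈ T.R, ∀ u, G.Adj v u → u ≠ T.p v → Uq G (T.col v) v u → u ∈ T.O v

/-- `v` can shift to `u` in its own state. -/
def Pr (T : Tr G D) (v u : V) : Prop := G.Adj v u ∧ u ≠ T.p v ∧ Uq G (T.col v) v u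

/-- Trees with ownership exist for every root, colouring of the rest, classes and priorities. -/
theorem exists_isB (hn : ¬ Colr G D) (hd : ∀ v, (nb G v).card ≤ D + 1) {r : V} {c : V → ℕ}
    (h : HC G D r c) {ι : Type} (cl : V → ι) (pf : V → V → ℕ) :
    ∃ (T : Tr G D) (q : ι → V), IsB T ∧ T.r = r ∧ T.c = c ∧
      (∀ v ∈ T.R, ∀ u, u ∈ T.O v ↔ Pr T v u ∧ u ∈ T.R ∧ T.d u ≤ T.d v + 1) ∧
      (∀ x ∈ T.R, q (cl x) ∈ T.R ∧ cl (q (cl x)) = cl x ∧ (x ≠ q (cl x) → T.d (q (cl x)) < T.d x ∧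
        (T.p x = q (cl x) ∨ T.d (q (cl x)) < T.d (T.p x)))) ∧
      (∀ v ∈ T.R, ∀ u, Pr T v u → q (cl u) ∈ T.R ∧ cl (q (cl u)) = cl u ∧
        T.d (q (cl u)) ≤ T.d v + 1 ∧ (v = q (cl u) ∨ T.d (q (cl u)) < T.d v → u ∈ T.O v)) ∧
      ∀ x ∈ T.R, ∀ v ∈ T.R, Pr T v x → T.d v + 1 = T.d x →
        (x = q (cl x) ∨ v = q (cl x) ∨ T.d (q (cl x)) < T.d v) → pf (T.p x) x ≤ pf v x := by
  let St : Type := {s : V × V × (V → ℕ) // HC G D s.1 s.2.2 ∧ (s.2.1 = s.1 ∨ G.Adj s.1 s.2.1)}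
  let O : St → Finset V := fun s =>
    (nb G s.1.1).filter (fun u => u ≠ s.1.2.1 ∧ Uq G s.1.2.2 s.1.1 u)
  have hO : ∀ s u, u ∈ O s ↔ G.Adj s.1.1 u ∧ u ≠ s.1.2.1 ∧ Uq G s.1.2.2 s.1.1 u := by
    intro s u; simp [O]
  let nx : St → V → St := fun s u => if hu : u ∈ O s then
    ⟨(u, s.1.1, shift D s.1.2.2 s.1.1 u), s.2.1.shift ((hO s u).1 hu).1.ne.symm ((hO s u).1 hu).2.2,
      Or.inr ((hO s u).1 hu).1.symm⟩ else s
  have hA : ∀ (s : St) u, u ∈ O s ∨ u ∈ (∅ : Finset V) → u ∈ O s :=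
    fun s u h => h.resolve_right (notMem_empty u)
  let M : Rules G D St :=
    { hole := fun s => s.1.1
      par := fun s => s.1.2.1
      f := fun s => s.1.2.2
      O := O
      X := fun _ => ∅
      nx := nx
      O_adj := fun s u hu => ((hO s u).1 hu).1
      X_nadj := fun s u hu => absurd hu (notMem_empty u)
      lt := fun s u hu => s.2.1.lt u ((hO s u).1 (hA s u hu)).1.ne.symm
      uniq := fun s u hu => ((hO s u).1 (hA s u hu)).2.2
      ne_p := fun s u hu => by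
        obtain ⟨h1, h2, h3⟩ := (hO s u).1 (hA s u hu)
        rcases s.2.2 with e | e
        · have := s.2.1.lt u h1.ne.symm
          rw [e, s.2.1.hole]; omega
        · exact (h3 _ e h2.symm).symm
      nx_hole := fun s u hu => by simp only [nx, dif_pos (hA s u hu)]
      nx_par := fun s u hu => by simp only [nx, dif_pos (hA s u hu)]
      nx_f := fun s u hu => by simp only [nx, dif_pos (hA s u hu)] }
  obtain ⟨T, st, q, h1, h2, _, h4, _, h5, h6, h7⟩ :=
    M.exists_own cl pf ⟨(r, r, c), h, Or.inl rfl⟩ rfl h.hole h.pc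
  have key : ∀ v ∈ T.R, ∀ u, u ∈ M.O (st v) ↔ Pr T v u := fun v hv u => by
    obtain ⟨e1, e2, e3, _⟩ := h4 v hv
    refine (hO _ u).trans ?_
    change G.Adj (M.hole (st v)) u ∧ u ≠ M.par (st v) ∧ Uq G (M.f (st v)) (M.hole (st v)) u ↔ _
    rw [e1, e2, e3, Pr]
  have mo : ∀ v ∈ T.R, ∀ u, u ∈ T.O v ↔ Pr T v u ∧ u ∈ T.R ∧ T.d u ≤ T.d v + 1 := fun v hv u => by
    rw [(h4 v hv).2.2.2.1, mem_filter, key v hv]
  refine ⟨T, q, ⟨hn, hd, fun m hm => ?_, fun v hv => by rw [(h4 v hv).2.2.2.2]; rfl⟩, h1, h2, mo,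
    h5, fun v hv u hu => ?_, fun x hx v hv hu => h7 x hx v hv (mem_union_left _ ((key v hv x).2 hu))⟩
  · rw [h2]; exact h.lt m (by rwa [h1] at hm)
  · obtain ⟨a1, a2, a3, a4⟩ := h6 v hv u (mem_union_left _ ((key v hv u).2 hu))
    exact ⟨a1, a2, a3, fun k => (mo v hv u).2 ⟨hu, a4 k⟩⟩

/-- The plain tree exists for every root, every colouring of the rest and all priorities. -/
theorem exists_isA' (hn : ¬ Colr G D) (hd : ∀ v, (nb G v).card ≤ D + 1) {r : V} {c : V → ℕ}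
    (h : HC G D r c) (pf : V → V → ℕ) : ∃ T : Tr G D, IsA T ∧ T.r = r ∧ T.c = c ∧
      ∀ x ∈ T.R, ∀ v ∈ T.R, x ∈ T.O v → T.d v + 1 = T.d x → pf (T.p x) x ≤ pf v x := by
  obtain ⟨T, q, h1, h2, h3, h4, h5, h6, h7⟩ := exists_isB hn hd h id pf
  refine ⟨T, ⟨h1, fun v hv u a b e => ?_⟩, h2, h3, fun x hx v hv a b =>
    h7 x hx v hv ((h4 v hv x).1 a).1 b (.inl (h5 x hx).2.1.symm)⟩
  obtain ⟨a1, a2, a3, _⟩ := h6 v hv u ⟨a, b, e⟩
  simp only [id] at a1 a2 a3
  rw [a2] at a1 a3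
  exact (h4 v hv u).2 ⟨⟨a, b, e⟩, a1, a3⟩

theorem exists_isA (hn : ¬ Colr G D) (hd : ∀ v, (nb G v).card ≤ D + 1) {r : V} {c : V → ℕ}
    (h : HC G D r c) : ∃ T : Tr G D, IsA T ∧ T.r = r ∧ T.c = c := by
  obtain ⟨T, h1, h2, h3, _⟩ := exists_isA' hn hd h fun _ _ => 0
  exact ⟨T, h1, h2, h3⟩

namespace IsB

variable {T : Tr G D}

open Tr

theorem hc (h : IsB T) {v : V} (hv : v ∈ T.R) : HC G D v (T.col v) := by
  refine ⟨col_pcol hv, col_self hv, fun m hm => ?_⟩
  by_cases ha : T.Anc m v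
  · exact col_lt hv ha.mem.1 hm
  · rw [col_base hv ha]; exact h.full m (fun e => ha (e ▸ anc_r hv))

theorem par_O (h : IsB T) {v : V} (hv : v ∈ T.R) (hr : v ≠ T.r) : v ∈ T.O (T.p v) := by
  refine (T.arc_p v hv hr).resolve_right ?_
  rw [h.noX _ (T.p_mem v hv hr)]; exact notMem_empty v

theorem adj_par (h : IsB T) {v : V} (hv : v ∈ T.R) (hr : v ≠ T.r) : G.Adj (T.p v) v :=
  T.O_adj _ (T.p_mem v hv hr) v (h.par_O hv hr)

theorem adj_ch (h : IsB T) {w x : V} (hx : x ∈ T.ch w) : G.Adj w x := by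
  obtain ⟨h1, h2, h3⟩ := T.mem_ch.1 hx
  exact h3 ▸ h.adj_par h1 h2

theorem ch_O (h : IsB T) {w x : V} (hx : x ∈ T.ch w) : x ∈ T.O w := by
  obtain ⟨h1, h2, h3⟩ := T.mem_ch.1 hx
  exact h3 ▸ h.par_O h1 h2

theorem uq_O (_ : IsB T) {v u : V} (hv : v ∈ T.R) (hu : u ∈ T.O v) : Uq G (T.col v) v u :=
  T.uniq v hv u (Or.inl hu)

/-- The parent is unique at the hole. -/
theorem uq_par (h : IsB T) {v : V} (hv : v ∈ T.R) (hr : v ≠ T.r) : Uq G (T.col v) v (T.p v) := by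
  intro m hm hne
  rw [col_par hv hr, col_step hv hr hm.ne.symm hne, ← col_p_self hv hr]
  exact ((h.hc (T.p_mem v hv hr)).ne hm).symm

/-- The neighbours that are not unique at the hole. -/
noncomputable def _root_.Pool.Agent.Lib.MP_12eaff_co.Acc.Tr.Bd (T : Tr G D) (w : V) : Finset V :=
  (nb G w).filter (fun m => ¬ Uq G (T.col w) w m)

/-- Dropped arcs. -/
noncomputable def _root_.Pool.Agent.Lib.MP_12eaff_co.Acc.Tr.Dr (T : Tr G D) (w : V) : Finset V :=
  (nb G w).filter (fun m => Pr T w m ∧ m ∉ T.O w)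

theorem mem_Bd {w m : V} : m ∈ T.Bd w ↔ G.Adj w m ∧ ¬ Uq G (T.col w) w m := by simp [Tr.Bd]

theorem mem_Dr {w m : V} : m ∈ T.Dr w ↔ Pr T w m ∧ m ∉ T.O w := by
  simp only [Tr.Dr, mem_filter, mem_nb]
  exact ⟨fun h => h.2, fun h => ⟨h.1.1, h⟩⟩

theorem pr_O (h : IsB T) {v u : V} (hv : v ∈ T.R) (hu : u ∈ T.O v) : Pr T v u :=
  ⟨T.O_adj v hv u hu, O_ne_p hv (.inl hu), h.uq_O hv hu⟩

theorem mem_H2 (h : IsB T) {w m : V} (hw : w ∈ T.R) : m ∈ T.H w ↔ m ∈ T.Bd w ∨ m ∈ T.Dr w := by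
  rw [T.mem_H, mem_Bd, mem_Dr]
  refine ⟨fun ⟨h1, _, h3, h4⟩ => ?_, fun k => ?_⟩
  · by_cases e : Uq G (T.col w) w m
    exacts [.inr ⟨⟨h1, h4, e⟩, h3⟩, .inl ⟨h1, e⟩]
  rcases k with ⟨h1, h2⟩ | ⟨⟨h1, h2, _⟩, h3⟩
  · refine ⟨h1, (h.hc hw).lt m h1.ne.symm, fun h3 => h2 (h.uq_O hw h3), fun e => ?_⟩
    by_cases hr : w = T.r
    · rw [hr, T.p_r] at e; exact h1.ne (hr.trans e.symm)
    · exact h2 (e ▸ h.uq_par hw hr)
  · exact ⟨h1, (h.hc hw).lt m h1.ne.symm, h3, h2⟩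

theorem Bd_H (h : IsB T) {w m : V} (hw : w ∈ T.R) (hm : m ∈ T.Bd w) : m ∈ T.H w :=
  (h.mem_H2 hw).2 (.inl hm)

/-- Every hidden vertex has a partner of the same colour. -/
theorem Bd_partner (h : IsB T) {w a : V} (hw : w ∈ T.R) (ha : a ∈ T.Bd w) :
    ∃ b ∈ T.Bd w, b ≠ a ∧ T.col w b = T.col w a := by
  obtain ⟨h1, h2⟩ := mem_Bd.1 ha
  unfold Uq at h2
  push Not at h2
  obtain ⟨b, hb, hne, he⟩ := h2
  exact ⟨b, mem_Bd.2 ⟨hb, fun h3 => h3 a h1 hne.symm he.symm⟩, hne, he⟩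

/-- The hidden set is empty or a pair of equal colour. -/
theorem Bd_cases (h : IsB T) {w : V} (hw : w ∈ T.R) :
    T.Bd w = ∅ ∨ ∃ a b, a ≠ b ∧ T.col w a = T.col w b ∧ T.Bd w = {a, b} := by
  rcases (T.Bd w).eq_empty_or_nonempty with e | ⟨a, ha⟩
  · exact Or.inl e
  obtain ⟨b, hb, hne, he⟩ := h.Bd_partner hw ha
  refine Or.inr ⟨a, b, hne.symm, he.symm, ?_⟩
  ext x
  simp only [mem_insert, mem_singleton]
  refine ⟨fun hx => ?_, fun hx => by rcases hx with rfl | rfl <;> assumption⟩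
  by_contra hc
  push Not at hc
  obtain ⟨h1, h2⟩ := mem_Bd.1 hx
  exact h2 ((h.hc hw).double h.ncol (h.deg w) (mem_Bd.1 ha).1 (mem_Bd.1 hb).1 hne.symm he.symm
    h1 hc.1 hc.2)

theorem card_Bd (h : IsB T) {w : V} (hw : w ∈ T.R) : (T.Bd w).card ≤ 2 := by
  rcases h.Bd_cases hw with e | ⟨a, b, _, _, e⟩
  · simp [e]
  · rw [e]; exact card_le_two

theorem Bd_col (h : IsB T) {w a b : V} (hw : w ∈ T.R) (ha : a ∈ T.Bd w) (hb : b ∈ T.Bd w) :
    T.col w a = T.col w b := by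
  rcases h.Bd_cases hw with e | ⟨x, y, _, he, e⟩
  · simp [e] at ha
  · rw [e] at ha hb
    simp only [mem_insert, mem_singleton] at ha hb
    rcases ha with rfl | rfl <;> rcases hb with rfl | rfl <;> simp [he]

theorem Bd_nadj (h : IsB T) {w a b : V} (hw : w ∈ T.R) (ha : a ∈ T.Bd w) (hb : b ∈ T.Bd w) :
    ¬ G.Adj a b := fun e => (h.hc hw).ne e (h.Bd_col hw ha hb)

/-- Number of arcs out of a vertex. -/
theorem card_O2 (h : IsB T) {w : V} (hw : w ∈ T.R) : (T.O w).card + (T.Dr w).card +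
    (if w = T.r then 0 else 1) + (if T.Bd w = ∅ then 0 else 1) = D := by
  set U := (nb G w).filter (fun u => Uq G (T.col w) w u) with hU
  have h1 : U.card = (T.O w).card + (T.Dr w).card + (if w = T.r then 0 else 1) := by
    have h2 : T.O w ∪ T.Dr w = U.erase (T.p w) := by
      ext u
      simp only [hU, mem_erase, mem_filter, mem_nb, mem_union, mem_Dr]
      have := h.pr_O (u := u) hw
      unfold Pr at *
      tauto
    rw [← card_union_of_disjoint (disjoint_left.2 fun u a b => (mem_Dr.1 b).2 a)]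
    split_ifs with hr
    · rw [h2, erase_eq_of_notMem]
      · rfl
      · rw [hr, T.p_r]; simp [hU, hr]
    · rw [h2, card_erase_add_one]
      simp only [hU, mem_filter, mem_nb]
      exact ⟨(h.adj_par hw hr).symm, h.uq_par hw hr⟩
  have h3 : (U.image (T.col w)).card = U.card := by
    refine card_image_of_injOn (fun a ha b hb e => ?_)
    simp only [hU, coe_filter, mem_nb, Set.mem_ofPred_eq] at ha hb
    by_contra hne
    exact hb.2 a ha.1 hne e
  have h4 : nb G w = U ∪ T.Bd w := by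
    ext u
    simp only [hU, mem_union, mem_filter, mem_nb, mem_Bd]
    tauto
  have h5 := (h.hc hw).image_nb h.ncol
  have h6 : Disjoint (U.image (T.col w)) ((T.Bd w).image (T.col w)) := by
    refine disjoint_left.2 (fun κ ha hb => ?_)
    obtain ⟨a, ha, e1⟩ := mem_image.1 ha
    obtain ⟨b, hb, e2⟩ := mem_image.1 hb
    simp only [hU, mem_filter, mem_nb] at ha
    obtain ⟨h7, h8⟩ := mem_Bd.1 hb
    exact ha.2 b h7 (fun e => h8 (e ▸ ha.2)) (e2.trans e1.symm)
  have h7 : ((T.Bd w).image (T.col w)).card = if T.Bd w = ∅ then 0 else 1 := by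
    rcases h.Bd_cases hw with e | ⟨a, b, _, he, e⟩
    · simp [e]
    · simp [e, he]
  rw [h4, image_union] at h5
  have h8 := congrArg card h5
  rw [card_union_of_disjoint h6, card_range, h3, h7, h1] at h8
  exact h8

/-- The regrouped budget with dropped arcs. -/
theorem budget2 (h : IsB T) (hD : 5 ≤ D) : ∑ v ∈ T.R, ((T.NT v).card + (T.Dr v).card) =
    ∑ v ∈ T.R, (D - 5 + 2 * (T.ch v).card + (if T.Bd v = ∅ then 1 else 0)) + 4 := by
  have h1 := T.count
  have h2 := T.sum_ch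
  have h3 : ∀ v ∈ T.R, (T.O v).card + (T.X v).card + (T.Dr v).card + (if v = T.r then 0 else 1) =
      (D - 5 + (if T.Bd v = ∅ then 1 else 0)) + 4 := by
    intro v hv
    have := h.card_O2 hv
    rw [h.noX v hv, card_empty]
    split_ifs at this ⊢ <;> omega
  have h4 : ∀ v ∈ T.R, (T.NT v).card + (T.NX v).card = (T.NT v).card := by
    intro v hv; simp [NX, h.noX v hv]
  have h5 := sum_congr rfl h3
  have h6 : ∑ v ∈ T.R, (if v = T.r then 0 else 1) + 1 = T.R.card := by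
    rw [← add_sum_erase _ _ T.r_mem, if_pos rfl, ← card_erase_add_one T.r_mem, card_eq_sum_ones,
      zero_add]
    congr 1
    exact sum_congr rfl (fun x hx => if_neg (ne_of_mem_erase hx))
  rw [sum_congr rfl h4] at h1
  simp only [sum_add_distrib, ← mul_sum, sum_const, smul_eq_mul] at h1 h5 ⊢
  omega

/-- A prober sees a tight vertex. -/
theorem probe_tight (h : IsB T) {m v : V} (hm : m ∈ T.R) (hv : v ∈ T.O m) :
    T.Tight (fun _ _ _ => False) m v := fun _ hκ hne =>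
  Or.inl ((h.hc hm).uq_sees h.ncol (T.O_adj m hm v hv).ne.symm (h.uq_O hm hv) hκ hne)

/-- A unique neighbour of the hole is tight. -/
theorem uq_tight (h : IsB T) {m v : V} (hm : m ∈ T.R) (a : G.Adj m v) (hq : Uq G (T.col m) m v) :
    T.Tight (fun _ _ _ => False) m v := fun _ hκ hne =>
  Or.inl ((h.hc hm).uq_sees h.ncol a.ne.symm hq hκ hne)

/-- Two hidden vertices cannot both be recoloured. -/
theorem Bd_tight (h : IsB T) {w a b : V} (hw : w ∈ T.R) (ha : a ∈ T.Bd w) (hb : b ∈ T.Bd w)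
    (hab : a ≠ b) (h1 : ¬ T.Tight (fun _ _ _ => False) w a) :
    T.Tight (fun _ _ _ => False) w b := by
  unfold Tr.Tight at h1
  push Not at h1
  obtain ⟨κ, hκ, hne, hs, _⟩ := h1
  have haw := (mem_Bd.1 ha).1
  have hbw := (mem_Bd.1 hb).1
  have hr := (h.hc hw).recol haw.ne.symm hκ hs
  have hq : Uq G (Function.update (T.col w) a κ) w b := by
    intro m hm hmb
    rw [Function.update_of_ne hab.symm]
    by_cases e : m = a
    · rw [e, Function.update_self, ← h.Bd_col hw ha hb]; exact hne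
    · rw [Function.update_of_ne e]
      exact ((h.hc hw).double h.ncol (h.deg w) haw hbw hab (h.Bd_col hw ha hb) hm e hmb b hbw
        hmb.symm).symm
  intro ζ hζ hz
  obtain ⟨m, hm, e⟩ := hr.uq_sees h.ncol hbw.ne.symm hq hζ
    (by rwa [Function.update_of_ne hab.symm])
  have : m ≠ a := fun e2 => h.Bd_nadj hw hb ha (e2 ▸ hm)
  rw [Function.update_of_ne this] at e
  exact Or.inl ⟨m, hm, e⟩

end IsB

namespace IsA

variable {T : Tr G D}

open Tr

theorem mem_H' (h : IsA T) {w m : V} (hw : w ∈ T.R) :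
    m ∈ T.H w ↔ G.Adj w m ∧ ¬ Uq G (T.col w) w m := by
  rw [T.mem_H]
  refine ⟨fun ⟨h1, _, h3, h4⟩ => ⟨h1, fun h5 => h3 (h.all w hw m h1 h4 h5)⟩,
    fun ⟨h1, h2⟩ => ⟨h1, (h.hc hw).lt m h1.ne.symm, fun h3 => h2 (h.uq_O hw h3), fun e => ?_⟩⟩
  by_cases hr : w = T.r
  · rw [hr, T.p_r] at e; exact h1.ne (hr.trans e.symm)
  · exact h2 (e ▸ h.uq_par hw hr)

/-- Every hidden vertex has a partner of the same colour. -/
theorem partner (h : IsA T) {w a : V} (hw : w ∈ T.R) (ha : a ∈ T.H w) :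
    ∃ b ∈ T.H w, b ≠ a ∧ T.col w b = T.col w a := by
  obtain ⟨h1, h2⟩ := (h.mem_H' hw).1 ha
  unfold Uq at h2
  push Not at h2
  obtain ⟨b, hb, hne, he⟩ := h2
  exact ⟨b, (h.mem_H' hw).2 ⟨hb, fun h3 => h3 a h1 hne.symm he.symm⟩, hne, he⟩

/-- The hidden set is empty or a pair of equal colour. -/
theorem H_cases (h : IsA T) {w : V} (hw : w ∈ T.R) :
    T.H w = ∅ ∨ ∃ a b, a ≠ b ∧ T.col w a = T.col w b ∧ T.H w = {a, b} := by
  rcases (T.H w).eq_empty_or_nonempty with e | ⟨a, ha⟩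
  · exact Or.inl e
  obtain ⟨b, hb, hne, he⟩ := h.partner hw ha
  refine Or.inr ⟨a, b, hne.symm, he.symm, ?_⟩
  ext x
  simp only [mem_insert, mem_singleton]
  refine ⟨fun hx => ?_, fun hx => by rcases hx with rfl | rfl <;> assumption⟩
  by_contra hc
  push Not at hc
  obtain ⟨h1, h2⟩ := (h.mem_H' hw).1 hx
  exact h2 ((h.hc hw).double h.ncol (h.deg w) (T.mem_H.1 ha).1 (T.mem_H.1 hb).1 hne.symm he.symm
    h1 hc.1 hc.2)

theorem card_H (h : IsA T) {w : V} (hw : w ∈ T.R) : (T.H w).card ≤ 2 := by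
  rcases h.H_cases hw with e | ⟨a, b, _, _, e⟩
  · simp [e]
  · rw [e]; exact card_le_two

theorem H_col (h : IsA T) {w a b : V} (hw : w ∈ T.R) (ha : a ∈ T.H w) (hb : b ∈ T.H w) :
    T.col w a = T.col w b := by
  rcases h.H_cases hw with e | ⟨x, y, _, he, e⟩
  · simp [e] at ha
  · rw [e] at ha hb
    simp only [mem_insert, mem_singleton] at ha hb
    rcases ha with rfl | rfl <;> rcases hb with rfl | rfl <;> simp [he]

theorem H_nadj (h : IsA T) {w a b : V} (hw : w ∈ T.R) (ha : a ∈ T.H w) (hb : b ∈ T.H w) :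
    ¬ G.Adj a b := fun e => (h.hc hw).ne e (h.H_col hw ha hb)

/-- Number of arcs out of a vertex. -/
theorem card_O (h : IsA T) {w : V} (hw : w ∈ T.R) :
    (T.O w).card + (if w = T.r then 0 else 1) + (if T.H w = ∅ then 0 else 1) = D := by
  set U := (nb G w).filter (fun u => Uq G (T.col w) w u) with hU
  have h1 : U.card = (T.O w).card + (if w = T.r then 0 else 1) := by
    have h2 : T.O w = U.erase (T.p w) := by
      ext u
      simp only [hU, mem_erase, mem_filter, mem_nb]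
      exact ⟨fun hu => ⟨O_ne_p hw (Or.inl hu), T.O_adj w hw u hu, h.uq_O hw hu⟩,
        fun hu => h.all w hw u hu.2.1 hu.1 hu.2.2⟩
    split_ifs with hr
    · rw [h2, erase_eq_of_notMem]
      · rfl
      · rw [hr, T.p_r]; simp [hU, hr]
    · rw [h2, card_erase_add_one]
      simp only [hU, mem_filter, mem_nb]
      exact ⟨(h.adj_par hw hr).symm, h.uq_par hw hr⟩
  have h3 : (U.image (T.col w)).card = U.card := by
    refine card_image_of_injOn (fun a ha b hb e => ?_)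
    simp only [hU, coe_filter, mem_nb, Set.mem_ofPred_eq] at ha hb
    by_contra hne
    exact hb.2 a ha.1 hne e
  have h4 : nb G w = U ∪ T.H w := by
    ext u
    simp only [hU, mem_union, mem_filter, mem_nb, h.mem_H' hw]
    tauto
  have h5 := (h.hc hw).image_nb h.ncol
  have h6 : Disjoint (U.image (T.col w)) ((T.H w).image (T.col w)) := by
    refine disjoint_left.2 (fun κ ha hb => ?_)
    obtain ⟨a, ha, e1⟩ := mem_image.1 ha
    obtain ⟨b, hb, e2⟩ := mem_image.1 hb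
    simp only [hU, mem_filter, mem_nb] at ha
    obtain ⟨h7, h8⟩ := (h.mem_H' hw).1 hb
    exact ha.2 b h7 (fun e => h8 (e ▸ ha.2)) (e2.trans e1.symm)
  have h7 : ((T.H w).image (T.col w)).card = if T.H w = ∅ then 0 else 1 := by
    rcases h.H_cases hw with e | ⟨a, b, _, he, e⟩
    · simp [e]
    · simp [e, he]
  rw [h4, image_union] at h5
  have h8 := congrArg card h5
  rw [card_union_of_disjoint h6, card_range, h3, h7, h1] at h8
  exact h8

/-- The regrouped budget: an exact count of the non-tree arcs. -/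
theorem budget (h : IsA T) (hD : 5 ≤ D) : ∑ v ∈ T.R, (T.NT v).card =
    ∑ v ∈ T.R, (D - 5 + 2 * (T.ch v).card + (if T.H v = ∅ then 1 else 0)) + 4 := by
  have h1 := T.count
  have h2 := T.sum_ch
  have h3 : ∀ v ∈ T.R, (T.O v).card + (T.X v).card + (if v = T.r then 0 else 1) =
      (D - 5 + (if T.H v = ∅ then 1 else 0)) + 4 := by
    intro v hv
    have := h.card_O hv
    rw [h.noX v hv, card_empty]
    split_ifs at this ⊢ <;> omega
  have h4 : ∀ v ∈ T.R, (T.NT v).card + (T.NX v).card = (T.NT v).card := by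
    intro v hv; simp [NX, h.noX v hv]
  have h5 := sum_congr rfl h3
  have h6 : ∑ v ∈ T.R, (if v = T.r then 0 else 1) + 1 = T.R.card := by
    rw [← add_sum_erase _ _ T.r_mem, if_pos rfl, ← card_erase_add_one T.r_mem, card_eq_sum_ones,
      zero_add]
    congr 1
    exact sum_congr rfl (fun x hx => if_neg (ne_of_mem_erase hx))
  rw [sum_congr rfl h4] at h1
  simp only [sum_add_distrib, ← mul_sum, sum_const, smul_eq_mul] at h1 h5 ⊢
  omega

/-- Two hidden vertices cannot both be recoloured. -/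
theorem H_tight (h : IsA T) {w a b : V} (hw : w ∈ T.R) (ha : a ∈ T.H w) (hb : b ∈ T.H w)
    (hab : a ≠ b) (h1 : ¬ T.Tight (fun _ _ _ => False) w a) :
    T.Tight (fun _ _ _ => False) w b := by
  unfold Tr.Tight at h1
  push Not at h1
  obtain ⟨κ, hκ, hne, hs, _⟩ := h1
  have haw := (T.mem_H.1 ha).1
  have hbw := (T.mem_H.1 hb).1
  have hr := (h.hc hw).recol haw.ne.symm hκ hs
  have hq : Uq G (Function.update (T.col w) a κ) w b := by
    intro m hm hmb
    rw [Function.update_of_ne hab.symm]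
    by_cases e : m = a
    · rw [e, Function.update_self, ← h.H_col hw ha hb]; exact hne
    · rw [Function.update_of_ne e]
      exact ((h.hc hw).double h.ncol (h.deg w) haw hbw hab (h.H_col hw ha hb) hm e hmb b hbw
        hmb.symm).symm
  intro ζ hζ hz
  obtain ⟨m, hm, e⟩ := hr.uq_sees h.ncol hbw.ne.symm hq hζ
    (by rwa [Function.update_of_ne hab.symm])
  have : m ≠ a := fun e2 => h.H_nadj hw hb ha (e2 ▸ hm)
  rw [Function.update_of_ne this] at e
  exact Or.inl ⟨m, hm, e⟩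

/-- The plain choice of explaining states. -/
def S0 (T : Tr G D) (v z : V) : Prop :=
  z ∈ T.R ∧ ¬ T.Anc v z ∧ T.Tight (fun _ _ _ => False) z v

theorem isSig_S0 (h : IsA T) (v : V) : T.IsSig (fun _ _ _ => False) v (S0 T v) :=
  ⟨fun _ hz => hz.1, fun _ hz => hz.2.1, fun _ hz => hz.2.2,
    fun _ hm hv hn => ⟨hm, hn, h.probe_tight hm hv⟩⟩

theorem nu_S0 (h : IsA T) {w : V} (hw : w ∈ T.R) : (T.nuS (S0 T) w).card ≤ 1 := by
  have key : ∀ v ∈ T.nuS (S0 T) w, v ∈ T.H w ∧ ¬ T.Tight (fun _ _ _ => False) w v := by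
    intro v hv
    obtain ⟨h1, h2, h3⟩ := (T.mem_nuS _).1 hv
    obtain ⟨h4, h5⟩ := T.mem_NT.1 h2
    obtain ⟨h6, h7⟩ := unexpl (h.isSig_S0 v) h1 h4 h5 h3
    exact ⟨h7, fun h8 => h6 ⟨hw, nanc_of_O h1 h4 h5, h8⟩⟩
  refine card_le_one.2 (fun a ha b hb => ?_)
  by_contra hab
  exact (key b hb).2 (h.H_tight hw (key a ha).1 (key b hb).1 hab (key a ha).2)

/-- `T0` tails of `u`. -/
noncomputable def W (T : Tr G D) (u : V) : Finset V := (nb G u).filter (fun v => T.PayZ v u)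

theorem mem_W {u v : V} : v ∈ W T u ↔ G.Adj u v ∧ T.PayZ v u := by simp [W]

theorem W_uq {u v : V} (hu : u ∈ T.R) (hv : v ∈ W T u) : Uq G (T.col (T.p u)) v u := by
  obtain ⟨_, h1, _, _, h4⟩ := mem_W.1 hv
  intro m hm hne e
  rw [col_p_self hu h1] at e
  exact hne (h4 m hm e)

/-- A `T0` tail is unique at its head in the state of the parent, or the head hides it. -/
theorem W_clean (h : IsA T) {u v : V} (hu : u ∈ T.R) (hv : v ∈ W T u) (hn : v ∉ T.H u) :
    Uq G (T.col (T.p u)) u v := by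
  obtain ⟨h0, h1, h2, _, _⟩ := mem_W.1 hv
  have hq := T.p_mem u hu h1
  have hvq : v ≠ T.p u := (T.O_adj _ hq v h2).ne.symm
  have h5 : Uq G (T.col u) u v := by
    by_contra hc; exact hn ((h.mem_H' hu).2 ⟨h0, hc⟩)
  intro m hm hne
  by_cases e : m = T.p u
  · have := (h.hc hq).lt v hvq
    rw [e, col_self hq]; omega
  · rw [← col_step hu h1 hm.ne.symm e, ← col_step hu h1 h0.ne.symm hvq]
    exact h5 m hm hne

/-- At most one `T0` tail is hidden by its head. -/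
theorem W_soft (h : IsA T) {u v w : V} (hu : u ∈ T.R) (hv : v ∈ W T u) (hw : w ∈ W T u)
    (h1 : v ∈ T.H u) (h2 : w ∈ T.H u) : v = w := by
  obtain ⟨a0, a1, a2, _, _⟩ := mem_W.1 hv
  obtain ⟨b0, _, b2, _, _⟩ := mem_W.1 hw
  have hq := T.p_mem u hu a1
  refine O_inj hq a2 b2 ?_
  rw [← col_step hu a1 a0.ne.symm (T.O_adj _ hq v a2).ne.symm,
    ← col_step hu a1 b0.ne.symm (T.O_adj _ hq w b2).ne.symm]
  exact h.H_col hu h1 h2

theorem W0_sub {S Use : V → V → Prop} {u : V} : T.W0 S Use u ⊆ W T u := by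
  intro v hv
  obtain ⟨h1, h2, h3, _⟩ := (T.mem_W0 S Use).1 hv
  exact mem_W.2 ⟨(T.O_adj v h1 u (T.mem_NT.1 h2).1).symm, h3⟩

end IsA

namespace IsB

variable {T : Tr G D}

open Tr IsA

/-- A `T0` tail is unique at its head in the state of the parent, or the head hides it. -/
theorem W_clean2 (h : IsB T) {u v : V} (hu : u ∈ T.R) (hv : v ∈ W T u) (hn : v ∉ T.Bd u) :
    Uq G (T.col (T.p u)) u v := by
  obtain ⟨h0, h1, h2, _, _⟩ := mem_W.1 hv
  have hq := T.p_mem u hu h1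
  have hvq : v ≠ T.p u := (T.O_adj _ hq v h2).ne.symm
  have h5 : Uq G (T.col u) u v := by
    by_contra hc; exact hn (mem_Bd.2 ⟨h0, hc⟩)
  intro m hm hne
  by_cases e : m = T.p u
  · have := (h.hc hq).lt v hvq
    rw [e, col_self hq]; omega
  · rw [← col_step hu h1 hm.ne.symm e, ← col_step hu h1 h0.ne.symm hvq]
    exact h5 m hm hne

/-- At most one `T0` tail is hidden by its head. -/
theorem W_soft2 (h : IsB T) {u v w : V} (hu : u ∈ T.R) (hv : v ∈ W T u) (hw : w ∈ W T u)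
    (h1 : v ∈ T.Bd u) (h2 : w ∈ T.Bd u) : v = w := by
  obtain ⟨a0, a1, a2, _, _⟩ := mem_W.1 hv
  obtain ⟨b0, _, b2, _, _⟩ := mem_W.1 hw
  have hq := T.p_mem u hu a1
  refine O_inj hq a2 b2 ?_
  rw [← col_step hu a1 a0.ne.symm (T.O_adj _ hq v a2).ne.symm,
    ← col_step hu a1 b0.ne.symm (T.O_adj _ hq w b2).ne.symm]
  exact h.Bd_col hu h1 h2

/-- CLIQUE CLAIM: two `T0` tails of one head are adjacent. -/
theorem W_adj (h : IsB T) {u v w : V} (hu : u ∈ T.R) (hv : v ∈ W T u) (hw : w ∈ W T u)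
    (hne : v ≠ w) : G.Adj v w := by
  have key : ∀ v w, v ∈ W T u → w ∈ W T u → v ≠ w → v ∉ T.Bd u → G.Adj v w := by
    intro v w hv hw hne hn
    obtain ⟨a0, a1, a2, _, _⟩ := mem_W.1 hv
    obtain ⟨b0, _, b2, _, _⟩ := mem_W.1 hw
    have hq := T.p_mem u hu a1
    exact (h.hc hq).swap_adj h.ncol (p_ne hu a1).symm (T.O_adj _ hq v a2)
      (T.O_adj _ hq w b2).ne.symm (h.uq_O hq b2) a0 b0 (W_uq hu hv) (W_uq hu hw)
      (h.W_clean2 hu hv hn) hne
  by_cases h1 : v ∈ T.Bd u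
  · exact (key w v hw hv hne.symm (fun h2 => hne (h.W_soft2 hu hv hw h1 h2))).symm
  · exact key v w hv hw hne h1

theorem W_clq (h : IsB T) {u : V} (hu : u ∈ T.R) (hr : u ≠ T.r) :
    IsClq G (insert (T.p u) (insert u (W T u))) ∧
      (insert (T.p u) (insert u (W T u))).card = (W T u).card + 2 := by
  have hq := T.p_mem u hu hr
  have h1 : ∀ v ∈ W T u, G.Adj u v ∧ G.Adj (T.p u) v :=
    fun v hv => ⟨(mem_W.1 hv).1, T.O_adj _ hq v (mem_W.1 hv).2.2.1⟩
  have h2 := h.adj_par hu hr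
  constructor
  · intro a ha b hb hab
    simp only [mem_insert] at ha hb
    rcases ha with rfl | rfl | ha <;> rcases hb with rfl | rfl | hb
    · exact absurd rfl hab
    · exact h2
    · exact (h1 b hb).2
    · exact h2.symm
    · exact absurd rfl hab
    · exact (h1 b hb).1
    · exact (h1 a ha).2.symm
    · exact (h1 a ha).1.symm
    · exact h.W_adj hu ha hb hab
  · rw [card_insert_of_notMem, card_insert_of_notMem]
    · exact fun e => (h1 u e).1.ne rfl
    · simp only [mem_insert, not_or]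
      exact ⟨h2.ne, fun e => (h1 _ e).2.ne rfl⟩

end IsB

end Pool.Agent.Lib.MP_12eaff_co.Acc
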