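import Pool.Agent.Lib.MP_12eaff_co.Acc.Cost

set_option autoImplicit false
set_option linter.unusedSectionVars false

namespace Pool.Agent.Lib.MP_12eaff_co.Acc

open Finset Pool.Agent.Lib.MP_12eaff_co.BK
open scoped Classical

variable {V : Type} [Fintype V] {G : SimpleGraph V} {D : ℕ}

namespace Tr

variable {T : Tr G D}

/-- One witness, with the position of the payer. -/
theorem wit2 {v u z m : V} (hv : v ∈ T.R) (hu : u ∈ T.O v) (hz : z ∈ T.R) (hna : ¬ T.Anc v z)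
    (hm : G.Adj v m) (hmu : m ≠ u) (hc : T.col z m = T.col v u) :
    (m = T.p v ∧ T.PayT v u) ∨
      (∃ x ∈ T.ch m, v ∈ T.H m ∧ T.tc x v = T.col v u ∧
        ((T.Anc x v ∧ ¬ T.Anc m z) ∨ (¬ T.Anc x v ∧ T.Anc x z))) ∨
      (∃ x ∈ T.ch m, T.Anc x z ∧ ¬ T.Anc x v ∧ T.c x = T.col v u ∧ v ∈ T.O m ∧ ¬ T.Anc v m) := by
  have hvr : v ≠ T.r := fun e => hna (e ▸ anc_r hz)
  have hne : T.col v m ≠ T.col v u := T.uniq v hv u (Or.inl hu) m hm hmu
  have hlt : T.col v u < D := T.lt v hv u (Or.inl hu)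
  by_cases hmz : T.Anc m z ∧ m ≠ z
  · obtain ⟨x, hx, hxz⟩ := hmz.1.child hmz.2
    have hcx : T.c x = T.col v u := by rw [← col_anc hx hxz, hc]
    have hxv : ¬ T.Anc x v := fun h => hne (by rw [col_anc hx h, hcx])
    have hmR : m ∈ T.R := hmz.1.mem.1
    rcases adj_cases hmR hv hm.symm with h | h | h
    · exact Or.inr (Or.inr ⟨x, hx, hxz, hxv, hcx, h, fun h1 => hna (h1.trans hmz.1)⟩)
    · exact Or.inr (Or.inl ⟨x, hx, h, by rw [tc, if_neg hxv, hcx], Or.inr ⟨hxv, hxz⟩⟩)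
    · exact absurd ((anc_ch h).trans hmz.1) hna
  · have hmz1 : m ≠ z := by
      rintro rfl
      rw [col_self hz] at hc; omega
    have hmz2 : ¬ T.Anc m z := fun h => hmz ⟨h, hmz1⟩
    have hcm : T.c m = T.col v u := by rw [← col_base hz hmz2, hc]
    have hmv : T.Anc m v := by
      by_contra h
      exact hne (by rw [col_base hv h, hcm])
    by_cases hp : m = T.p v
    · exact Or.inl ⟨hp, hvr, by rw [← hp, hcm]⟩
    · obtain ⟨x, hx, hxv⟩ := hmv.child hm.ne.symm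
      obtain ⟨hx1, hx2, hx3⟩ := T.mem_ch.1 hx
      have hxne : x ≠ v := fun e => hp (by rw [← hx3, e])
      have h1 := hxv.lt hxne
      have h2 := d_ch hx
      exact Or.inr (Or.inl ⟨x, hx, F2 hmv.mem.1 hv hm.symm (by omega),
        by rw [tc, if_pos hxv, hx3, hcm], Or.inl ⟨hxv, hmz2⟩⟩)

/-- A hidden witness in a state of `S` is a paying pair. -/
theorem payP_of {S : V → Prop} {v u z m x : V} (hv : v ∈ T.R) (hu : u ∈ T.O v) (hz : z ∈ T.R)
    (hS : S z) (hm : G.Adj v m) (hmu : m ≠ u) (hc : T.col z m = T.col v u) (hx : x ∈ T.ch m)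
    (hH : v ∈ T.H m) (ht : T.tc x v = T.col v u)
    (h : (T.Anc x v ∧ ¬ T.Anc m z) ∨ (¬ T.Anc x v ∧ T.Anc x z)) : T.PayP S x v u := by
  obtain ⟨h1, h2, h3⟩ := T.mem_ch.1 hx
  refine ⟨h1, h2, h3 ▸ hH, ht, z, hS, ?_, h.imp (fun h => ⟨h.1, ?_⟩) id⟩
  · rw [h3, hc]; exact (T.uniq v hv u (Or.inl hu) m hm hmu).symm
  · rw [h3]; exact col_base hz h.2

end Tr

namespace IsB

variable {T : Tr G D}

open Tr

/-- Replay of a tree path from a modified state: it works or a modified vertex blocks a step. -/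
theorem replay (h : IsB T) {a z : V} (haz : T.Anc a z) {f : V → ℕ} (hf : HC G D a f)
    (P : V → Prop) (h1 : ∀ m, ¬ P m → f m = T.col a m)
    (h2 : ∀ m, P m → ¬ (T.Anc a m ∧ T.Anc m z)) :
    HC G D z (fun m => if P m then f m else T.col z m) ∨
      ∃ x m, x ≠ T.r ∧ T.Anc a (T.p x) ∧ T.Anc x z ∧ P m ∧ G.Adj (T.p x) m ∧ f m = T.c x := by
  induction haz with
  | refl _ =>
    refine Or.inl ?_
    convert hf using 2 with m
    split_ifs with e
    · rfl
    · exact (h1 m e).symm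
  | step v hv hr hp ih =>
    rcases ih (fun m hm e => h2 m hm ⟨e.1, Anc.step _ v hv hr e.2⟩) with k | ⟨x, m, k⟩
    swap
    · exact Or.inr ⟨x, m, k.1, k.2.1, Anc.step _ v hv hr k.2.2.1, k.2.2.2⟩
    have hq := T.p_mem v hv hr
    have n1 : ¬ P v := fun e => h2 v e ⟨Anc.step _ v hv hr hp, Anc.refl v hv⟩
    have n2 : ¬ P (T.p v) := fun e => h2 _ e ⟨hp, anc_p hv hr⟩
    by_cases hb : ∃ m, P m ∧ G.Adj (T.p v) m ∧ f m = T.c v
    · obtain ⟨m, hm⟩ := hb
      exact Or.inr ⟨v, m, hr, hp, Anc.refl v hv, hm⟩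
    push Not at hb
    have hq2 : Uq G (fun m => if P m then f m else T.col (T.p v) m) (T.p v) v := by
      intro m hm hne
      simp only [if_neg n1]
      split_ifs with e
      · rw [col_p_self hv hr]; exact hb m e hm
      · exact h.uq_O hq (h.par_O hv hr) m hm hne
    refine Or.inl ?_
    convert k.shift (p_ne hv hr).symm hq2 using 2 with m
    rw [T.col_p v hv hr]
    simp only [shift, Function.update_apply, if_neg n1]
    split_ifs with e1 e2 e3
    · exact absurd (e2 ▸ e1) n1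
    · exact absurd (e3 ▸ e1) n2
    all_goals rfl

/-- A triangle pair whose head is not the only neighbour of that colour in the state of the
parent has another payer. -/
theorem tri_alt (_ : IsB T) {S : V → Prop} {x v m : V} (hx : x ∈ T.R) (hr : x ≠ T.r)
    (hv : v ∈ T.R) (hO : x ∈ T.O v) (hS : S x) (n1 : ¬ T.Anc v x) (n2 : ¬ T.Anc x v)
    (hm : G.Adj v m) (hmx : m ≠ x) (hc : T.col (T.p x) m = T.c x) :
    T.PayT v x ∨ ∃ y, T.p y = m ∧ y ≠ x ∧ T.PayP S y v x := by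
  have hq := T.p_mem x hx hr
  have hmq : m ≠ T.p x := by
    rintro rfl
    have := c_lt hx hr
    rw [col_self hq] at hc; omega
  have hc2 : T.col x m = T.col v x := by rw [col_step hx hr hmx hmq, hc, col_base hv n2]
  rcases wit2 hv hO hx n1 hm hmx hc2 with k | ⟨y, hy, k1, k2, k3⟩ | ⟨y, hy, k1, _, k3, k4, _⟩
  · exact Or.inl k.2
  · have hp := (T.mem_ch.1 hy).2.2
    exact Or.inr ⟨y, hp, fun e => hmq (by rw [← hp, e]),
      payP_of hv hO hx hS hm hmx hc2 hy k1 k2 k3⟩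
  · exfalso
    have hp := (T.mem_ch.1 hy).2.2
    have hyx : y ≠ x := fun e => hmq (by rw [← hp, e])
    have d1 := d_ch hy
    have d2 := (T.clo m (anc_ch hy).mem.1 v (Or.inl k4)).2
    have d3 := (T.clo v hv x (Or.inl hO)).2
    have := k1.ch_of_d hyx (by omega)
    exact c_ch_ne this (T.mem_ch.1 hy).2.1 (by rw [k3, col_base hv n2])

end IsB

end Pool.Agent.Lib.MP_12eaff_co.Acc
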