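import Pool.Agent.Lib.MP_12eaff_co.Acc.Ent
import Pool.Agent.Lib.MP_12eaff_co.Acc.Cost
import Pool.Agent.Lib.MP_12eaff_co.Acc.Replay

set_option autoImplicit false
set_option linter.unusedSectionVars false

namespace Pool.Agent.Lib.MP_12eaff_co.Acc

open Finset Pool.Agent.Lib.MP_12eaff_co.BK
open scoped Classical

variable {V : Type} [Fintype V] {G : SimpleGraph V} {D : ℕ}

/-- Transfers between vertices do not change the total. -/
theorem transfer (R : Finset V) (cost cap : V → ℕ) (give : V → V → ℕ)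
    (h : ∀ y ∈ R, cost y + ∑ x ∈ R, give y x ≤ cap y + ∑ x ∈ R, give x y) :
    ∑ y ∈ R, cost y ≤ ∑ y ∈ R, cap y := by
  have := sum_le_sum h
  rw [sum_add_distrib, sum_add_distrib, sum_comm] at this
  omega

namespace Tr

variable (T : Tr G D) (Use : V → V → Prop)

/-- The pair `(x, v)` has target `u`. -/
def Pr (x v u : V) : Prop := x ∈ T.R ∧ x ≠ T.r ∧ v ∈ T.H (T.p x) ∧ T.tc x v = T.col v u

def HasQ (v u : V) : Prop := ∃ x, T.Pr x v u ∧ Use x v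

noncomputable def tQ (v : V) : Finset V := (T.NT v).filter fun u => T.PayT v u ∧ ¬ T.HasQ Use v u

noncomputable def WQ (u : V) : Finset V :=
  T.R.filter fun v => u ∈ T.NT v ∧ (T.PayZ v u ∧ ¬ T.PayT v u ∧ ¬ T.HasQ Use v u)

/-- Tails of the arcs into `w` that have no other payer. -/
noncomputable def nuQ (w : V) : Finset V :=
  T.R.filter fun v => w ∈ T.NT v ∧ (¬ T.PayZ v w ∧ ¬ T.PayT v w ∧ ¬ T.HasQ Use v w)

/-- Used pairs with head `x`. -/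
noncomputable def piQ (x : V) : Finset V :=
  T.R.filter fun v => Use x v ∧ ∃ u ∈ T.NT v, T.Pr x v u

noncomputable def costQ (y : V) : ℕ :=
  (T.tQ Use y).card + (T.WQ Use y).card + (T.nuQ Use y).card + (T.piQ Use y).card

variable {T Use} {u v w x : V}

theorem mem_tQ : u ∈ T.tQ Use v ↔ u ∈ T.NT v ∧ T.PayT v u ∧ ¬ T.HasQ Use v u := mem_filter

theorem mem_WQ : v ∈ T.WQ Use u ↔
    v ∈ T.R ∧ u ∈ T.NT v ∧ T.PayZ v u ∧ ¬ T.PayT v u ∧ ¬ T.HasQ Use v u := mem_filter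

theorem mem_nuQ : v ∈ T.nuQ Use w ↔
    v ∈ T.R ∧ w ∈ T.NT v ∧ ¬ T.PayZ v w ∧ ¬ T.PayT v w ∧ ¬ T.HasQ Use v w := mem_filter

theorem mem_piQ : v ∈ T.piQ Use x ↔ v ∈ T.R ∧ Use x v ∧ ∃ u ∈ T.NT v, T.Pr x v u := mem_filter

theorem PayP.pr {S : V → Prop} (h : T.PayP S x v u) : T.Pr x v u :=
  ⟨h.1, h.2.1, h.2.2.1, h.2.2.2.1⟩

theorem card_tQ (hv : v ∈ T.R) : (T.tQ Use v).card ≤ 1 := card_le_one.2 fun _ ha _ hb =>
  O_inj hv (T.mem_NT.1 (mem_tQ.1 ha).1).1 (T.mem_NT.1 (mem_tQ.1 hb).1).1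
    ((mem_tQ.1 ha).2.1.2.trans (mem_tQ.1 hb).2.1.2.symm)

theorem piQ_sub : T.piQ Use x ⊆ T.H (T.p x) := fun _ h => by
  obtain ⟨-, -, u, -, k⟩ := mem_piQ.1 h
  exact k.2.2.1

theorem accountQ (T : Tr G D) (Use : V → V → Prop) :
    ∑ v ∈ T.R, (T.NT v).card ≤ ∑ v ∈ T.R, T.costQ Use v := by
  simp only [costQ, sum_add_distrib]
  have h1 : ∑ v ∈ T.R, ((T.NT v).filter
      fun u => T.PayZ v u ∧ ¬ T.PayT v u ∧ ¬ T.HasQ Use v u).card = ∑ v ∈ T.R, (T.WQ Use v).card := by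
    unfold WQ
    convert T.sum_head fun v u => T.PayZ v u ∧ ¬ T.PayT v u ∧ ¬ T.HasQ Use v u
  have h2 : ∑ v ∈ T.R, ((T.NT v).filter fun u => ¬ T.PayZ v u ∧ ¬ T.PayT v u ∧
      ¬ T.HasQ Use v u).card = ∑ v ∈ T.R, (T.nuQ Use v).card := by
    unfold nuQ
    convert T.sum_head fun v u => ¬ T.PayZ v u ∧ ¬ T.PayT v u ∧ ¬ T.HasQ Use v u
  have h3 : ∑ v ∈ T.R, ((T.NT v).filter (T.HasQ Use v)).card ≤ ∑ x ∈ T.R, (T.piQ Use x).card := by
    have : ∑ x ∈ T.R, (T.piQ Use x).card =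
        ∑ v ∈ T.R, (T.R.filter fun x => Use x v ∧ ∃ u ∈ T.NT v, T.Pr x v u).card := by
      simp only [piQ, card_filter]
      exact sum_comm
    rw [this]
    refine sum_le_sum fun v hv => ?_
    have : ∀ u, ∃ x, T.HasQ Use v u → T.Pr x v u ∧ Use x v := fun u => by
      by_cases k : T.HasQ Use v u
      exacts [k.imp fun _ k _ => k, ⟨u, fun x => absurd x k⟩]
    choose f hf using this
    refine card_le_card_of_injOn f (fun u k => ?_) fun a ha b hb e => ?_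
    · obtain ⟨k1, k2⟩ := mem_filter.1 k
      exact mem_filter.2 ⟨(hf u k2).1.1, (hf u k2).2, u, k1, (hf u k2).1⟩
    · obtain ⟨a1, a2⟩ := mem_filter.1 ha
      obtain ⟨b1, b2⟩ := mem_filter.1 hb
      exact O_inj hv (T.mem_NT.1 a1).1 (T.mem_NT.1 b1).1
        (by rw [← (hf a a2).1.2.2.2, e, (hf b b2).1.2.2.2])
  have h4 : ∀ v ∈ T.R, (T.NT v).card ≤ (T.tQ Use v).card +
      ((T.NT v).filter fun u => T.PayZ v u ∧ ¬ T.PayT v u ∧ ¬ T.HasQ Use v u).card +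
      ((T.NT v).filter fun u => ¬ T.PayZ v u ∧ ¬ T.PayT v u ∧ ¬ T.HasQ Use v u).card +
      ((T.NT v).filter (T.HasQ Use v)).card := fun v _ => by
    simp only [tQ, card_filter, ← sum_add_distrib]
    rw [card_eq_sum_ones]
    refine sum_le_sum fun u _ => ?_
    by_cases a : T.PayT v u <;> by_cases b : T.PayZ v u <;> by_cases c : T.HasQ Use v u <;>
      simp [a, b, c]
  have h5 := sum_le_sum h4
  simp only [sum_add_distrib] at h5
  omega

theorem costQ_r : T.costQ Use T.r = (T.nuQ Use T.r).card := by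
  have h1 : T.WQ Use T.r = ∅ := eq_empty_of_forall_notMem fun v k => (mem_WQ.1 k).2.2.1.1 rfl
  have h2 : T.piQ Use T.r = ∅ := eq_empty_of_forall_notMem fun v k => by
    obtain ⟨-, -, u, -, k⟩ := mem_piQ.1 k
    exact k.2.1 rfl
  simp [costQ, tQ, NT_r, h1, h2]

end Tr

/-- Explaining states: all tight ones, except remote leaves whose parent hides `v`. -/
def S2 (T : Tr G D) (v z : V) : Prop := z ∈ T.R ∧ ¬ T.Anc v z ∧
  T.Tight (fun _ _ _ => False) z v ∧ ¬ (T.ch z = ∅ ∧ ¬ G.Adj v z ∧ v ∈ T.H (T.p z))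

/-- Admissible pairs: outside the `ν` columns, and triangle pairs if the head is a leaf. -/
def Adm (T : Tr G D) (x v : V) : Prop :=
  v ∉ T.nuS (S2 T) (T.p x) ∧ (T.ch x = ∅ → G.Adj v x)

namespace IsA

variable {T : Tr G D} {Use : V → V → Prop} {u v w x e : V}

open Tr

theorem finalQ (h : IsA T) (hD : 5 ≤ D) (Use : V → V → Prop) :
    ∑ y ∈ T.R, (D - 3 + if T.H y = ∅ then 1 else 0) + 2 ≤ ∑ y ∈ T.R, T.costQ Use y := by
  have h1 := T.accountQ Use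
  have h2 := h.budget hD
  have h3 := T.sum_ch
  have h4 : ∑ y ∈ T.R, (D - 3 + if T.H y = ∅ then 1 else 0) =
      ∑ y ∈ T.R, ((D - 5) + 2 + if T.H y = ∅ then 1 else 0) := sum_congr rfl fun _ _ => by omega
  simp only [sum_add_distrib, ← mul_sum, sum_const, smul_eq_mul] at h2 h4 ⊢
  omega

theorem isSig_S2 (h : IsA T) (v : V) : T.IsSig (fun _ _ _ => False) v (S2 T v) :=
  ⟨fun _ hz => hz.1, fun _ hz => hz.2.1, fun _ hz => hz.2.2.1, fun m hm hv hn =>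
    ⟨hm, hn, h.probe_tight hm hv, fun k => k.2.1 (T.O_adj m hm v hv).symm⟩⟩

theorem nu_S2_spec (h : IsA T) (hv : v ∈ T.nuS (S2 T) w) :
    w ∈ T.R ∧ v ∈ T.H w ∧ ¬ T.Tight (fun _ _ _ => False) w v := by
  obtain ⟨h1, h2, h3⟩ := (T.mem_nuS _).1 hv
  obtain ⟨h4, h5⟩ := T.mem_NT.1 h2
  obtain ⟨h6, h7⟩ := unexpl (h.isSig_S2 v) h1 h4 h5 h3
  have hw := (O_mem h1 h4).1
  exact ⟨hw, h7, fun k => h6 ⟨hw, nanc_of_O h1 h4 h5, k, fun z => z.2.1 (T.O_adj v h1 w h4)⟩⟩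

theorem nu_S2 (h : IsA T) (w : V) : (T.nuS (S2 T) w).card ≤ 1 := card_le_one.2 fun a ha b hb => by
  by_contra k
  obtain ⟨hw, a1, a2⟩ := h.nu_S2_spec ha
  exact (h.nu_S2_spec hb).2.2 (h.H_tight hw a1 (h.nu_S2_spec hb).2.1 k a2)

theorem leaf_nanc (h : IsA T) (k : T.Pr x v u) (hx : T.ch x = ∅) : ¬ T.Anc x v := fun z =>
  (T.mem_H.1 k.2.2.1).2.2.1 (leaf_anc hx z ▸ h.par_O k.1 k.2.1)

theorem adm_of (h : IsA T) (k : T.PayP (S2 T v) x v u) : Adm T x v := by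
  refine ⟨nu_col (T.mem_ch.2 ⟨k.1, k.2.1, rfl⟩) k, fun l => by_contra fun n => ?_⟩
  obtain ⟨z, z1, -, z2 | z2⟩ := k.2.2.2.2
  · exact h.leaf_nanc k.pr l z2.1
  · exact (leaf_anc l z2.2 ▸ z1).2.2.2 ⟨l, n, k.2.2.1⟩

/-- An arc without payer is unexplained, or all its good pairs are declined. -/
theorem nuQ_esc (h : IsA T) (hv : v ∈ T.nuQ Use w) :
    v ∈ T.nuS (S2 T) w ∨ ∃ x, T.PayP (S2 T v) x v w ∧ ¬ Use x v := by
  obtain ⟨h1, h2, h3, h4, h5⟩ := mem_nuQ.1 hv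
  by_cases k : T.Expl (S2 T v) v w
  · rcases lemE (h.isSig_S2 v) h1 (T.mem_NT.1 h2).1 k with z | z | ⟨x, z⟩ | ⟨_, _, z⟩
    exacts [absurd z h4, absurd z h3, .inr ⟨x, z, fun y => h5 ⟨x, z.pr, y⟩⟩, z.elim]
  · exact .inl ((T.mem_nuS _).2 ⟨h1, h2, k⟩)

theorem nuQ_sub (h : IsA T) : T.nuQ (Adm T) w ⊆ T.nuS (S2 T) w := fun _ k =>
  (h.nuQ_esc k).resolve_right fun ⟨_, a, b⟩ => b (h.adm_of a)

theorem card_nuQ (h : IsA T) (w : V) : (T.nuQ (Adm T) w).card ≤ 1 :=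
  (card_le_card h.nuQ_sub).trans (h.nu_S2 w)

/-- Column bound. -/
theorem piQ_nu (h : IsA T) (hU : ∀ x v, Use x v → Adm T x v) (hx : x ∈ T.R) (hr : x ≠ T.r) :
    (T.piQ Use x).card + (T.nuS (S2 T) (T.p x)).card ≤ 2 := by
  rw [← card_union_of_disjoint (disjoint_left.2 fun v k => (hU x v (mem_piQ.1 k).2.1).1)]
  exact (card_le_card (union_subset piQ_sub fun v k => (h.nu_S2_spec k).2.1)).trans
    (h.card_H (T.p_mem x hx hr))

/-- A pair whose head is adjacent to, and not above, the hidden vertex is a triangle pair. -/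
theorem pr_tri (h : IsA T) (hv : v ∈ T.R) (hu : u ∈ T.O v) (k : T.Pr x v u) (a : G.Adj v x)
    (n : ¬ T.Anc x v) : x = u := by
  by_contra e
  exact h.uq_O hv hu x a e (by rw [col_base hv n, ← k.2.2.2, tc, if_neg n])

theorem piQ_leaf (h : IsA T) (hU : ∀ x v, Use x v → Adm T x v) (hx : T.ch x = ∅)
    (hv : v ∈ T.piQ Use x) : v ∈ T.R ∧ x ∈ T.NT v ∧ G.Adj v x ∧ v ∉ T.nuQ Use x := by
  obtain ⟨h1, h2, u, h3, h4⟩ := mem_piQ.1 hv
  obtain rfl := h.pr_tri h1 (T.mem_NT.1 h3).1 h4 ((hU x v h2).2 hx) (h.leaf_nanc h4 hx)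
  exact ⟨h1, h3, (hU x v h2).2 hx, fun k => (mem_nuQ.1 k).2.2.2.2 ⟨x, h4, h2⟩⟩

/-- Leaf bound. -/
theorem leafQ (h : IsA T) (hx : x ∈ T.R) (hr : x ≠ T.r) (hl : T.ch x = ∅) :
    (T.piQ (Adm T) x).card + (T.nuQ (Adm T) x).card ≤ 2 := by
  have h1 := h.card_nuQ x
  have h2 : (T.piQ (Adm T) x).card ≤ 2 :=
    (card_le_card piQ_sub).trans (h.card_H (T.p_mem x hx hr))
  by_contra hc
  obtain ⟨a, ha, b, hb, hab⟩ := one_lt_card.1 (show 1 < (T.piQ (Adm T) x).card by omega)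
  obtain ⟨v, hv⟩ := card_pos.1 (show 0 < (T.nuQ (Adm T) x).card by omega)
  have a1 := (h.piQ_leaf (fun _ _ k => k) hl ha).2.2
  have b1 := (h.piQ_leaf (fun _ _ k => k) hl hb).2.2
  have v1 := (h.nu_S2_spec (h.nuQ_sub hv)).2.1
  rw [h.H_ch hx hr (piQ_sub ha) (piQ_sub hb) hab a1.1.symm b1.1.symm] at v1
  rcases mem_insert.1 v1 with rfl | v1
  exacts [a1.2 hv, b1.2 (mem_singleton.1 v1 ▸ hv)]

theorem WQ_spec (hw : w ∈ T.WQ Use u) : w ∈ W T u ∧ u ∈ T.O w := by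
  obtain ⟨h1, h2, h3, -⟩ := mem_WQ.1 hw
  exact ⟨mem_W.2 ⟨(T.O_adj w h1 u (T.mem_NT.1 h2).1).symm, h3⟩, (T.mem_NT.1 h2).1⟩

theorem WQ_sub : T.WQ Use u ⊆ W T u := fun _ k => (WQ_spec k).1

/-- COVER with admissible tickets. -/
theorem cover2 (h : IsA T) (hw : w ∈ T.R) (hu : u ∈ T.O w) (nt : ¬ T.PayT w u)
    (nq : ¬ T.HasQ (Adm T) w u) {y m : V}
    (py : S2 T w y ∨ T.Anc w y ∧ (T.ch y = ∅ → T.c y ≠ T.col w u)) (a : G.Adj w m) (ne : m ≠ u)
    (hc : T.col y m = T.col w u) :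
    ∃ x ∈ T.ch m, T.Anc x y ∧ T.c x = T.col w u ∧ ¬ T.Anc x w ∧ (w ∈ T.O m ∨ m ∈ T.ch w) := by
  rcases py with py | ⟨py, pl⟩
  · rcases wit2 hw hu py.1 py.2.1 a ne hc with k | ⟨x, k1, k2, k3, k4⟩ | ⟨x, k1, k2, k3, k4, k5, -⟩
    · exact absurd k.2 nt
    · have := payP_of hw hu py.1 py a ne hc k1 k2 k3 k4
      exact absurd ⟨x, this.pr, h.adm_of this⟩ nq
    · exact ⟨x, k1, k2, k4, k3, .inl k5⟩
  have uq := h.uq_O hw hu m a ne
  have k : T.Anc w m ∧ T.Anc m y := by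
    by_contra z
    exact uq (by rw [← col_diff py z, hc])
  obtain ⟨x, x1, x2⟩ := k.2.child fun z => by
    have := T.lt w hw u (.inl hu)
    rw [← hc, z, col_self py.mem.2] at this
    omega
  obtain ⟨p1, p2, p3⟩ := T.mem_ch.1 x1
  rw [col_anc x1 x2] at hc
  have := k.1.le
  have := d_ch x1
  have n : ¬ T.Anc x w := fun z => by have := z.le; omega
  refine ⟨x, x1, x2, hc, n, (adj_cases k.2.mem.1 hw a.symm).imp_right fun z =>
    z.resolve_left fun z => nq ⟨x, ⟨p1, p2, p3 ▸ z, by rw [tc, if_neg n, hc]⟩, fun q => ?_,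
      fun l => absurd hc (leaf_anc l x2 ▸ pl (leaf_anc l x2 ▸ l))⟩⟩
  obtain ⟨-, q1, -⟩ := (T.mem_nuS _).1 (p3 ▸ q)
  exact nanc_of_O hw (T.mem_NT.1 q1).1 (T.mem_NT.1 q1).2 k.1

/-- ENTRY, key step, with admissible tickets. -/
theorem entry_key2 (h : IsA T) (hu : u ∈ T.R) (hw : w ∈ T.WQ (Adm T) u) (n : ¬ T.Anc u e) {y : V}
    (ye : T.Anc y e) (py : S2 T w y ∨ T.Anc w y ∧ (T.ch y = ∅ → T.c y ≠ T.c u))
    (s : ¬ Uq G (T.col y) w u) : ¬ Uq G (T.col e) u w ∨ Ex2 T u e w := by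
  obtain ⟨h1, h2, h3, h4, h5⟩ := mem_WQ.1 hw
  refine h.entry_gen hu (WQ_spec hw).1 (WQ_spec hw).2 n _
    (fun y m p _ a b c => h.cover2 h1 (WQ_spec hw).2 h4 h5 p a b c) (fun a x k p => ?_) ye
    (by rwa [h3.2.2.1]) s
  have l : T.ch a ≠ ∅ := ne_empty_of_mem k
  have aR := (anc_ch k).mem.1
  by_cases q : T.Anc w a
  · exact .inr ⟨q, fun z => absurd z l⟩
  · exact .inl ((h.isSig_S2 w).probe a aR (p.resolve_right fun z => q (anc_ch z)) q)

/-- Third kind of exception: the entry is a leaf whose parent hides `w`. -/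
def Ex3 (T : Tr G D) (e w : V) : Prop := T.ch e = ∅ ∧ e ≠ T.r ∧ w ∈ T.H (T.p e) ∧ ¬ G.Adj w e ∧
  ¬ T.Tight (fun _ _ _ => False) (T.p e) w ∧ ∀ m, G.Adj w m → T.col (T.p e) m ≠ T.c e

theorem ex3_one (h : IsA T) (he : e ∈ T.R) {w' : V} (k : Ex3 T e w) (k' : Ex3 T e w') : w = w' := by
  by_contra n
  exact k'.2.2.2.2.1 (h.H_tight (T.p_mem e he k.2.1) k.2.2.1 k'.2.2.1 n k.2.2.2.2.1)

/-- ENTRY at a neighbour `e` of the head for a tail that is tight in `s(e)` or above `e`. -/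
theorem entry_tight (h : IsA T) (hu : u ∈ T.R) (hw : w ∈ T.WQ (Adm T) u) (he : e ∈ T.R)
    (n : ¬ T.Anc u e) (a : G.Adj u e) (t : T.Tight (fun _ _ _ => False) e w ∨ T.Anc w e)
    (s : ¬ Uq G (T.col e) w u) : ¬ Uq G (T.col e) u w ∨ Ex2 T u e w ∨ Ex3 T e w := by
  have cu := c_lt hu (mem_WQ.1 hw).2.2.1.1
  have ce : T.c e ≠ T.c u := (T.base u e a cu).symm
  by_cases q : T.Anc w e
  · exact (h.entry_key2 hu hw n (.refl e he) (.inr ⟨q, fun _ => ce⟩) s).imp_right .inl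
  replace t := t.resolve_right q
  by_cases l : T.ch e = ∅ ∧ ¬ G.Adj w e ∧ w ∈ T.H (T.p e)
  swap
  · exact (h.entry_key2 hu hw n (.refl e he) (.inl ⟨he, q, t, l⟩) s).imp_right .inl
  have hr : e ≠ T.r := fun z => l.2.1 (by
    have := (T.mem_H.1 l.2.2).1
    rw [z, T.p_r] at this
    exact z ▸ this.symm)
  have pe := anc_p he hr
  have ne : ∀ m, G.Adj w m → m ≠ e := fun m k z => l.2.1 (z ▸ k)
  by_cases t' : T.Tight (fun _ _ _ => False) (T.p e) w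
  · refine (h.entry_key2 hu hw n pe (.inl ⟨pe.mem.1, fun z => q (z.trans pe), t', fun z =>
      ne_empty_of_mem (T.mem_ch.2 ⟨he, hr, rfl⟩) z.1⟩) fun k => s fun m m1 m2 m3 => ?_).imp_right .inl
    have up : u ≠ T.p e := fun z => n (z ▸ pe)
    refine k m m1 m2 ?_
    rw [← col_step he hr a.ne up, ← m3, col_step he hr (ne m m1) fun z => ce ?_]
    rw [← col_base he n, ← m3, z, col_par he hr]
  refine .inr (.inr ⟨l.1, hr, l.2.2, l.2.1, t', fun m k z => t' fun κ x y => .inl ?_⟩)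
  obtain ⟨m', m1, m2⟩ := (t κ x (by
    rwa [col_step he hr (fun z => q (by rw [z]; exact .refl _ he)) (T.mem_H.1 l.2.2).1.ne.symm])).resolve_right id
  by_cases p : m' = T.p e
  · exact ⟨m, k, by rw [z, ← m2, p, col_par he hr]⟩
  · exact ⟨m', m1, by rw [← col_step he hr (ne m' m1) p, m2]⟩

/-- A tail off a prober of the head is tight there or doubled at the head. -/
theorem probe_tail (h : IsA T) (he : e ∈ T.R) (hp : u ∈ T.O e) (a : G.Adj u w) (n : ¬ G.Adj e w)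
    (ne : w ≠ e) (k : Uq G (T.col e) u w) : T.Tight (fun _ _ _ => False) e w := fun κ x y => by
  by_contra z
  have s := (h.hc he).recol ne x fun m p q => z (.inl ⟨m, p, q⟩)
  obtain ⟨m, m1, m2⟩ := s.uq_sees h.ncol (T.O_adj e he u hp).ne.symm (fun m p q => by
    rw [Function.update_of_ne a.ne, Function.update_of_ne fun r : m = w => n (r ▸ p)]
    exact h.uq_O he hp m p q) ((h.hc he).lt w ne)
    (by rw [Function.update_of_ne a.ne]; exact ((h.hc he).ne a).symm)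
  by_cases r : m = w
  · rw [r, Function.update_self] at m2
    exact y m2
  · rw [Function.update_of_ne r] at m2
    exact k m m1 r m2

/-- The tails off a prober of the head are exceptions. -/
theorem probe_key (h : IsA T) (hu : u ∈ T.R) (hw : w ∈ T.WQ (Adm T) u) (he : e ∈ T.R)
    (n : ¬ T.Anc u e) (hp : u ∈ T.O e) (k : ¬ G.Adj e w) (ne : w ≠ e) :
    ¬ Uq G (T.col e) u w ∨ Ex2 T u e w ∨ Ex3 T e w := by
  have a := (mem_W.1 (WQ_spec hw).1).1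
  by_cases z : Uq G (T.col e) u w
  · exact h.entry_tight hu hw he n (T.O_adj e he u hp).symm (.inl (h.probe_tail he hp a k ne z))
      fun y => k (h.probe_adj he hp a ne y z)
  · exact .inl z

/-- If `t(u)` probes `u` then `τ(u) ≤ 2`. -/
theorem t_probe2 (h : IsA T) (hu : u ∈ T.R) (ho : e ∈ T.NT u) (ht : T.PayT u e) (hp : u ∈ T.O e) :
    (T.WQ (Adm T) u).card ≤ 2 := by
  obtain ⟨o1, o2⟩ := T.mem_NT.1 ho
  obtain ⟨he, de⟩ := O_mem hu o1
  have n := nanc_of_O hu o1 o2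
  have hq := T.p_mem u hu ht.1
  have dq := T.d_p u hu ht.1
  refine h.t_probe' hu ho ht hp _ fun w hw => ⟨(WQ_spec hw).1, (WQ_spec hw).2, fun k s => ?_⟩
  refine (h.probe_key hu hw he n hp k fun z => s (by rw [z]; exact h.uq_O he hp)).imp_right
    fun z => z.resolve_right fun ⟨_, x2, x3, _, _, x6⟩ => ?_
  have wo := (mem_W.1 (WQ_spec hw).1).2.2.1
  have aw := T.O_adj _ hq w wo
  have pe := anc_p he x2
  have du := (O_mem he hp).2
  have dp := T.d_p e he x2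
  have ce : T.c e = T.c (T.p u) := by
    rw [← ht.2, col_base hu fun z => O_ne_p hu (.inl o1)
      (T.mem_ch.1 (z.ch_of_d (T.O_adj u hu e o1).ne.symm du)).2.2.symm]
  by_cases g : T.Anc (T.p u) (T.p e)
  swap
  · exact x6 _ aw.symm (by rw [col_base pe.mem.1 g, ce])
  have gc := g.ch_of_d (fun z => (T.mem_H.1 x3).2.2.1 (z ▸ wo)) (by omega)
  obtain ⟨p1, p2, p3⟩ := T.mem_ch.1 gc
  have gr : T.p u ≠ T.r := fun z => by
    have := c_lt he x2
    rw [ce, z, T.c_r] at this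
    omega
  obtain ⟨m, m1, m2⟩ := (h.probe_tight hq wo _ (c_lt hq gr)
    (by rw [← col_par hq gr]; exact (T.ne_p _ hq w (.inl wo)).symm)).resolve_right id
  refine x6 m m1 ?_
  rw [col_step p1 p2 (fun z => c_ch_ne gc gr (by rw [← m2, z, ← p3, col_p_self p1 p2])) fun z => ?_,
    p3, m2, ce]
  have := c_lt hq gr
  rw [← m2, z, p3, col_self hq] at this
  omega

end IsA

end Pool.Agent.Lib.MP_12eaff_co.Acc
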