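import Pool.Agent.Lib.MP_12eaff_co.Acc.Sup

set_option autoImplicit false
set_option linter.unusedSectionVars false

namespace Pool.Agent.Lib.MP_12eaff_co.Acc

open Finset Pool.Agent.Lib.MP_12eaff_co.BK
open scoped Classical

variable {V : Type} [Fintype V] {G : SimpleGraph V} {D : ℕ}

namespace Tr

variable (T : Tr G D) (S Rq : V → V → Prop)

/-- Charged `t`. -/
noncomputable def tL (v : V) : Finset V := (T.XA S Rq v).filter (T.PayT v)

/-- Tails left to `τ`. -/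
noncomputable def WL (u : V) : Finset V :=
  T.R.filter fun v => u ∈ T.XA S Rq v ∧ ¬ T.PayT v u ∧ T.PayZ v u

/-- Pairs that are charged to their head (leaf heads, columns of dropped arcs). -/
noncomputable def pL (x : V) : Finset V :=
  T.R.filter fun v => ∃ u ∈ T.XA S Rq v, ¬ T.PayT v u ∧ ¬ T.PayZ v u ∧ T.PayP (S v) x v u

/-- Inactive arcs into `u` without a free internal child. -/
noncomputable def nL (u : V) : Finset V := T.R.filter fun v => u ∈ T.XN S Rq v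

/-- Load of a vertex. -/
noncomputable def load (y : V) : ℕ :=
  (T.tL S Rq y).card + (T.WL S Rq y).card + (T.pL S Rq y).card + (T.nL S Rq y).card

variable {T S Rq} {u v x : V}

theorem mem_tL : u ∈ T.tL S Rq v ↔ u ∈ T.XA S Rq v ∧ T.PayT v u := mem_filter

theorem mem_WL : v ∈ T.WL S Rq u ↔ v ∈ T.R ∧ u ∈ T.XA S Rq v ∧ ¬ T.PayT v u ∧ T.PayZ v u :=
  mem_filter

theorem mem_pL : v ∈ T.pL S Rq x ↔ v ∈ T.R ∧
    ∃ u ∈ T.XA S Rq v, ¬ T.PayT v u ∧ ¬ T.PayZ v u ∧ T.PayP (S v) x v u := mem_filter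

theorem mem_nL : v ∈ T.nL S Rq u ↔ v ∈ T.R ∧ u ∈ T.XN S Rq v := mem_filter

theorem XA_O (h : u ∈ T.XA S Rq v) : u ∈ T.O v := (T.mem_NT.1 (mem_XA.1 h).1).1

theorem card_tL (hv : v ∈ T.R) : (T.tL S Rq v).card ≤ 1 := card_le_one.2 fun _ ha _ hb =>
  O_inj hv (XA_O (mem_tL.1 ha).1) (XA_O (mem_tL.1 hb).1)
    ((mem_tL.1 ha).2.2.trans (mem_tL.1 hb).2.2.symm)

theorem WL_W (h : v ∈ T.WL S Rq u) : v ∈ IsA.W T u ∧ u ∈ T.O v :=
  ⟨IsA.mem_W.2 ⟨(T.O_adj v (mem_WL.1 h).1 u (XA_O (mem_WL.1 h).2.1)).symm, (mem_WL.1 h).2.2.2⟩,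
    XA_O (mem_WL.1 h).2.1⟩

theorem pL_H (h : v ∈ T.pL S Rq x) : v ∈ T.H (T.p x) ∧ x ∉ T.Int v := by
  obtain ⟨_, u, h1, _, _, h2⟩ := mem_pL.1 h
  exact ⟨h2.2.2.1, fun k => (mem_XA.1 h1).2.2 ⟨x, h2, k⟩⟩

theorem nL_H (h : v ∈ T.nL S Rq u) : v ∈ T.H u :=
  inact_H (mem_nL.1 h).1 (mem_XN.1 (mem_nL.1 h).2).1 (mem_XN.1 (mem_nL.1 h).2).2.1

/-- Counting a family of non-tree arcs at the heads. -/
theorem sum_sub (F : V → Finset V) (hF : ∀ v, F v ⊆ T.NT v) (P : V → V → Prop) :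
    ∑ v ∈ T.R, ((F v).filter (P v)).card =
      ∑ u ∈ T.R, (T.R.filter fun v => u ∈ F v ∧ P v u).card := by
  have h : ∀ v ∈ T.R, (F v).filter (P v) = T.R.filter (fun u => u ∈ F v ∧ P v u) := by
    intro v hv; ext u
    simp only [mem_filter]
    exact ⟨fun h => ⟨(T.clo v hv u (Or.inl (T.mem_NT.1 (hF v h.1)).1)).1, h⟩, fun h => h.2⟩
  rw [sum_congr rfl (fun v hv => by rw [h v hv])]
  simp only [card_filter]
  exact sum_comm

theorem sum_pL : ∑ v ∈ T.R, ((T.XA S Rq v).filter fun u => ¬ T.PayT v u ∧ ¬ T.PayZ v u ∧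
    ∃ x, T.PayP (S v) x v u).card ≤ ∑ x ∈ T.R, (T.pL S Rq x).card := by
  have : ∑ x ∈ T.R, (T.pL S Rq x).card = ∑ v ∈ T.R, (T.R.filter fun x =>
      ∃ u ∈ T.XA S Rq v, ¬ T.PayT v u ∧ ¬ T.PayZ v u ∧ T.PayP (S v) x v u).card := by
    simp only [pL, card_filter]
    exact sum_comm
  rw [this]
  refine sum_le_sum fun v hv => ?_
  have hx : ∀ u, ∃ x, (∃ x, T.PayP (S v) x v u) → T.PayP (S v) x v u := fun u => by
    by_cases k : ∃ x, T.PayP (S v) x v u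
    · exact ⟨k.choose, fun _ => k.choose_spec⟩
    · exact ⟨u, fun e => absurd e k⟩
  choose f hf using hx
  refine card_le_card_of_injOn f (fun u hu => ?_) fun a ha b hb e => ?_
  · obtain ⟨h1, h2, h3, h4⟩ := mem_filter.1 (mem_coe.1 hu)
    exact mem_coe.2 (mem_filter.2 ⟨(hf u h4).1, u, h1, h2, h3, hf u h4⟩)
  · obtain ⟨a1, _, _, a4⟩ := mem_filter.1 (mem_coe.1 ha)
    obtain ⟨b1, _, _, b4⟩ := mem_filter.1 (mem_coe.1 hb)
    exact O_inj hv (XA_O a1) (XA_O b1) (by rw [← (hf a a4).2.2.2.1, e, (hf b b4).2.2.2.1])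

end Tr

namespace IsB

variable {T : Tr G D} {S Rq : V → V → Prop}

open Tr

/-- Every arc of `XA` has a payer if requests on non-tree arcs are made on `T0` arcs only. -/
theorem XA_pay (hS : ∀ v ∈ T.R, T.IsSig (fun _ _ _ => False) v (S v))
    (hR : ∀ v ∈ T.R, ∀ u ∈ T.NT v, Rq v u → T.PayZ v u ∨ T.Expl (S v) v u) {v u : V}
    (hv : v ∈ T.R) (hu : u ∈ T.XA S Rq v) :
    T.PayT v u ∨ T.PayZ v u ∨ ∃ x, T.PayP (S v) x v u := by
  obtain ⟨h1, h2, _⟩ := mem_XA.1 hu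
  have e := act_expl hv h1 (fun z k => (hS v hv).probe z k.1 k.2.1 k.2.2) h2
  rcases e.elim (hR v hv u h1) .inr with k | k
  · exact .inr (.inl k)
  · rcases lemE (hS v hv) hv (XA_O hu) k with k | k | k | ⟨_, _, k⟩
    exacts [.inl k, .inr (.inl k), .inr (.inr k), k.elim]

/-- The account with loads. -/
theorem final_load (h : IsB T) (hD : 5 ≤ D) (hS : ∀ v ∈ T.R, T.IsSig (fun _ _ _ => False) v (S v))
    (hR : ∀ v ∈ T.R, ∀ u ∈ T.NT v, Rq v u → T.PayZ v u ∨ T.Expl (S v) v u) :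
    ∑ v ∈ T.R, (D - 5 + (if v ≠ T.r ∧ T.ch v = ∅ then 2 else 0) + (if T.Bd v = ∅ then 1 else 0) +
      (T.TK S Rq v).card) + 4 ≤ ∑ v ∈ T.R, (T.load S Rq v + (T.Dr v).card) := by
  have h1 := h.final_chain hD S Rq
  have h2 := sum_pL (T := T) (S := S) (Rq := Rq)
  have h3 : ∑ v ∈ T.R, ((T.XA S Rq v).filter fun u => ¬ T.PayT v u ∧ T.PayZ v u).card =
      ∑ v ∈ T.R, (T.WL S Rq v).card := by
    unfold WL
    convert sum_sub (T.XA S Rq) (fun v => filter_subset _ _) fun v u => ¬ T.PayT v u ∧ T.PayZ v u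
  have h4 : ∑ v ∈ T.R, (T.XN S Rq v).card = ∑ v ∈ T.R, (T.nL S Rq v).card := by
    have := sum_sub (T := T) (T.XN S Rq) (fun v => filter_subset _ _) fun _ _ => True
    simpa [nL] using this
  have h5 : ∀ v ∈ T.R, (T.XA S Rq v).card ≤ (T.tL S Rq v).card +
      ((T.XA S Rq v).filter fun u => ¬ T.PayT v u ∧ T.PayZ v u).card +
      ((T.XA S Rq v).filter fun u => ¬ T.PayT v u ∧ ¬ T.PayZ v u ∧
        ∃ x, T.PayP (S v) x v u).card := fun v hv => by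
    simp only [tL, card_filter, ← sum_add_distrib]
    rw [card_eq_sum_ones]
    refine sum_le_sum fun u hu => ?_
    have := XA_pay hS hR hv hu
    by_cases a : T.PayT v u <;> by_cases b : T.PayZ v u <;>
      by_cases c : ∃ x, T.PayP (S v) x v u <;> simp only [a, b, c] at this ⊢ <;> simp at this ⊢
  have h6 := sum_le_sum h5
  simp only [load, sum_add_distrib] at h1 h6 ⊢
  omega

/-- A charged pair has a leaf head or lies in the column of a dropped arc. -/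
theorem pL_leaf (h : IsB T) {x v : V} (k : v ∈ T.pL S Rq x) : T.ch x = ∅ ∨ v ∈ T.Dr (T.p x) := by
  obtain ⟨_, u, h1, _, _, h2⟩ := mem_pL.1 k
  by_contra! e
  exact (pL_H k).2 (mem_Int.2 ⟨h2.1, h2.2.1, e.1.ne_empty,
    ((h.mem_H2 (T.p_mem x h2.1 h2.2.1)).1 h2.2.2.1).resolve_right e.2⟩)

/-- An `n` is charged only at vertices without internal children, or for dropped arcs. -/
theorem nL_bot (h : IsB T) {u v x : V} (hu : u ∈ T.R) (k : v ∈ T.nL S Rq u) (hx : x ∈ T.ch u) :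
    T.ch x = ∅ ∨ v ∈ T.Dr u := by
  obtain ⟨p1, p2, p3⟩ := T.mem_ch.1 hx
  by_contra! e
  exact (mem_XN.1 (mem_nL.1 k).2).2.2 ⟨x, mem_Int.2 ⟨p1, p2, e.1.ne_empty,
    p3 ▸ ((h.mem_H2 hu).1 (nL_H k)).resolve_right e.2⟩, p3⟩

end IsB

end Pool.Agent.Lib.MP_12eaff_co.Acc
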