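import Pool.Agent.Lib.MP_12eaff_co.Acc.A
import Pool.Agent.Lib.MP_12eaff_co.Blk

set_option autoImplicit false
set_option linter.unusedSectionVars false

namespace Pool.Agent.Lib.MP_12eaff_co.Acc

open Finset Pool.Agent.Lib.MP_12eaff_co.BK
open scoped Classical

variable {V : Type} [Fintype V] {G : SimpleGraph V} {D : ℕ}

/-- A neighbour of the hole that sees all other colours has at most one repeated colour. -/
theorem HC.dbl_nb (deg : ∀ v, (nb G v).card ≤ D + 1) {e u : V} {f : V → ℕ} (h : HC G D e f)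
    (a : G.Adj u e) (t : ∀ κ < D, κ ≠ f u → ∃ m, G.Adj u m ∧ f m = κ) {x x' y y' : V}
    (hx : G.Adj u x) (hx' : G.Adj u x') (hy : G.Adj u y) (hy' : G.Adj u y') (e1 : x ≠ x')
    (e2 : y ≠ y') (c1 : f x = f x') (c2 : f y = f y') : y = x ∨ y = x' := by
  have ne : ∀ {x x'}, x ≠ x' → f x = f x' → x ≠ e := fun {x x'} k q z => by
    have := h.lt x' fun p => k (z.trans p.symm)
    rw [← q, z, h.hole] at this
    omega
  have m : ∀ {x x'}, G.Adj u x → x ≠ x' → f x = f x' → x ∈ (nb G u).erase e :=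
    fun p k q => mem_erase.2 ⟨ne k q, mem_nb.2 p⟩
  refine one_double ?_ (m hx e1 c1) (m hx' e1.symm c1.symm) e1 c1 (m hy e2 c2)
    (m hy' e2.symm c2.symm) e2 c2
  have := card_le_card (s := (range D).erase (f u)) (t := ((nb G u).erase e).image f) fun κ k => by
    obtain ⟨k1, k2⟩ := mem_erase.1 k
    obtain ⟨m, m1, rfl⟩ := t κ (mem_range.1 k2) k1
    exact mem_image_of_mem f (mem_erase.2 ⟨h.ne_hole (mem_range.1 k2), mem_nb.2 m1⟩)
  have := pred_card_le_card_erase (s := range D) (a := f u)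
  have := card_erase_add_one (mem_nb.2 a)
  have := deg u
  have := h.lt u a.ne
  rw [card_range] at *
  omega

/-- A vertex that can be swapped with a non-neighbour `q` of the hole is not unique there. -/
theorem HC.swap_dbl (nc : ¬ Colr G D) {e q w : V} {f : V → ℕ} (h : HC G D e f) (hq : q ≠ e)
    (hw : w ≠ e) (n : ¬ G.Adj e q) (h1 : Uq G f q w) (h2 : Uq G f w q) (a : G.Adj q w) :
    ¬ Uq G f e w := fun k => by
  obtain ⟨m, m1, m2⟩ := (h.swap' hq hw h1 h2).sees nc (h.lt w hw)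
  by_cases x : m = w
  · rw [x, Function.comp, Equiv.swap_apply_right] at m2
    exact h.ne a m2
  · rw [Function.comp, Equiv.swap_apply_of_ne_of_ne (fun z : m = q => n (z ▸ m1)) x] at m2
    exact k m m1 x m2

/-- The arc `w → u` is the target of no `t` and of no pair. -/
def NoT (T : Tr G D) (w u : V) : Prop :=
  ¬ T.PayT w u ∧ ∀ x ∈ T.R, x ≠ T.r → w ∈ T.H (T.p x) → T.tc x w ≠ T.col w u

/-- `T0` tails of `u` without a ticket. -/
noncomputable def W1 (T : Tr G D) (u : V) : Finset V :=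
  (IsA.W T u).filter fun w => u ∈ T.O w ∧ NoT T w u

/-- Second kind of exception: a vertex hidden by `u` on the path of `e` had the colour of `w`. -/
def Ex2 (T : Tr G D) (u e w : V) : Prop := ∃ m ∈ T.H u, m ≠ w ∧ T.Anc m e ∧ T.d u ≤ T.d m ∧
  T.c m = T.col e w ∧ (¬ T.Anc w e ∨ T.d w + 3 ≤ T.d m)

namespace IsA

variable {T : Tr G D} {u w e : V}

open Tr

theorem mem_W1 : w ∈ W1 T u ↔ w ∈ W T u ∧ u ∈ T.O w ∧ NoT T w u := mem_filter

theorem O_mem {v : V} (hv : v ∈ T.R) (hu : u ∈ T.O v) : u ∈ T.R ∧ T.d u ≤ T.d v + 1 :=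
  T.clo v hv u (.inl hu)

/-- COVER. -/
theorem cover (h : IsA T) (hw : w ∈ T.R) (hu : u ∈ T.O w) (nt : NoT T w u) {y m : V}
    (hy : y ∈ T.R) (a : G.Adj w m) (ne : m ≠ u) (hc : T.col y m = T.col w u) :
    ∃ x ∈ T.ch m, T.Anc x y ∧ T.c x = T.col w u ∧ ¬ T.Anc x w ∧ (w ∈ T.O m ∨ m ∈ T.ch w) := by
  have uq := h.uq_O hw hu m a ne
  by_cases k : T.Anc m y
  · obtain ⟨x, x1, x2⟩ := k.child fun z => by
      have := T.lt w hw u (.inl hu)
      rw [← hc, z, col_self hy] at this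
      omega
    obtain ⟨p1, p2, p3⟩ := T.mem_ch.1 x1
    rw [col_anc x1 x2] at hc
    have n : ¬ T.Anc x w := fun z => uq (by rw [col_anc x1 z, hc])
    refine ⟨x, x1, x2, hc, n, (adj_cases k.mem.1 hw a.symm).imp_right fun z =>
      z.resolve_left fun z => nt.2 x p1 p2 (p3 ▸ z) (by rw [tc, if_neg n, hc])⟩
  · rw [col_base hy k] at hc
    have k' : T.Anc m w := by
      by_contra z
      exact uq (by rw [col_base hw z, hc])
    obtain ⟨x, x1, x2⟩ := k'.child a.ne.symm
    obtain ⟨p1, p2, p3⟩ := T.mem_ch.1 x1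
    by_cases z : x = w
    · exact absurd ⟨z ▸ p2, by rw [← hc, ← p3, z]⟩ nt.1
    · have := x2.lt z
      have := d_ch x1
      exact absurd (by rw [tc, if_pos x2, p3, hc])
        (nt.2 x p1 p2 (p3 ▸ F2 k'.mem.1 hw a.symm (by omega)))

theorem W_d (hu : u ∈ T.R) (hw : w ∈ W T u) : w ∈ T.R ∧ T.d w ≤ T.d u := by
  obtain ⟨-, a1, a2, -⟩ := mem_W.1 hw
  have := O_mem (T.p_mem u hu a1) a2
  have := T.d_p u hu a1
  exact ⟨by tauto, by omega⟩

theorem W_base (hu : u ∈ T.R) (hw : w ∈ W T u) (ho : u ∈ T.O w) : ¬ T.Anc w u := fun k => by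
  obtain ⟨a0, a1, a2, -⟩ := mem_W.1 hw
  have hq := T.p_mem u hu a1
  have := T.mem_ch.1 (k.ch_of_d a0.ne.symm (O_mem k.mem.1 ho).2)
  exact (T.O_adj _ hq w a2).ne this.2.2

/-- ENTRY, key step, over a set `P` of states in which no ticket can appear. -/
theorem entry_gen (h : IsA T) (hu : u ∈ T.R) (w1 : w ∈ W T u) (w2 : u ∈ T.O w)
    (n : ¬ T.Anc u e) (P : V → Prop) (cov : ∀ y m, P y → y ∈ T.R → G.Adj w m → m ≠ u →
      T.col y m = T.col w u → ∃ x ∈ T.ch m, T.Anc x y ∧ T.c x = T.col w u ∧ ¬ T.Anc x w ∧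
        (w ∈ T.O m ∨ m ∈ T.ch w))
    (hP : ∀ a x, x ∈ T.ch a → w ∈ T.O a ∨ a ∈ T.ch w → P a) {y : V} (ye : T.Anc y e) (py : P y)
    (s : ¬ Uq G (T.col y) w u) : ¬ Uq G (T.col e) u w ∨ Ex2 T u e w := by
  obtain ⟨a0, a1, a2, a3, -⟩ := mem_W.1 w1
  obtain ⟨wR, wd⟩ := W_d hu w1
  have ud := (O_mem wR w2).2
  have key : ∀ k y, T.d y ≤ k → T.Anc y e → P y → ¬ Uq G (T.col y) w u →
      ¬ Uq G (T.col e) u w ∨ Ex2 T u e w := by
    intro k
    induction k using Nat.strong_induction_on with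
    | _ k ih =>
    intro y yk ye py s
    have base : ∀ {y}, T.Anc y e → T.col y u = T.c u := fun k =>
      col_base k.mem.1 fun z => n (z.trans k)
    simp only [Uq, not_forall, not_not] at s
    obtain ⟨a, s1, s2, s3⟩ := s
    obtain ⟨x, x1, x2, x3, x4, x5⟩ := cov y a py ye.mem.1 s1 s2 (by rw [s3, base ye, a3])
    have xe := x2.trans ye
    have ae := (anc_ch x1).trans xe
    have aR := ae.mem.1
    have xd := d_ch x1
    have xy := x2.le
    have xc : T.col a x = T.c x := col_base aR fun z => by have := z.le; omega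
    have na : ¬ G.Adj u a := fun z => h.uq_O aR (h.ch_O x1) u z.symm (fun q => n (q ▸ xe))
      (by rw [base ae, xc, x3, a3])
    have dw : T.d w ≤ T.d a + 1 := x5.elim (fun z => (O_mem aR z).2) fun z => by
      have := d_ch z; omega
    have uq : Uq G (T.col a) a w := x5.elim (h.uq_O aR) fun z => by
      obtain ⟨p1, p2, p3⟩ := T.mem_ch.1 z
      exact p3 ▸ h.uq_par p1 p2
    have nw : ¬ (T.Anc a w ∧ T.Anc w e) := fun z => by
      have := z.1.lt s1.ne.symm
      exact x4 (xe.comp z.2 (by omega))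
    have cw : T.col e w = T.col a w := col_diff ae nw
    by_cases q : Uq G (T.col a) w u
    swap
    · exact ih (T.d a) (by omega) a le_rfl ae (hP a x x1 x5) q
    have cl : IsClq G {w, u} := fun p hp r hr z => by
      simp only [mem_insert, mem_singleton] at hp hr
      rcases hp with rfl | rfl <;> rcases hr with rfl | rfl
      exacts [absurd rfl z, a0.symm, a0, absurd rfl z]
    have : Sees G {w, u} (T.col a) u (T.col a w) := by
      rcases (h.hc aR).entry h.deg h.ncol cl (by simp [s1.ne.symm, s2]) (mem_insert_self _ _) uq with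
        p | ⟨z, z1, z2, p⟩
      · exact (p u (by simp)).1.resolve_left na
      · obtain rfl : z = u := by simpa [z2] using z1
        obtain ⟨m, m1, m2, m3⟩ := (p w (by simp) z2.symm).1
        exact absurd m3 (q m m1 fun r => m2 (by simp [r]))
    obtain ⟨m, m1, m2, m3⟩ := this
    simp only [mem_insert, mem_singleton, not_or] at m2
    by_cases z : T.Anc a m ∧ T.Anc m e
    swap
    · exact .inl fun r => r m m1 m2.1 (by rw [col_diff ae z, m3, cw])
    have am := z.1.lt fun r => na (r ▸ m1)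
    have cm : T.col a m = T.c m := col_base aR fun r => by have := r.le; omega
    have xm := (xe.comp z.2 (by omega)).lt fun r =>
      (h.hc aR).ne a0 (by rw [← m3, ← r, base ae, xc, x3, a3])
    by_cases r : T.Anc w a
    · have := r.lt s1.ne
      exact .inr ⟨m, F2 hu z.2.mem.1 m1 (by omega), m2.1, z.2, by omega, by rw [cw, ← m3, cm],
        .inr (by omega)⟩
    · refine .inr ⟨m, (h.mem_H' hu).2 ⟨m1, fun t => t w a0 (Ne.symm m2.1) ?_⟩, m2.1, z.2, by omega,
        by rw [cw, ← m3, cm], .inl fun t => (le_total (T.d w) (T.d a)).elim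
          (fun d => r (t.comp ae d)) fun d => nw ⟨ae.comp t d, t⟩⟩
      rw [col_base hu (W_base hu w1 w2), col_base hu fun t => m2.2 (t.eq_of_d (by omega)), ← cm, m3,
        col_base aR r]
  exact key _ y le_rfl ye py s

/-- ENTRY, key step: a tail without ticket that sees the colour of its head elsewhere. -/
theorem entry_key (h : IsA T) (hu : u ∈ T.R) (hw : w ∈ W1 T u) (he : e ∈ T.R) (n : ¬ T.Anc u e)
    (s : ¬ Uq G (T.col e) w u) : ¬ Uq G (T.col e) u w ∨ Ex2 T u e w := by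
  obtain ⟨w1, w2, w3⟩ := mem_W1.1 hw
  exact h.entry_gen hu w1 w2 n (fun _ => True)
    (fun _ _ _ a b c d => h.cover (W_d hu w1).1 w2 w3 a b c d) (fun _ _ _ _ => trivial)
    (.refl e he) trivial s

theorem W_ne (h : IsA T) (hu : u ∈ T.R) {w' : V} (hw : w ∈ W T u) (hw' : w' ∈ W T u)
    (he : e ∈ T.R) (hc : T.col e w = T.col e w') : w = w' := by
  by_contra k
  exact (h.hc he).ne (h.W_adj hu hw hw' k) hc

/-- At most one tail is doubled at a tight head. -/
theorem W_dbl (h : IsA T) (hu : u ∈ T.R) {w' : V} (hw : w ∈ W T u) (hw' : w' ∈ W T u)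
    (he : e ∈ T.R) (a : G.Adj u e) (t : T.Tight (fun _ _ _ => False) e u)
    (s : ¬ Uq G (T.col e) u w) (s' : ¬ Uq G (T.col e) u w') : w = w' := by
  simp only [Uq, not_forall, not_not] at s s'
  obtain ⟨m, m1, m2, m3⟩ := s
  obtain ⟨m', n1, n2, n3⟩ := s'
  rcases (h.hc he).dbl_nb h.deg a (fun κ x y => (t κ x y).resolve_right id) (mem_W.1 hw).1 m1
    (mem_W.1 hw').1 n1 (Ne.symm m2) (Ne.symm n2) m3.symm n3.symm with z | z
  exacts [z.symm, h.W_ne hu hw hw' he (by rw [z, m3])]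

/-- At most one tail has the hidden colour of the head. -/
theorem W_hid (h : IsA T) (hu : u ∈ T.R) {w' m m' : V} (hw : w ∈ W T u) (hw' : w' ∈ W T u)
    (he : e ∈ T.R) (hm : m ∈ T.H u) (hm' : m' ∈ T.H u) (d : T.d u ≤ T.d m) (d' : T.d u ≤ T.d m')
    (c : T.c m = T.col e w) (c' : T.c m' = T.col e w') : w = w' := by
  have b : ∀ m ∈ T.H u, T.d u ≤ T.d m → T.col u m = T.c m := fun m k d =>
    col_base hu fun z => (T.mem_H.1 k).1.ne (z.eq_of_d d).symm
  exact h.W_ne hu hw hw' he (by rw [← c, ← c', ← b m hm d, ← b m' hm' d', h.H_col hu hm hm'])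

theorem entry' (h : IsA T) (hu : u ∈ T.R) (he : e ∈ T.R) (a : G.Adj u e)
    (t : T.Tight (fun _ _ _ => False) e u) (Z : Finset V) (hZ : ∀ w ∈ Z, w ∈ W T u ∧
      (¬ Uq G (T.col e) w u → ¬ Uq G (T.col e) u w ∨ Ex2 T u e w)) :
    (Z.filter fun w => ¬ (Uq G (T.col e) w u ∧ Uq G (T.col e) u w)).card ≤
      1 + if ∃ m ∈ T.H u, T.Anc m e ∧ T.d u ≤ T.d m then 1 else 0 := by
  have h1 : ((W T u).filter fun w => ¬ Uq G (T.col e) u w).card ≤ 1 := card_le_one.2
    fun x hx y hy => h.W_dbl hu (mem_filter.1 hx).1 (mem_filter.1 hy).1 he a t (mem_filter.1 hx).2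
      (mem_filter.1 hy).2
  have h2 : ((W T u).filter (Ex2 T u e)).card ≤
      if ∃ m ∈ T.H u, T.Anc m e ∧ T.d u ≤ T.d m then 1 else 0 := by
    split_ifs with k
    · refine card_le_one.2 fun x hx y hy => ?_
      obtain ⟨x1, m, m1, -, -, m2, m3, -⟩ := mem_filter.1 hx
      obtain ⟨y1, m', n1, -, -, n2, n3, -⟩ := mem_filter.1 hy
      exact h.W_hid hu x1 y1 he m1 n1 m2 n2 m3 n3
    · rw [Nat.le_zero, card_eq_zero, filter_eq_empty_iff]
      exact fun x _ ⟨m, m1, _, m2, m3, _⟩ => k ⟨m, m1, m2, m3⟩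
  refine le_trans (card_le_card fun w hw => ?_) ((card_union_le _ _).trans (add_le_add h1 h2))
  obtain ⟨w1, w2⟩ := mem_filter.1 hw
  have := hZ w w1
  simp only [mem_union, mem_filter]
  tauto

/-- ENTRY: all tails without ticket but two can be swapped with the head; all but one if no
vertex hidden by the head lies on the path at the level of the head or below. -/
theorem entry (h : IsA T) (hu : u ∈ T.R) (he : e ∈ T.R) (n : ¬ T.Anc u e) (a : G.Adj u e)
    (t : T.Tight (fun _ _ _ => False) e u) :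
    ((W1 T u).filter fun w => ¬ (Uq G (T.col e) w u ∧ Uq G (T.col e) u w)).card ≤
      1 + if ∃ m ∈ T.H u, T.Anc m e ∧ T.d u ≤ T.d m then 1 else 0 :=
  h.entry' hu he a t _ fun _ k => ⟨(mem_W1.1 k).1, h.entry_key hu k he n⟩

/-- A prober of the head is adjacent to every tail that can be swapped with the head. -/
theorem probe_adj (h : IsA T) (he : e ∈ T.R) (ho : u ∈ T.O e) (a : G.Adj u w) (ne : w ≠ e)
    (h1 : Uq G (T.col e) w u) (h2 : Uq G (T.col e) u w) : G.Adj e w := by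
  by_contra k
  exact (h.hc he).swap_dbl h.ncol ne (T.O_adj e he u ho).ne.symm k h1 h2 a.symm (h.uq_O he ho)

/-- EXIT: a tail adjacent to an exit off the parent is doubled there. -/
theorem exit_dbl (h : IsA T) (hu : u ∈ T.R) (ho : e ∈ T.O u) (n : ¬ G.Adj (T.p u) e)
    (hw : w ∈ W T u) : ¬ Uq G (shift D (T.col u) u e) e w := by
  obtain ⟨a0, a1, a2, -⟩ := mem_W.1 hw
  have hq := T.p_mem u hu a1
  have a := T.O_adj u hu e ho
  have b := T.O_adj _ hq w a2
  have c := h.adj_par hu a1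
  have uq := h.uq_O hu ho
  have we : w ≠ e := fun z => n (z ▸ b)
  have qe : T.p u ≠ e := (O_ne_p hu (.inl ho)).symm
  have s := (h.hc hu).shift a.ne.symm uq
  have sv : ∀ v, v ≠ e → v ≠ u → shift D (T.col u) u e v = T.col u v := fun v x y => by
    simp [shift, Function.update_of_ne x, Function.update_of_ne y]
  have su : shift D (T.col u) u e u = T.col u e := by simp [shift, Function.update_of_ne a.ne]
  refine s.swap_dbl h.ncol qe we (fun z => n z.symm) (fun m x y => ?_) (fun m x y => ?_) b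
  · rw [sv w we a0.ne.symm]
    by_cases z : m = u
    · rw [z, su]
      exact (uq w a0 we).symm
    · rw [sv m (fun z => n (z ▸ x)) z, col_step hu a1 z x.ne.symm, col_step hu a1 a0.ne.symm b.ne.symm]
      exact h.uq_O hq a2 m x y
  · by_cases z : m = u
    · exact z ▸ s.ne c.symm
    by_cases z' : m = e
    · rw [z', s.hole]
      exact (s.lt _ qe).ne'
    · rw [sv m z' z, sv _ qe c.ne, col_step hu a1 z y, col_par hu a1, ← col_p_self hu a1]
      exact W_uq hu hw m x z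

/-- EXIT bound: an exit off the parent has at most one neighbour among the tails. -/
theorem exit_one (h : IsA T) (hu : u ∈ T.R) (ho : e ∈ T.O u) (n : ¬ G.Adj (T.p u) e) {w' : V}
    (hw : w ∈ W T u) (hw' : w' ∈ W T u) (a : G.Adj e w) (a' : G.Adj e w') : w = w' := by
  have s := (h.hc hu).shift (T.O_adj u hu e ho).ne.symm (h.uq_O hu ho)
  have s1 := h.exit_dbl hu ho n hw
  have s2 := h.exit_dbl hu ho n hw'
  simp only [Uq, not_forall, not_not] at s1 s2
  obtain ⟨m, m1, m2, m3⟩ := s1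
  obtain ⟨m', n1, n2, n3⟩ := s2
  by_contra k
  rcases s.dbl2 h.deg h.ncol a m1 a' n1 (Ne.symm m2) (Ne.symm n2) m3.symm n3.symm with z | z
  exacts [k z.symm, s.ne (h.W_adj hu hw hw' k) (by rw [z, m3])]

/-- The vertex `t(u)` is the grandparent or is not adjacent to the parent. -/
theorem t_nadj (h : IsA T) (hu : u ∈ T.R) (ho : e ∈ T.O u) (ht : T.PayT u e)
    (n : e ≠ T.p (T.p u)) : ¬ G.Adj (T.p u) e := fun a => by
  have hq := T.p_mem u hu ht.1
  have hr : T.p u ≠ T.r := fun z => by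
    have := T.lt u hu e (.inl ho)
    rw [ht.2, z, T.c_r] at this
    omega
  refine h.uq_par hq hr e a n ?_
  rw [col_par hq hr, ← ht.2, col_step hu ht.1 (T.O_adj u hu e ho).ne.symm a.ne.symm]

theorem t_probe' (h : IsA T) (hu : u ∈ T.R) (ho : e ∈ T.NT u) (ht : T.PayT u e)
    (hp : u ∈ T.O e) (Z : Finset V) (hZ : ∀ w ∈ Z, w ∈ W T u ∧ u ∈ T.O w ∧ (¬ G.Adj e w →
      ¬ Uq G (T.col e) w u → ¬ Uq G (T.col e) u w ∨ Ex2 T u e w)) : Z.card ≤ 2 := by
  obtain ⟨o1, o2⟩ := T.mem_NT.1 ho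
  obtain ⟨he, de⟩ := O_mem hu o1
  have du := (O_mem he hp).2
  have hq := T.p_mem u hu ht.1
  have dq := T.d_p u hu ht.1
  have a := T.O_adj u hu e o1
  have t := h.probe_tight he hp
  have na := h.t_nadj hu o1 ht fun z => by
    by_cases r : T.p u = T.r
    · exact O_ne_p hu (.inl o1) (by rw [z, r, T.p_r])
    · have := T.d_p _ hq r
      rw [← z] at this
      omega
  have ex : ∀ w ∈ Z, ¬ G.Adj e w → ¬ Uq G (T.col e) u w ∨ Ex2 T u e w := fun w hw k => by
    have w1 := mem_W.1 (hZ w hw).1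
    by_cases z : Uq G (T.col e) w u
    · exact .inl fun y => k (h.probe_adj he hp w1.1
        (fun x => na (x ▸ T.O_adj _ hq w w1.2.2.1)) z y)
    · exact (hZ w hw).2.2 k z
  have mix : ∀ w ∈ Z, ∀ w' ∈ Z, ¬ Uq G (T.col e) u w' → ¬ Ex2 T u e w := by
    rintro w hw w' hw' s ⟨m, m1, m2, m3, m4, m5, m6⟩
    obtain ⟨w1, w2, -⟩ := hZ w hw
    have v1 := mem_W.1 (hZ w' hw').1
    have me : m ≠ e := fun z => (T.mem_H.1 m1).2.2.1 (z ▸ o1)
    have := m3.lt me
    obtain ⟨-, p2, p3⟩ := T.mem_ch.1 (m3.ch_of_d me (by omega))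
    have oc : ∀ x ∈ T.O (T.p u), T.d (T.p u) ≤ T.d x → T.col (T.p u) x = T.c x := fun x k d =>
      col_base hq fun z => (T.O_adj _ hq x k).ne (z.eq_of_d d).symm
    have dw := (O_mem (W_d hu w1).1 w2).2
    have mo : m ∉ T.O (T.p u) := fun z => m2 (O_inj hq z (mem_W.1 w1).2.2.1 (by
      rw [oc m z (by omega), oc w (mem_W.1 w1).2.2.1 (by omega), m5,
        col_base he (m6.resolve_right (by omega))]))
    have gm : T.p u ≠ m := fun z => by rw [← z] at m4; omega
    have ge : ¬ T.Anc (T.p u) e := fun z =>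
      mo (h.ch_O ((z.comp m3 (by omega)).ch_of_d gm (by omega)))
    simp only [Uq, not_forall, not_not] at s
    obtain ⟨m', n1, n2, n3⟩ := s
    rcases (h.hc he).dbl_nb h.deg a (fun κ x y => (t κ x y).resolve_right id)
      (h.adj_par hu ht.1).symm (T.mem_H.1 m1).1 v1.1 n1 gm (Ne.symm n2) (by
        rw [col_base he ge, ← p3, col_par he p2, ← ht.2, col_base hu fun z => by
          have := z.le; omega]) n3.symm with z | z
    exacts [(T.O_adj _ hq w' v1.2.2.1).ne z.symm, mo (z ▸ v1.2.2.1)]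
  have c1 : (Z.filter (G.Adj e)).card ≤ 1 := card_le_one.2 fun x hx y hy =>
    h.exit_one hu o1 na (hZ _ (mem_filter.1 hx).1).1 (hZ _ (mem_filter.1 hy).1).1
      (mem_filter.1 hx).2 (mem_filter.1 hy).2
  have c2 : (Z.filter fun x => ¬ G.Adj e x).card ≤ 1 := card_le_one.2 fun x hx y hy => by
    obtain ⟨x1, x2⟩ := mem_filter.1 hx
    obtain ⟨y1, y2⟩ := mem_filter.1 hy
    rcases ex x x1 x2 with p | p <;> rcases ex y y1 y2 with q | q
    · exact h.W_dbl hu (hZ _ x1).1 (hZ _ y1).1 he a t p q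
    · exact absurd q (mix y y1 x x1 p)
    · exact absurd p (mix x x1 y y1 q)
    · obtain ⟨m, m1, -, -, m2, m3, -⟩ := p
      obtain ⟨m', n1, -, -, n2, n3, -⟩ := q
      exact h.W_hid hu (hZ _ x1).1 (hZ _ y1).1 he m1 n1 m2 n2 m3 n3
  have := card_filter_add_card_filter_not (s := Z) (G.Adj e)
  omega

/-- If `t(u)` probes `u` then `u` has at most two tails without ticket. -/
theorem t_probe (h : IsA T) (hu : u ∈ T.R) (ho : e ∈ T.NT u) (ht : T.PayT u e)
    (hp : u ∈ T.O e) : (W1 T u).card ≤ 2 :=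
  h.t_probe' hu ho ht hp _ fun _ k => ⟨(mem_W1.1 k).1, (mem_W1.1 k).2.1, fun _ =>
    h.entry_key hu k (O_mem hu (T.mem_NT.1 ho).1).1
      (nanc_of_O hu (T.mem_NT.1 ho).1 (T.mem_NT.1 ho).2)⟩

end IsA

end Pool.Agent.Lib.MP_12eaff_co.Acc
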