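import Pool.Agent.Lib.MP_12eaff_co.Acc.Lt

set_option autoImplicit false
set_option linter.unusedSectionVars false

namespace Pool.Agent.Lib.MP_12eaff_co.Acc

open Finset Pool.Agent.Lib.MP_12eaff_co.BK
open scoped Classical

variable {V : Type} [Fintype V] {G : SimpleGraph V} {D : ℕ}

/-- A coloured vertex that sees all other colours has at most two repeated colours. -/
theorem three_dbl (deg : ∀ v, (nb G v).card ≤ D + 1) {f : V → ℕ} {u a b c : V} (l : f u < D)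
    (t : ∀ κ < D, κ ≠ f u → ∃ m, G.Adj u m ∧ f m = κ) (ha : G.Adj u a) (hb : G.Adj u b)
    (hc : G.Adj u c) (ab : f a ≠ f b) (ac : f a ≠ f c) (bc : f b ≠ f c) (da : ¬ Uq G f u a)
    (db : ¬ Uq G f u b) (dc : ¬ Uq G f u c) : False := by
  simp only [Uq, not_forall, not_not] at da db dc
  obtain ⟨a', a1, a2, a3⟩ := da
  obtain ⟨b', b1, b2, b3⟩ := db
  obtain ⟨c', c1, c2, c3⟩ := dc
  have h1 := card_le_card (s := (range D).erase (f u)) (t := (nb G u \ {a', b', c'}).image f)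
    fun κ k => by
      obtain ⟨k1, k2⟩ := mem_erase.1 k
      obtain ⟨m, m1, rfl⟩ := t κ (mem_range.1 k2) k1
      simp only [mem_image, mem_sdiff, mem_nb, mem_insert, mem_singleton]
      grind
  have h2 := card_sdiff_add_card_eq_card (s := {a', b', c'}) (t := nb G u) (by
    simp [insert_subset_iff, a1, b1, c1])
  rw [card_eq_three.2 ⟨a', b', c', by grind, by grind, by grind, rfl⟩] at h2
  have := card_image_le (s := nb G u \ {a', b', c'}) (f := f)
  have := card_erase_add_one (mem_range.2 l)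
  have := deg u
  rw [card_range] at *
  omega

/-- One of two repeated colours survives the change of one neighbour. -/
theorem persist {f g : V → ℕ} {u a b p : V} (ha : G.Adj u a) (hb : G.Adj u b) (ab : f a ≠ f b)
    (e : ∀ m, G.Adj u m → m ≠ p → f m = g m) (da : ¬ Uq G f u a) (db : ¬ Uq G f u b) :
    ¬ Uq G g u a ∨ ¬ Uq G g u b := by
  simp only [Uq, not_forall, not_not] at *
  obtain ⟨a', a1, a2, a3⟩ := da
  obtain ⟨b', b1, b2, b3⟩ := db
  by_cases k : a ≠ p ∧ a' ≠ p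
  · exact .inl ⟨a', a1, a2, by rw [← e a ha k.1, ← e a' a1 k.2, a3]⟩
  · exact .inr ⟨b', b1, b2, by rw [← e b hb (by grind), ← e b' b1 (by grind), b3]⟩

/-- Two shifts `a → v → u`. -/
theorem HC.two_shift (nc : ¬ Colr G D) {a v u : V} {f : V → ℕ} (h : HC G D a f) (va : v ≠ a)
    (ua : u ≠ a) (h1 : Uq G f a v) (h2 : Uq G f v u) (e : G.Adj v u) :
    HC G D u (Acc.shift D (Acc.shift D f a v) v u) ∧ ∀ κ < D, κ ≠ f u →
      ∃ m, G.Adj u m ∧ m ≠ v ∧ (m = a ∧ κ = f v ∨ m ≠ a ∧ f m = κ) := by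
  have s := (h.shift va h1).shift (u := u) e.ne.symm fun m p q => by
    rw [shift_o e.ne.symm ua]
    by_cases r : m = a
    · rw [r, shift_l va.symm]
      exact h.ne e
    · rw [shift_o p.ne.symm r]
      exact h2 m p q
  refine ⟨s, fun κ k n => ?_⟩
  obtain ⟨m, m1, m2⟩ := s.sees nc k
  have mv : m ≠ v := fun r => n (by rw [← m2, r, shift_l e.ne, shift_o e.ne.symm ua])
  rw [shift_o m1.ne.symm mv] at m2
  by_cases r : m = a
  · exact ⟨m, m1, mv, .inl ⟨r, by rw [← m2, r, shift_l va.symm]⟩⟩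
  · exact ⟨m, m1, mv, .inr ⟨r, by rw [← m2, shift_o mv r]⟩⟩

namespace Tr

variable (T : Tr G D)

/-- A unit for the arc `v → u` that is found from the state `y`. -/
def Pay (v u y : V) : Prop := T.PayT v u ∨ ∃ x, T.Pr x v u ∧ (T.Anc x v ∨ T.Anc x y)

/-- A highest open witness, for any position of the tail. -/
def Op2 (v u y a x : V) : Prop := x ∈ T.ch a ∧ T.Anc x y ∧ ¬ T.Anc x v ∧ T.c x = T.col v u ∧
  (v ∈ T.O a ∨ a ∈ T.ch v) ∧ ∀ m, G.Adj v m → m ≠ u → T.col a m ≠ T.col v u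

variable {T} {u v w x y z a m : V}

theorem Pay.mono (h : T.Pay v u y) (k : T.Anc y z) : T.Pay v u z :=
  h.imp_right fun ⟨x, p, q⟩ => ⟨x, p, q.imp_right fun r => r.trans k⟩

/-- A second witness gives a unit or a highest open witness. -/
theorem high2 (hv : v ∈ T.R) (hu : u ∈ T.O v) (hy : y ∈ T.R) (a : G.Adj v m) (ne : m ≠ u)
    (hc : T.col y m = T.col v u) : T.Pay v u y ∨ ∃ a x, T.Op2 v u y a x := by
  have l := T.lt v hv u (.inl hu)
  have key : ∀ k z m, T.d z ≤ k → T.Anc z y → G.Adj v m → m ≠ u → T.col z m = T.col v u →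
      T.Pay v u y ∨ ∃ a x, T.Op2 v u y a x := by
    intro k
    induction k using Nat.strong_induction_on with
    | _ k ih =>
    intro z m d s a ne hc
    have uq := T.uniq v hv u (.inl hu) m a ne
    by_cases p : T.Anc m z
    · obtain ⟨x, x1, x2⟩ := p.child fun e => by rw [e, col_self s.mem.1] at hc; omega
      obtain ⟨p1, p2, p3⟩ := T.mem_ch.1 x1
      rw [col_anc x1 x2] at hc
      have n : ¬ T.Anc x v := fun e => uq (by rw [col_anc x1 e, hc])
      by_cases q : v ∈ T.H m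
      · exact .inl (.inr ⟨x, ⟨p1, p2, p3 ▸ q, by rw [tc, if_neg n, hc]⟩, .inr (x2.trans s)⟩)
      by_cases r : ∀ m', G.Adj v m' → m' ≠ u → T.col m m' ≠ T.col v u
      · exact .inr ⟨m, x, x1, x2.trans s, n, hc,
          (adj_cases p.mem.1 hv a.symm).imp_right fun e => e.resolve_left q, r⟩
      push Not at r
      obtain ⟨m', r1, r2, r3⟩ := r
      have := d_ch x1
      have := x2.le
      exact ih (T.d m) (by omega) m m' le_rfl (p.trans s) r1 r2 r3
    · rw [col_base s.mem.1 p] at hc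
      have k' : T.Anc m v := by
        by_contra e
        exact uq (by rw [col_base hv e, hc])
      obtain ⟨x, x1, x2⟩ := k'.child a.ne.symm
      obtain ⟨p1, p2, p3⟩ := T.mem_ch.1 x1
      by_cases e : x = v
      · exact .inl (.inl ⟨e ▸ p2, by rw [← hc, ← p3, e]⟩)
      · have := x2.lt e
        have := d_ch x1
        exact .inl (.inr ⟨x, ⟨p1, p2, p3 ▸ F2 k'.mem.1 hv a.symm (by omega),
          by rw [tc, if_pos x2, p3, hc]⟩, .inl x2⟩)
  exact key _ y m le_rfl (.refl y hy) a ne hc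

theorem Op2.anc (o : T.Op2 v u y a x) : T.Anc a y := (anc_ch o.1).trans o.2.1

theorem Op2.lt (o : T.Op2 v u y a x) : T.d a < T.d y := by
  have := d_ch o.1
  have := o.2.1.le
  omega

theorem Op2.dep (o : T.Op2 v u y a x) : T.d v ≤ T.d a + 1 := o.2.2.2.2.1.elim
  (fun p => (IsA.O_mem o.anc.mem.1 p).2) fun p => by have := d_ch p; omega

end Tr

namespace IsB

variable {T : Tr G D} {u v w x y z a b : V} {K : Finset V}

open Tr IsA

/-- At an open witness the head is tight without the tail. -/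
theorem op_tight (h : IsB T) (hv : v ∈ T.R) (hu : u ∈ T.O v) (cu : T.col v u = T.c u)
    (n : ¬ T.Anc u y) (o : T.Op2 v u y a x) : ¬ G.Adj u a ∧ ¬ G.Adj u x ∧ T.col a u = T.c u ∧
      ¬ Uq G (T.col a) u v ∧ ∀ κ < D, κ ≠ T.col a u → ∃ m, G.Adj u m ∧ m ≠ v ∧ T.col a m = κ := by
  have ay := o.anc
  obtain ⟨o1, o2, o3, o4, o5, o6⟩ := o
  have aR := ay.mem.1
  have dx := d_ch o1
  have c1 : T.col a u = T.c u := col_base aR fun p => n (p.trans ay)
  have c2 : T.col a x = T.c u := by rw [col_base aR fun p => by have := p.le; omega, o4, cu]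
  have na : ¬ G.Adj u a := fun p =>
    h.uq_O aR (h.ch_O o1) u p.symm (fun r => n (r ▸ o2)) (by rw [c1, c2])
  have av : G.Adj a v := o5.elim (T.O_adj a aR v) fun p => (h.adj_ch p).symm
  have uq : Uq G (T.col a) a v := o5.elim (h.uq_O aR) fun p => by
    obtain ⟨p1, p2, p3⟩ := T.mem_ch.1 p
    exact p3 ▸ h.uq_par p1 p2
  have vu := T.O_adj v hv u hu
  have t := ((h.hc aR).two_shift h.ncol av.ne.symm (fun p : u = a => n (p ▸ ay)) uq
    (fun m p q => by rw [c1, ← cu]; exact o6 m p q) vu).2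
  have t' : ∀ κ < D, κ ≠ T.col a u → ∃ m, G.Adj u m ∧ m ≠ v ∧ T.col a m = κ := fun κ p q => by
    obtain ⟨m, m1, m2, m3⟩ := t κ p q
    exact ⟨m, m1, m2, (m3.resolve_left fun r => na (r.1 ▸ m1)).2⟩
  refine ⟨na, fun p => (h.hc aR).ne p (by rw [c1, c2]), c1, fun p => ?_, t'⟩
  obtain ⟨m, m1, m2, m3⟩ := t' _ ((h.hc aR).lt v av.ne.symm) ((h.hc aR).ne vu)
  exact p m m1 m2 m3

/-- Two vertices that probe each other can be swapped in every state not below them, or one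
of the two arcs has a unit. -/
theorem mutual_swap (h : IsB T) (hu : u ∈ T.R) (hw : w ∈ T.R) (uw : w ∈ T.O u) (wu : u ∈ T.O w)
    (hy : y ∈ T.R) (nu : ¬ T.Anc u y) (nw : ¬ T.Anc w y) :
    (Uq G (T.col y) u w ∧ Uq G (T.col y) w u) ∨ T.Pay u w y ∨ T.Pay w u y := by
  have base : ∀ {u w}, u ∈ T.R → w ∈ T.R → w ∈ T.O u → u ∈ T.O w → T.col u w = T.c w :=
    fun {u w} p q r s => col_base p fun k => O_ne_p p (.inl r)
      (T.mem_ch.1 (k.ch_of_d (T.O_adj w q u s).ne (O_mem q s).2)).2.2.symm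
  have key : ∀ k z u w, T.d z ≤ k → T.Anc z y → u ∈ T.R → w ∈ T.R → w ∈ T.O u → u ∈ T.O w →
      ¬ T.Anc u y → ¬ T.Anc w y → ¬ Uq G (T.col z) u w → T.Pay u w y ∨ T.Pay w u y := by
    intro k
    induction k using Nat.strong_induction_on with
    | _ k ih =>
    intro z u w d s hu hw uw wu nu nw q
    simp only [Uq, not_forall, not_not] at q
    obtain ⟨m, m1, m2, m3⟩ := q
    have b := base hu hw uw wu
    rcases high2 hu uw s.mem.1 m1 m2 (by rw [m3, b, col_base s.mem.1 fun p => nw (p.trans s)]) with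
      p | ⟨a, x, o⟩
    · exact .inl (p.mono s)
    · have := o.lt
      exact (ih (T.d a) (by omega) a w u le_rfl (o.anc.trans s) hw hu wu uw nw nu
        (h.op_tight hu uw b (fun p => nw (p.trans s)) o).2.2.2.1).symm
  by_cases p : Uq G (T.col y) u w
  · by_cases q : Uq G (T.col y) w u
    exacts [.inl ⟨p, q⟩, .inr (key _ y w u le_rfl (.refl y hy) hw hu wu uw nw nu q).symm]
  · exact .inr (key _ y u w le_rfl (.refl y hy) hu hw uw wu nu nw p)

/-- A prober of `u` is adjacent to every clean tail off its path, up to units. -/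
theorem probe_mutual (h : IsB T) (hu : u ∈ T.R) (hw : w ∈ T.R) (uw : w ∈ T.O u) (wu : u ∈ T.O w)
    (hb : b ∈ T.R) (pb : u ∈ T.O b) (nu : ¬ T.Anc u b) (nw : ¬ T.Anc w b) :
    G.Adj b w ∨ T.Pay u w b ∨ T.Pay w u b := by
  refine (h.mutual_swap hu hw uw wu hb nu nw).imp_left fun p => by_contra fun k => ?_
  exact (h.hc hb).swap_dbl h.ncol (fun e => nw (e ▸ .refl _ hw)) (T.O_adj b hb u pb).ne.symm k
    p.2 p.1 (T.O_adj w hw u wu) (h.uq_O hb pb)

/-- Below an open witness a neighbour of the head has moved. -/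
theorem op_slot (h : IsB T) (hv : v ∈ T.R) (hu : u ∈ T.O v) (cu : T.col v u = T.c u)
    (nu : ¬ T.Anc u b) (o : T.Op2 v u b a x) (uq : Uq G (T.col b) u v) :
    ∃ m, T.Anc x m ∧ x ≠ m ∧ T.Anc m b ∧ G.Adj u m ∧ (m = v ∨ T.c m = T.col a v) := by
  obtain ⟨t1, t2, -, t4, -⟩ := h.op_tight hv hu cu nu o
  simp only [Uq, not_forall, not_not] at t4
  obtain ⟨m, m1, m2, m3⟩ := t4
  have dx := d_ch o.1
  have pth : ∀ m, G.Adj u m → T.Anc a m ∧ T.Anc m b → T.Anc x m ∧ x ≠ m ∧ T.d a < T.d m :=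
    fun m p q => by
      have := q.1.lt fun e => t1 (e ▸ p)
      exact ⟨o.2.1.comp q.2 (by omega), fun e => t2 (e ▸ p), this⟩
  by_cases p : T.Anc a v ∧ T.Anc v b
  · have := pth v (T.O_adj v hv u hu).symm p
    exact ⟨v, this.1, this.2.1, p.2, (T.O_adj v hv u hu).symm, .inl rfl⟩
  have q : T.Anc a m ∧ T.Anc m b := by
    by_contra q
    exact uq m m1 m2 (by rw [col_diff o.anc q, col_diff o.anc p, m3])
  have := pth m m1 q
  exact ⟨m, this.1, this.2.1, q.2, m1, .inr (by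
    rw [← m3, col_base o.anc.mem.1 fun e => by have := e.le; omega])⟩

/-- A tail off a prober that is unique at the head sees the colour of the head again. -/
theorem probe_sees (h : IsB T) (vu : G.Adj v u) (hb : b ∈ T.R) (pb : u ∈ T.O b) (vb : v ≠ b)
    (k : ¬ G.Adj b v) (uq : Uq G (T.col b) u v) : ¬ Uq G (T.col b) v u := fun p =>
  (h.hc hb).swap_dbl h.ncol vb (T.O_adj b hb u pb).ne.symm k p uq vu (h.uq_O hb pb)

/-- N1, one tail: a prober `b` of `u` and a tail `v → u` that is unique at `u` in `s(b)`. -/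
theorem n1_tail (h : IsB T) (hv : v ∈ T.R) (hu : u ∈ T.O v) (cu : T.col v u = T.c u)
    (hb : b ∈ T.R) (pb : u ∈ T.O b) (nu : ¬ T.Anc u b) (vb : v ≠ b) (uq : Uq G (T.col b) u v) :
    G.Adj b v ∨ T.Pay v u b ∨ ∃ a x m, T.Op2 v u b a x ∧ T.Anc x m ∧ x ≠ m ∧ T.Anc m b ∧
      G.Adj u m ∧ (m = v ∨ T.c m = T.col a v) := by
  by_cases k : G.Adj b v
  · exact .inl k
  have s := h.probe_sees (T.O_adj v hv u hu) hb pb vb k uq
  simp only [Uq, not_forall, not_not] at s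
  obtain ⟨m, m1, m2, m3⟩ := s
  exact .inr ((high2 hv hu hb m1 m2 (by rw [m3, cu, col_base hb nu])).imp_right fun ⟨a, x, o⟩ =>
    let ⟨m, p⟩ := h.op_slot hv hu cu nu o uq
    ⟨a, x, m, o, p⟩)

/-- N1: a prober `b` of `u` with the parent of `u` off its path and off its neighbourhood. -/
theorem n1 (h : IsB T) (hu : u ∈ T.R) (ur : u ≠ T.r) (hb : b ∈ T.R) (pb : u ∈ T.O b)
    (n : ¬ T.Anc (T.p u) b) (na : ¬ G.Adj b (T.p u)) :
    T.Pay (T.p u) u b ∨ (∃ a x, T.Op2 (T.p u) u b a x) ∨ (¬ Uq G (T.col b) u (T.p u) ∧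
      ∀ w, G.Adj u w → T.col b w ≠ T.col b (T.p u) → Uq G (T.col b) u w) := by
  have hq := T.p_mem u hu ur
  have qu := h.adj_par hu ur
  have nu : ¬ T.Anc u b := fun p => n ((anc_p hu ur).trans p)
  have bu := T.O_adj b hb u pb
  by_cases k : Uq G (T.col b) u (T.p u)
  · have s : ¬ Uq G (T.col b) (T.p u) u := fun p => (h.hc hb).swap_dbl h.ncol
      (fun e => n (e ▸ .refl _ hq)) bu.ne.symm na p k qu (h.uq_O hb pb)
    simp only [Uq, not_forall, not_not] at s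
    obtain ⟨m, m1, m2, m3⟩ := s
    exact (high2 hq (h.par_O hu ur) hb m1 m2
      (by rw [m3, col_p_self hu ur, col_base hb nu])).imp_right .inl
  refine .inr (.inr ⟨k, fun w p q m m1 m2 m3 => ?_⟩)
  simp only [Uq, not_forall, not_not] at k
  obtain ⟨e, e1, e2, e3⟩ := k
  rcases (h.hc hb).dbl_nb h.deg bu.symm (fun κ x y => (h.probe_tight hb pb κ x y).resolve_right id)
    qu.symm e1 p m1 (Ne.symm e2) (Ne.symm m2) e3.symm m3.symm with r | r
  exacts [q (by rw [r]), q (by rw [r, e3])]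

/-- A receiver: `r` sees the colour of `x` outside `K` and is tight up to the colour of `y`. -/
def _root_.Pool.Agent.Lib.MP_12eaff_co.Acc.Rcv (G : SimpleGraph V) (D : ℕ) (f : V → ℕ)
    (K : Finset V) (x y z r : V) : Prop := Sees G K f r (f x) ∧
  ∀ κ < D, κ ≠ f r → (∃ m, G.Adj r m ∧ f m = κ) ∨ κ = f y ∧ G.Adj r z

/-- PAIR, state form: the hole runs `z → y → x` and enters the clique `K` at `x`. -/
theorem _root_.Pool.Agent.Lib.MP_12eaff_co.Acc.HC.pair_st (deg : ∀ v, (nb G v).card ≤ D + 1)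
    (nc : ¬ Colr G D) {f : V → ℕ} (h : HC G D z f) (hK : IsClq G K) (hx : x ∈ K) (zy : G.Adj z y)
    (pz : Uq G f z y) (a : G.Adj y x) (yK : y ∉ K) (xz : x ≠ z) (uq : Uq G f y x) :
    (∀ κ < D, κ ≠ f x → ∃ m, G.Adj x m ∧ f m = κ) ∧ ∃ r0,
      (r0 ∈ K → r0 ≠ x → r0 ≠ z → ∀ w ∈ K, w ≠ r0 → ∃ m, G.Adj w m ∧ m ∉ K ∧
        (m = z ∧ f r0 = f y ∨ m ≠ y ∧ f m = f r0)) ∧
      ∀ r ∈ K, r ≠ x → r ≠ r0 → ¬ G.Adj y r → Rcv G D f K x y z r := by
  have s := h.shift zy.ne.symm pz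
  have sx : shift D f z y x = f x := shift_o a.ne.symm xz
  have rc : ∀ r ∈ K, ¬ G.Adj y r → (G.Adj r y ∨ Sees G K (shift D f z y) r (shift D f z y x)) ∧
      (∀ γ ∈ Abs D (shift D f z y) K, Sees G K (shift D f z y) r γ) → Rcv G D f K x y z r :=
    fun r k n p => by
      obtain ⟨m, m1, m2, m3⟩ := p.1.resolve_left fun e => n e.symm
      have mz : m ≠ z := fun e => h.ne a (by rw [← sx, ← m3, e, shift_l zy.ne])
      rw [sx, shift_o (fun e : m = y => n (e ▸ m1.symm)) mz] at m3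
      refine ⟨⟨m, m1, m2, m3⟩, fun κ l q => ?_⟩
      have : ∃ m, G.Adj r m ∧ shift D f z y m = κ := by
        by_cases e : κ ∈ Abs D (shift D f z y) K
        · exact (p.2 κ e).imp fun _ e => ⟨e.1, e.2.2⟩
        simp only [mem_Abs, l, true_and, not_forall, not_not] at e
        obtain ⟨w, w1, w2⟩ := e
        exact ⟨w, hK r k w w1 fun e => q (by
          rw [← w2, ← e, shift_o (fun e : r = y => yK (e ▸ k)) fun e => n (e ▸ zy.symm)]), w2⟩
      obtain ⟨m, m1, m2⟩ := this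
      by_cases e : m = z
      · exact .inr ⟨by rw [← m2, e, shift_l zy.ne], e ▸ m1⟩
      · exact .inl ⟨m, m1, by rw [← m2, shift_o (fun e : m = y => n (e ▸ m1.symm)) e]⟩
  refine ⟨fun κ k n => ?_, ?_⟩
  · obtain ⟨m, m1, -, m3 | m3⟩ := (h.two_shift nc zy.ne.symm xz pz uq a).2 κ k n
    exacts [⟨y, a.symm, m3.2.symm⟩, ⟨m, m1, m3.2⟩]
  rcases s.entry deg nc hK yK hx (fun m p q => by
      rw [sx]
      by_cases e : m = z
      · rw [e, shift_l zy.ne]
        exact h.ne a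
      · rw [shift_o p.ne.symm e]
        exact uq m p q) with p | ⟨r0, r1, r2, p⟩
  · exact ⟨x, fun _ e => absurd rfl e, fun r k _ _ n => rc r k n (p r k)⟩
  refine ⟨r0, fun _ _ rz w k n => ?_, fun r k _ e n => rc r k n (p r k e).2⟩
  obtain ⟨m, m1, m2, m3⟩ := (p w k n).1
  rw [shift_o (fun e : r0 = y => yK (e ▸ r1)) rz] at m3
  by_cases e : m = z
  · exact ⟨m, m1, m2, .inl ⟨e, by rw [← m3, e, shift_l zy.ne]⟩⟩
  have my : m ≠ y := s.ne_hole (m3 ▸ h.lt r0 rz)
  exact ⟨m, m1, m2, .inr ⟨my, by rw [← m3, shift_o my e]⟩⟩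

/-- A receiver has a unit or an open witness. -/
theorem rcv_pay {r : V} (hx : x ∈ K) (hr : r ∈ T.R) (ho : x ∈ T.O r) (cx : T.col r x = T.c x)
    (hz : z ∈ T.R) (nx : ¬ T.Anc x z) (p : Sees G K (T.col z) r (T.col z x)) :
    T.Pay r x z ∨ ∃ a a', T.Op2 r x z a a' :=
  let ⟨_, m1, m2, m3⟩ := p
  high2 hr ho hz m1 (fun e => m2 (e ▸ hx)) (by rw [m3, cx, col_base hz nx])

/-- Two open witnesses in the window leave room for one moved neighbour only. -/
theorem window {a' p p' m m' : V} (o : p ∈ T.ch a) (o' : p' ∈ T.ch a')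
    (z1 : T.Anc p z) (z2 : T.Anc p' z) (c : T.c p = T.c p') (ne : a ≠ a')
    (d1 : T.d x ≤ T.d a + 2) (d2 : T.d x ≤ T.d a' + 2) (dz : T.d z ≤ T.d x + 2)
    (n1 : ¬ G.Adj x a) (n2 : ¬ G.Adj x p) (n3 : ¬ G.Adj x a') (n4 : ¬ G.Adj x p')
    (m1 : G.Adj x m) (m2 : T.Anc m z) (m3 : T.d x ≤ T.d m + 2)
    (k1 : G.Adj x m') (k2 : T.Anc m' z) (k3 : T.d x ≤ T.d m' + 2) : m = m' := by
  have eq : ∀ {s t}, T.Anc s z → T.Anc t z → s ≠ t → T.d s ≠ T.d t := fun p q r e =>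
    r ((p.comp q e.le).eq_of_d e.ge)
  have az := (anc_ch o).trans z1
  have az' := (anc_ch o').trans z2
  have := d_ch o
  have := d_ch o'
  have := eq az az' ne
  have := eq z1 az' fun e => c_ch_ne (e ▸ o') (T.mem_ch.1 o).2.1 c.symm
  have := eq z2 az fun e => c_ch_ne (e ▸ o) (T.mem_ch.1 o').2.1 c
  have := eq m2 az fun e => n1 (e ▸ m1)
  have := eq m2 z1 fun e => n2 (e ▸ m1)
  have := eq m2 az' fun e => n3 (e ▸ m1)
  have := eq m2 z2 fun e => n4 (e ▸ m1)
  have := eq k2 az fun e => n1 (e ▸ k1)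
  have := eq k2 z1 fun e => n2 (e ▸ k1)
  have := eq k2 az' fun e => n3 (e ▸ k1)
  have := eq k2 z2 fun e => n4 (e ▸ k1)
  have := z1.le
  have := z2.le
  have := m2.le
  have := k2.le
  by_contra e
  have := eq m2 k2 e
  omega

/-- PAIR for four receivers: one of them has no open witness. -/
theorem pair4 (h : IsB T) (hK : IsClq G K) (hx : x ∈ K)
    (tl : ∀ r ∈ K, r ≠ x → r ∈ T.R ∧ x ∈ T.O r ∧ T.col r x = T.c x) (hz : z ∈ T.R)
    (pz : y ∈ T.O z) (a : G.Adj y x) (yK : y ∉ K) (nx : ¬ T.Anc x z)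
    (uq : Uq G (T.col z) y x) (dz : T.d z ≤ T.d x + 2) {N : Finset V} (hN : N ⊆ K.erase x)
    (ny : ∀ r ∈ N, ¬ G.Adj y r) (c4 : 4 ≤ N.card) :
    ∃ r ∈ N, Rcv G D (T.col z) K x y z r ∧ ¬ ∃ a a', T.Op2 r x z a a' := by
  by_contra no
  simp only [not_exists, not_and, not_forall, not_not] at no
  have xz : x ≠ z := fun e => nx (e ▸ .refl _ (e ▸ hz))
  have zy := T.O_adj z hz y pz
  obtain ⟨tz, r0, e1, e2⟩ := (h.hc hz).pair_st h.deg h.ncol hK hx zy (h.uq_O hz pz) a yK xz uq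
  have mN : ∀ r ∈ N, r ∈ K ∧ r ≠ x ∧ G.Adj x r := fun r k =>
    have := mem_erase.1 (hN k)
    ⟨this.2, this.1, hK x hx r this.2 this.1.symm⟩
  have cn : ∀ s ∈ T.R, ∀ r ∈ N, ∀ r' ∈ N, r ≠ r' → T.col s r ≠ T.col s r' :=
    fun s p r q r' q' n => (h.hc p).ne (hK r (mN r q).1 r' (mN r' q').1 n)
  have op : ∀ r, ∃ a a', r ∈ N → r ≠ r0 → T.Op2 r x z a a' := fun r => by
    by_cases k : r ∈ N ∧ r ≠ r0
    · obtain ⟨a, a', o⟩ := no r k.1 (e2 r (mN r k.1).1 (mN r k.1).2.1 k.2 (ny r k.1))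
      exact ⟨a, a', fun _ _ => o⟩
    · exact ⟨r, r, fun p q => absurd ⟨p, q⟩ k⟩
  choose A B op using op
  have ti := fun r (p : r ∈ N) (q : r ≠ r0) =>
    have t := tl r (mN r p).1 (mN r p).2.1
    h.op_tight t.1 t.2.1 t.2.2 nx (op r p q)
  have dA : ∀ r ∈ N, r ≠ r0 → T.d x ≤ T.d (A r) + 2 := fun r p q => by
    have t := tl r (mN r p).1 (mN r p).2.1
    have := (op r p q).dep
    have := (O_mem t.1 t.2.1).2
    omega
  have lx : T.col z x < D := (h.hc hz).lt x xz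
  -- two different witnesses
  obtain ⟨r1, p1, q1, r2, p2, q2, ne⟩ : ∃ r1 ∈ N, r1 ≠ r0 ∧ ∃ r2 ∈ N, r2 ≠ r0 ∧ A r1 ≠ A r2 := by
    by_contra! k
    have := pred_card_le_card_erase (s := N) (a := r0)
    obtain ⟨s, t, u, s1, t1, u1, st, su, tu⟩ := two_lt_card_iff.1 (show 2 < (N.erase r0).card by omega)
    rw [mem_erase] at s1 t1 u1
    have aR := (op s s1.2 s1.1).anc.mem.1
    obtain ⟨-, -, c1, c2, c3⟩ := ti s s1.2 s1.1
    exact three_dbl h.deg (by rw [c1, ← col_base hz nx]; exact lx)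
      (fun κ p q => (c3 κ p q).imp fun _ e => ⟨e.1, e.2.2⟩) (mN s s1.2).2.2 (mN t t1.2).2.2
      (mN u u1.2).2.2 (cn _ aR s s1.2 t t1.2 st) (cn _ aR s s1.2 u u1.2 su)
      (cn _ aR t t1.2 u u1.2 tu) c2 (k s s1.2 s1.1 t t1.2 t1.1 ▸ (ti t t1.2 t1.1).2.2.2.1)
      (k s s1.2 s1.1 u u1.2 u1.1 ▸ (ti u u1.2 u1.1).2.2.2.1)
  have one : ∀ m m', G.Adj x m → T.Anc m z → T.d x ≤ T.d m + 2 → G.Adj x m' → T.Anc m' z →
      T.d x ≤ T.d m' + 2 → m = m' := fun m m' =>
    window (op r1 p1 q1).1 (op r2 p2 q2).1 (op r1 p1 q1).2.1 (op r2 p2 q2).2.1 (by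
      rw [(op r1 p1 q1).2.2.2.1, (op r2 p2 q2).2.2.2.1, (tl r1 (mN r1 p1).1 (mN r1 p1).2.1).2.2,
        (tl r2 (mN r2 p2).1 (mN r2 p2).2.1).2.2]) ne (dA r1 p1 q1) (dA r2 p2 q2) dz
      (ti r1 p1 q1).1 (ti r1 p1 q1).2.1 (ti r2 p2 q2).1 (ti r2 p2 q2).2.1
  -- two receivers that are not doubled in the state of `z`
  have c2 : (N.filter fun r => ¬ Uq G (T.col z) x r).card ≤ 2 := by
    by_contra! k
    obtain ⟨s, t, u, s1, t1, u1, st, su, tu⟩ := two_lt_card_iff.1 k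
    rw [mem_filter] at s1 t1 u1
    exact three_dbl h.deg lx tz (mN s s1.1).2.2 (mN t t1.1).2.2 (mN u u1.1).2.2
      (cn _ hz s s1.1 t t1.1 st) (cn _ hz s s1.1 u u1.1 su) (cn _ hz t t1.1 u u1.1 tu)
      s1.2 t1.2 u1.2
  have c3 := card_filter_add_card_filter_not (s := N) fun r => Uq G (T.col z) x r
  obtain ⟨s, s1, t, t1, st⟩ := one_lt_card.1
    (show 1 < (N.filter fun r => Uq G (T.col z) x r).card by omega)
  rw [mem_filter] at s1 t1
  have n0 : ∀ r ∈ N, Uq G (T.col z) x r → r ≠ r0 := fun r p q e => by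
    obtain ⟨m, m1, m2, m3 | m3⟩ := e1 (e ▸ (mN r p).1) (e ▸ (mN r p).2.1)
      (fun k => ny r p (by rw [e, k]; exact zy.symm)) x hx (e ▸ (mN r p).2.1.symm)
    · exact q y a.symm (fun k => yK (k ▸ (mN r p).1)) (by rw [e, m3.2])
    · exact q m m1 (fun k => m2 (k ▸ (mN r p).1)) (by rw [e, m3.2])
  -- the moved neighbour lies below both witnesses
  have mv : ∀ r ∈ N, Uq G (T.col z) x r → ∃ b, G.Adj x b ∧ T.Anc (A r) b ∧ T.Anc b z :=
    fun r p q => by
      by_contra! k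
      have o := op r p (n0 r p q)
      refine (ti r p (n0 r p q)).2.2.2.1 fun m m1 m2 => ?_
      rw [← col_diff o.anc fun e => k m m1 e.1 e.2, ← col_diff o.anc fun e => k r (mN r p).2.2 e.1 e.2]
      exact q m m1 m2
  obtain ⟨b, b1, b2, b3⟩ := mv s s1.1 s1.2
  obtain ⟨b', b4, b5, b6⟩ := mv t t1.1 t1.2
  have s0 := n0 s s1.1 s1.2
  have t0 := n0 t t1.1 t1.2
  have ds := dA s s1.1 s0
  have dt := dA t t1.1 t0
  obtain rfl : b' = b := one _ _ b4 b6 (by have := b5.le; omega) b1 b3 (by have := b2.le; omega)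
  have ag : ∀ r ∈ N, r ≠ r0 → ∀ m, G.Adj x m → m ≠ b' → T.col (A r) m = T.col z m :=
    fun r p q m m1 m2 => (col_diff (op r p q).anc fun e => m2 (one _ _ m1 e.2
      (by have := e.1.le; have := dA r p q; omega) b1 b3 (by have := b2.le; omega))).symm
  have bs : ∀ r ∈ N, r ≠ r0 → T.Anc (A r) b' → T.col (A r) b' = T.c b' := fun r p q k =>
    col_base k.mem.1 fun e => (ti r p q).1 (k.eq_of_d e.le ▸ b1)
  have same : ∀ m, G.Adj x m → T.col (A s) m = T.col (A t) m := fun m k => by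
    by_cases e : m = b'
    · rw [e, bs s s1.1 s0 b2, bs t t1.1 t0 b5]
    · rw [ag s s1.1 s0 m k e, ag t t1.1 t0 m k e]
  rcases persist (mN s s1.1).2.2 (mN t t1.1).2.2 (cn _ b2.mem.1 s s1.1 t t1.1 st) (ag s s1.1 s0)
    (ti s s1.1 s0).2.2.2.1 (fun k => (ti t t1.1 t0).2.2.2.1 fun m m1 m2 => by
      rw [← same m m1, ← same t (mN t t1.1).2.2]
      exact k m m1 m2) with k | k
  exacts [k s1.2, k t1.2]

/-- EXIT: a tail adjacent to an exit off the parent is doubled there. -/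
theorem exit_dbl2 {e : V} (h : IsB T) (hu : u ∈ T.R) (ho : e ∈ T.O u) (n : ¬ G.Adj (T.p u) e)
    (hw : w ∈ W T u) : ¬ Uq G (shift D (T.col u) u e) e w := by
  obtain ⟨a0, a1, a2, -⟩ := mem_W.1 hw
  have hq := T.p_mem u hu a1
  have a := T.O_adj u hu e ho
  have b := T.O_adj _ hq w a2
  have c := h.adj_par hu a1
  have uq := h.uq_O hu ho
  have we : w ≠ e := fun z => n (z ▸ b)
  have qe : T.p u ≠ e := (O_ne_p hu (.inl ho)).symm
  have s := (h.hc hu).shift a.ne.symm uq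
  refine s.swap_dbl h.ncol qe we (fun z => n z.symm) (fun m x y => ?_) (fun m x y => ?_) b
  · rw [shift_o we a0.ne.symm]
    by_cases z : m = u
    · rw [z, shift_l a.ne]
      exact (uq w a0 we).symm
    · rw [shift_o (fun z : m = e => n (z ▸ x)) z, col_step hu a1 z x.ne.symm,
        col_step hu a1 a0.ne.symm b.ne.symm]
      exact h.uq_O hq a2 m x y
  · by_cases z : m = u
    · exact z ▸ s.ne c.symm
    by_cases z' : m = e
    · rw [z', s.hole]
      exact (s.lt _ qe).ne'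
    · rw [shift_o z' z, shift_o qe c.ne, col_step hu a1 z y, col_par hu a1, ← col_p_self hu a1]
      exact W_uq hu hw m x z

/-- EXIT bound: an exit off the parent has at most one neighbour among the tails. -/
theorem exit_one2 {e w' : V} (h : IsB T) (hu : u ∈ T.R) (ho : e ∈ T.O u) (n : ¬ G.Adj (T.p u) e)
    (hw : w ∈ W T u) (hw' : w' ∈ W T u) (a : G.Adj e w) (a' : G.Adj e w') : w = w' := by
  have s := (h.hc hu).shift (T.O_adj u hu e ho).ne.symm (h.uq_O hu ho)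
  have s1 := h.exit_dbl2 hu ho n hw
  have s2 := h.exit_dbl2 hu ho n hw'
  simp only [Uq, not_forall, not_not] at s1 s2
  obtain ⟨m, m1, m2, m3⟩ := s1
  obtain ⟨m', n1, n2, n3⟩ := s2
  by_contra k
  rcases s.dbl2 h.deg h.ncol a m1 a' n1 (Ne.symm m2) (Ne.symm n2) m3.symm n3.symm with z | z
  exacts [k z.symm, s.ne (h.W_adj hu hw hw' k) (by rw [z, m3])]

/-- PAIR-t for four tails: the parent or a tail off `N(y)` is a receiver that is not open. -/
theorem pair_t6 (h : IsB T) (hx : x ∈ T.R) (xr : x ≠ T.r) (hy : y ∈ T.O x)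
    (ng : ¬ G.Adj (T.p x) y) (hz : z ∈ T.R) (pz : y ∈ T.O z) (nx : ¬ T.Anc x z)
    (uq : Uq G (T.col z) y x) (dz : T.d z ≤ T.d x + 2) {Z : Finset V}
    (hZ : ∀ w ∈ Z, w ∈ W T x ∧ x ∈ T.O w) (c4 : 4 ≤ Z.card) :
    ∃ r ∈ insert (T.p x) Z, ¬ G.Adj y r ∧ Rcv G D (T.col z) (insert (T.p x) (insert x Z)) x y z r ∧
      (¬ ∃ a a', T.Op2 r x z a a') ∧ T.Pay r x z := by
  have hq := T.p_mem x hx xr
  have xy := T.O_adj x hx y hy
  have aq : ∀ w ∈ Z, G.Adj (T.p x) w := fun w k => T.O_adj _ hq w (mem_W.1 (hZ w k).1).2.2.1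
  have cl : IsClq G (insert (T.p x) (insert x Z)) := fun a p b q => (h.W_clq hx xr).1 a
    (insert_subset_insert _ (insert_subset_insert _ fun w k => (hZ w k).1) p) b
    (insert_subset_insert _ (insert_subset_insert _ fun w k => (hZ w k).1) q)
  have c1 : (Z.filter fun w => G.Adj y w).card ≤ 1 := card_le_one.2 fun a p b q =>
    h.exit_one2 hx hy ng (hZ a (mem_filter.1 p).1).1 (hZ b (mem_filter.1 q).1).1 (mem_filter.1 p).2
      (mem_filter.1 q).2
  have c2 := card_filter_add_card_filter_not (s := Z) fun w => G.Adj y w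
  have tl : ∀ r ∈ insert (T.p x) (insert x Z), r ≠ x → r ∈ T.R ∧ x ∈ T.O r ∧ T.col r x = T.c x :=
    fun r p q => by
      simp only [mem_insert, q, false_or] at p
      rcases p with rfl | p
      exacts [⟨hq, h.par_O hx xr, col_p_self hx xr⟩,
        ⟨(W_d hx (hZ r p).1).1, (hZ r p).2, (mem_W.1 (hZ r p).1).2.2.2.1⟩]
  have sb : insert (T.p x) (Z.filter fun w => ¬ G.Adj y w) ⊆
      (insert (T.p x) (insert x Z)).erase x := fun r p => by
    rcases mem_insert.1 p with rfl | p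
    · simp [p_ne hx xr]
    · simp [(mem_filter.1 p).1, (mem_W.1 (hZ r (mem_filter.1 p).1).1).1.ne.symm]
  have ny : ∀ r ∈ insert (T.p x) (Z.filter fun w => ¬ G.Adj y w), ¬ G.Adj y r := fun r p => by
    rcases mem_insert.1 p with rfl | p
    exacts [fun k => ng k.symm, (mem_filter.1 p).2]
  obtain ⟨r, r1, r2, r3⟩ := h.pair4 cl (by simp) tl hz pz xy.symm (by
      simp only [mem_insert, not_or]
      exact ⟨O_ne_p hx (.inl hy), xy.ne.symm, fun k => ng (aq y k)⟩) nx uq dz sb ny (by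
      rw [card_insert_of_notMem fun k => (aq _ (mem_filter.1 k).1).ne rfl]
      omega)
  have t := tl r (mem_erase.1 (sb r1)).2 (mem_erase.1 (sb r1)).1
  exact ⟨r, insert_subset_insert _ (filter_subset _ _) r1, ny r r1, r2, r3,
    (rcv_pay (by simp) t.1 t.2.1 t.2.2 hz nx r2.1).resolve_right r3⟩

end IsB

/-- An open witness in the sense of `high`. -/
theorem Tr.Opn.op2 {T : Tr G D} {v u y a x : V} (o : T.Opn v u y a x) (n : ¬ T.PayT v u) :
    T.Op2 v u y a x :=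
  ⟨o.1, o.2.1, o.2.2.1, o.2.2.2.1, .inl o.2.2.2.2.1, fun m p q =>
    o.2.2.2.2.2.2 m p q fun r => absurd r n⟩

/-- P2, state form: both doubled neighbours of the hole `q` and `w` can take the colour of `u`. -/
theorem HC.p2_same (deg : ∀ v, (nb G v).card ≤ D + 1) (nc : ¬ Colr G D) {f : V → ℕ}
    {q u v v2 w : V} (h : HC G D q f) (qu : G.Adj q u) (qv : G.Adj q v) (qv2 : G.Adj q v2)
    (qw : G.Adj q w) (uv : G.Adj u v) (uv2 : G.Adj u v2) (uw : G.Adj u w) (ne : v ≠ v2)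
    (c : f v = f v2) (wv : w ≠ v) (wv2 : w ≠ v2) (h1 : Uq G f v u) (h2 : Uq G f v2 u)
    (h3 : Uq G f w u) : G.Adj v w ∨ G.Adj v2 w := by
  by_contra! k
  have uq := h.double nc (deg q) qv qv2 ne c qu uv.ne uv2.ne
  have wq := h.double nc (deg q) qv qv2 ne c qw wv wv2
  have s := h.shift qu.ne.symm uq
  have us := s.double nc (deg u) uv uv2 ne
    (by rw [shift_o uv.ne.symm qv.ne.symm, shift_o uv2.ne.symm qv2.ne.symm, c]) uw wv wv2
  have nv : ¬ G.Adj v v2 := fun p => h.ne p c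
  have := h.ne uw
  have := h.ne uv
  have := wq v qv wv.symm
  have := qu.ne
  have := qv.ne
  have := qv2.ne
  have := qw.ne
  have := uv.ne
  have := uv2.ne
  have := uw.ne
  refine h.fill (K := {q, u, v, v2, w}) nc (by simp)
    (fun m => if m = q then f v else if m = u then f w else f u) (fun m _ => ?_)
    (fun m p ⟨e, e1, e2, e3⟩ => ?_) fun a p b p' e => ?_
  · split_ifs
    exacts [h.lt v qv.ne.symm, h.lt w qw.ne.symm, h.lt u qu.ne.symm]
  · simp only [mem_insert, mem_singleton, not_or] at p e2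
    rcases p with rfl | rfl | rfl | rfl | rfl
    · exact h.double nc (deg m) qv qv2 ne c e1 e2.2.2.1 e2.2.2.2.1 v qv (Ne.symm e2.2.2.1)
        (by simpa using e3.symm)
    · refine us e e1 e2.2.2.2.2 ?_
      rw [shift_o e2.2.1 e2.1, shift_o uw.ne.symm qw.ne.symm]
      simpa [qu.ne.symm] using e3
    · exact h1 e e1 e2.2.1 (by simpa [qv.ne.symm, uv.ne.symm] using e3)
    · exact h2 e e1 e2.2.1 (by simpa [qv2.ne.symm, uv2.ne.symm] using e3)
    · exact h3 e e1 e2.2.1 (by simpa [qw.ne.symm, uw.ne.symm] using e3)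
  · have := e.symm
    have := e.ne
    simp only [mem_insert, mem_singleton] at p p'
    grind

end Pool.Agent.Lib.MP_12eaff_co.Acc
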