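import Pool.Agent.Lib.MP_12eaff_co.Acc.Defs

set_option autoImplicit false
set_option linter.unusedSectionVars false

namespace Pool.Agent.Lib.MP_12eaff_co.Acc

open Finset Pool.Agent.Lib.MP_12eaff_co.BK
open scoped Classical

variable {V : Type} [Fintype V]

/-- Growing level tree over a state space `St` with arcs `A` and successor `nx`. -/
structure PT {St : Type} (r : V) (s0 : St) (A : St → Finset V) (nx : St → V → St) where
  R : Finset V
  st : V → St
  p : V → V
  d : V → ℕ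
  r_mem : r ∈ R
  st_r : st r = s0
  d_r : d r = 0
  p_r : p r = r
  par : ∀ v ∈ R, v ≠ r → p v ∈ R ∧ d v = d (p v) + 1 ∧ v ∈ A (st (p v)) ∧ st v = nx (st (p v)) v
  hI : ∀ v ∈ R, ∀ u ∈ A (st v), u ∈ R → d u ≤ d v + 1
  hJ : ∀ w ∈ R, ∀ v ∈ R, (∃ u ∈ A (st v), u ∉ R) → d w ≤ d v + 1

theorem PT.grow {St : Type} {r : V} {s0 : St} {A : St → Finset V} {nx : St → V → St}
    (P : PT r s0 A nx) (h : ∃ v ∈ P.R, ∃ u ∈ A (P.st v), u ∉ P.R) :
    ∃ Q : PT r s0 A nx, Q.R.card = P.R.card + 1 := by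
  obtain ⟨v, hv, hmin⟩ := exists_min_image (P.R.filter (fun v => ∃ u ∈ A (P.st v), u ∉ P.R)) P.d
    (by obtain ⟨v, hv, h⟩ := h; exact ⟨v, mem_filter.2 ⟨hv, h⟩⟩)
  obtain ⟨hv, u, hu, huR⟩ := mem_filter.1 hv
  have hne : ∀ x ∈ P.R, x ≠ u := fun x hx e => huR (e ▸ hx)
  have hm : ∀ x ∈ P.R, (∃ y ∈ A (P.st x), y ∉ P.R) → P.d v ≤ P.d x :=
    fun x hx h => hmin x (mem_filter.2 ⟨hx, h⟩)
  have hJv : ∀ w ∈ P.R, P.d w ≤ P.d v + 1 := fun w hw => P.hJ w hw v hv ⟨u, hu, huR⟩
  refine ⟨⟨insert u P.R, Function.update P.st u (nx (P.st v) u), Function.update P.p u v,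
    Function.update P.d u (P.d v + 1), mem_insert_of_mem P.r_mem, ?_, ?_, ?_, ?_, ?_, ?_⟩,
    card_insert_of_notMem huR⟩
  · rw [Function.update_of_ne (hne _ P.r_mem), P.st_r]
  · rw [Function.update_of_ne (hne _ P.r_mem), P.d_r]
  · rw [Function.update_of_ne (hne _ P.r_mem), P.p_r]
  · intro x hx hr
    rcases mem_insert.1 hx with rfl | hx
    · simp only [Function.update_self, Function.update_of_ne (hne _ hv)]
      exact ⟨mem_insert_of_mem hv, trivial, hu, trivial⟩
    · obtain ⟨h1, h2, h3, h4⟩ := P.par x hx hr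
      simp only [Function.update_of_ne (hne _ hx), Function.update_of_ne (hne _ h1)]
      exact ⟨mem_insert_of_mem h1, h2, h3, h4⟩
  · intro x hx0 y hy hyR
    rcases mem_insert.1 hx0 with rfl | hx
    · rcases mem_insert.1 hyR with rfl | hyR
      · omega
      · simp only [Function.update_self, Function.update_of_ne (hne _ hyR)]
        have := hJv y hyR; omega
    · rw [Function.update_of_ne (hne _ hx)] at hy ⊢
      rcases mem_insert.1 hyR with rfl | hyR
      · rw [Function.update_self]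
        have := hm x hx ⟨y, hy, huR⟩; omega
      · rw [Function.update_of_ne (hne _ hyR)]
        exact P.hI x hx y hy hyR
  · rintro w hw x hx0 ⟨y, hy, hyR⟩
    have hyR' : y ∉ P.R := fun h => hyR (mem_insert_of_mem h)
    rcases mem_insert.1 hx0 with rfl | hx
    · rcases mem_insert.1 hw with rfl | hw
      · omega
      · simp only [Function.update_self, Function.update_of_ne (hne _ hw)]
        have := hJv w hw; omega
    · rw [Function.update_of_ne (hne _ hx)] at hy ⊢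
      rcases mem_insert.1 hw with rfl | hw
      · rw [Function.update_self]
        have := hm x hx ⟨y, hy, hyR'⟩; omega
      · rw [Function.update_of_ne (hne _ hw)]
        exact P.hJ w hw x hx ⟨y, hy, hyR'⟩

theorem PT.closed {St : Type} (r : V) (s0 : St) (A : St → Finset V) (nx : St → V → St) :
    ∃ P : PT r s0 A nx, ∀ v ∈ P.R, ∀ u ∈ A (P.st v), u ∈ P.R := by
  have key : ∀ k, ∀ P : PT r s0 A nx, Fintype.card V ≤ P.R.card + k →
      ∃ Q : PT r s0 A nx, ∀ v ∈ Q.R, ∀ u ∈ A (Q.st v), u ∈ Q.R := by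
    intro k
    induction k with
    | zero =>
      intro P h
      have : P.R = univ := eq_univ_of_card _ (le_antisymm (card_le_univ _) h)
      exact ⟨P, fun v _ u _ => this ▸ mem_univ u⟩
    | succ k ih =>
      intro P h
      by_cases hc : ∃ v ∈ P.R, ∃ u ∈ A (P.st v), u ∉ P.R
      · obtain ⟨Q, hQ⟩ := P.grow hc
        exact ih Q (by omega)
      · push Not at hc
        exact ⟨P, hc⟩
  refine key (Fintype.card V) ⟨{r}, fun _ => s0, fun _ => r, fun _ => 0, mem_singleton_self r,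
    rfl, rfl, rfl, ?_, ?_, ?_⟩ (by omega)
  · intro v hv hr; exact absurd (mem_singleton.1 hv) hr
  · intros; omega
  · intros; omega

/-- Selection rules: states with hole, parent, colouring, chosen real and virtual shifts. -/
structure Rules (G : SimpleGraph V) (D : ℕ) (St : Type) where
  hole : St → V
  par : St → V
  f : St → V → ℕ
  O : St → Finset V
  X : St → Finset V
  nx : St → V → St
  O_adj : ∀ s, ∀ u ∈ O s, G.Adj (hole s) u
  X_nadj : ∀ s, ∀ u ∈ X s, ¬ G.Adj (hole s) u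
  lt : ∀ s u, u ∈ O s ∨ u ∈ X s → f s u < D
  uniq : ∀ s u, u ∈ O s ∨ u ∈ X s → ∀ m, G.Adj (hole s) m → m ≠ u → f s m ≠ f s u
  ne_p : ∀ s u, u ∈ O s ∨ u ∈ X s → f s u ≠ f s (par s)
  nx_hole : ∀ s u, u ∈ O s ∨ u ∈ X s → hole (nx s u) = u
  nx_par : ∀ s u, u ∈ O s ∨ u ∈ X s → par (nx s u) = hole s
  nx_f : ∀ s u, u ∈ O s ∨ u ∈ X s → f (nx s u) = shift D (f s) (hole s) u

/-- A level tree exists for all selection rules and every start state. -/
theorem Rules.exists_tr {G : SimpleGraph V} {D : ℕ} {St : Type} (M : Rules G D St) (s0 : St)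
    (h1 : M.par s0 = M.hole s0) (h2 : M.f s0 (M.hole s0) = D) (h3 : PCol G D (M.f s0)) :
    ∃ (T : Tr G D) (st : V → St), T.r = M.hole s0 ∧ T.c = M.f s0 ∧ st T.r = s0 ∧
      (∀ v ∈ T.R, M.hole (st v) = v ∧ M.par (st v) = T.p v ∧ M.f (st v) = T.col v ∧
        M.O (st v) = T.O v ∧ M.X (st v) = T.X v) ∧
      ∀ v ∈ T.R, v ≠ T.r → st v = M.nx (st (T.p v)) v := by
  obtain ⟨P, hP⟩ := PT.closed (M.hole s0) s0 (fun s => M.O s ∪ M.X s) M.nx
  have hh : ∀ v ∈ P.R, M.hole (P.st v) = v := by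
    intro v hv
    by_cases hr : v = M.hole s0
    · rw [hr, P.st_r]
    · obtain ⟨_, _, h5, h6⟩ := P.par v hv hr
      rw [h6, M.nx_hole _ _ (mem_union.1 h5)]
  have hp : ∀ v ∈ P.R, M.par (P.st v) = P.p v := by
    intro v hv
    by_cases hr : v = M.hole s0
    · rw [hr, P.st_r, P.p_r, h1]
    · obtain ⟨h4, _, h5, h6⟩ := P.par v hv hr
      rw [h6, M.nx_par _ _ (mem_union.1 h5), hh _ h4]
  refine ⟨⟨P.R, M.hole s0, M.f s0, P.p, P.d, fun v => M.f (P.st v), fun v => M.O (P.st v),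
    fun v => M.X (P.st v), P.r_mem, P.d_r, P.p_r, h2, by simp only [P.st_r], h3,
    fun v hv hr => (P.par v hv hr).1, fun v hv hr => (P.par v hv hr).2.1,
    fun v hv hr => mem_union.1 (P.par v hv hr).2.2.1, ?_, ?_, ?_, fun v _ u hu => M.lt _ u hu,
    ?_, ?_, ?_⟩, P.st, rfl, rfl, P.st_r, fun v hv => ⟨hh v hv, hp v hv, rfl, rfl, rfl⟩,
    fun v hv hr => (P.par v hv hr).2.2.2⟩
  · intro v hv hr
    obtain ⟨h4, _, h5, h6⟩ := P.par v hv hr
    simp only [h6, M.nx_f _ _ (mem_union.1 h5), hh _ h4]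
  · intro v hv u hu
    have := M.O_adj _ u hu
    rwa [hh v hv] at this
  · intro v hv u hu
    have := M.X_nadj _ u hu
    rwa [hh v hv] at this
  · intro v hv u hu m hm
    exact M.uniq _ u hu m (by rwa [hh v hv])
  · intro v hv u hu
    have := M.ne_p _ u hu
    rwa [hp v hv] at this
  · intro v hv u hu
    have := hP v hv u (mem_union.2 hu)
    exact ⟨this, P.hI v hv u (mem_union.2 hu) this⟩

/-- Dropping non-tree arcs. -/
noncomputable def Tr.drop {G : SimpleGraph V} {D : ℕ} (T : Tr G D) (O' X' : V → Finset V)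
    (hO : ∀ v, O' v ⊆ T.O v) (hX : ∀ v, X' v ⊆ T.X v)
    (hc : ∀ v ∈ T.R, v ≠ T.r → v ∈ O' (T.p v) ∨ v ∈ X' (T.p v)) : Tr G D :=
  { T with
    O := O'
    X := X'
    arc_p := hc
    O_adj := fun v hv u hu => T.O_adj v hv u (hO v hu)
    X_nadj := fun v hv u hu => T.X_nadj v hv u (hX v hu)
    lt := fun v hv u hu => T.lt v hv u (hu.imp (fun h => hO v h) (fun h => hX v h))
    uniq := fun v hv u hu => T.uniq v hv u (hu.imp (fun h => hO v h) (fun h => hX v h))
    ne_p := fun v hv u hu => T.ne_p v hv u (hu.imp (fun h => hO v h) (fun h => hX v h))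
    clo := fun v hv u hu => T.clo v hv u (hu.imp (fun h => hO v h) (fun h => hX v h)) }

end Pool.Agent.Lib.MP_12eaff_co.Acc
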