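import Pool.Agent.Lib.MP_12eaff_co.Blk

set_option autoImplicit false
set_option linter.unusedSectionVars false

namespace Pool.Agent.Lib.MP_12eaff_co.Acc

open Finset Pool.Agent.Lib.MP_12eaff_co.BK
open scoped Classical

variable {V : Type} [Fintype V] {G : SimpleGraph V} {D : ℕ} {c : V → ℕ} {e y y2 w w' w2 : V}

/-- `y`, `y2` are two neighbours of `e` with one colour. -/
structure Twin (G : SimpleGraph V) (c : V → ℕ) (e y y2 : V) : Prop where
  a1 : G.Adj e y
  a2 : G.Adj e y2
  ne : y ≠ y2
  eq : c y = c y2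

/-- `w` is a landing of `y`: the two can exchange colours and `w` is not seen by the hole `e`. -/
structure Land (G : SimpleGraph V) (c : V → ℕ) (e y w : V) : Prop where
  adj : G.Adj y w
  off : ¬ G.Adj e w
  ne : w ≠ e
  u1 : Uq G c w y
  u2 : Uq G c y w

theorem Twin.symm (p : Twin G c e y y2) : Twin G c e y2 y := ⟨p.a2, p.a1, p.ne.symm, p.eq.symm⟩

theorem Land.nadj (p : Twin G c e y y2) (l : Land G c e y w) : ¬ G.Adj y2 w :=
  fun a => l.u1 y2 a.symm p.ne.symm p.eq.symm

theorem Land.col_ne (l : Land G c e y w) (l' : Land G c e y w') (n : w ≠ w') : c w ≠ c w' :=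
  l'.u2 w l.adj n

namespace HC

theorem twin_nadj (h : HC G D e c) (p : Twin G c e y y2) : ¬ G.Adj y2 y :=
  fun a => h.ne a p.eq.symm

theorem land_swap (h : HC G D e c) (p : Twin G c e y y2) (l : Land G c e y w) :
    HC G D e (c ∘ Equiv.swap y w) := h.swap' p.a1.ne.symm l.ne l.u2 l.u1

theorem land_y2 (p : Twin G c e y y2) (l : Land G c e y w) : (c ∘ Equiv.swap y w) y2 = c y2 := by
  simp [Equiv.swap_apply_of_ne_of_ne p.ne.symm (fun z : y2 = w => l.off (z ▸ p.a2))]

/-- After the exchange the partner is unique at the hole. -/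
theorem land_uq (deg : ∀ v, (nb G v).card ≤ D + 1) (nc : ¬ Colr G D) (h : HC G D e c)
    (p : Twin G c e y y2) (l : Land G c e y w) : Uq G (c ∘ Equiv.swap y w) e y2 := by
  intro m a n
  rw [land_y2 p l]
  by_cases z : m = y
  · simpa [z, ← p.eq] using (h.ne l.adj).symm
  · have z' : m ≠ w := fun k => l.off (k ▸ a)
    simpa [Equiv.swap_apply_of_ne_of_ne z z'] using
      (h.double nc (deg e) p.a1 p.a2 p.ne p.eq a z n y2 p.a2 (Ne.symm n)).symm

/-- Neighbours of the partner keep their colours. -/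
theorem land_nb (h : HC G D e c) (p : Twin G c e y y2) (l : Land G c e y w) {m : V}
    (a : G.Adj y2 m) : (c ∘ Equiv.swap y w) m = c m := by
  simp [Equiv.swap_apply_of_ne_of_ne (fun z : m = y => h.twin_nadj p (z ▸ a))
    (fun z : m = w => l.nadj p (z ▸ a))]

/-- SW (a): if `y` has a landing, its partner sees every other colour. -/
theorem sw_sees (deg : ∀ v, (nb G v).card ≤ D + 1) (nc : ¬ Colr G D) (h : HC G D e c)
    (p : Twin G c e y y2) (l : Land G c e y w) {κ : ℕ} (k : κ < D) (n : κ ≠ c y2) :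
    ∃ m, G.Adj y2 m ∧ c m = κ := by
  obtain ⟨m, a, b⟩ := (h.land_swap p l).uq_sees nc p.a2.ne.symm (h.land_uq deg nc p l) k
    (by rwa [land_y2 p l])
  exact ⟨m, a, by rwa [h.land_nb p l a] at b⟩

/-- Landings of the two members of the pair are adjacent. -/
theorem sw_adj (deg : ∀ v, (nb G v).card ≤ D + 1) (nc : ¬ Colr G D) (h : HC G D e c)
    (p : Twin G c e y y2) (l : Land G c e y w) (l2 : Land G c e y2 w2) : G.Adj w w2 := by
  by_contra n
  have s := h.land_swap p l
  have u := h.land_uq deg nc p l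
  have e2 := h.land_nb p l l2.adj
  have s2 := s.swap' p.a2.ne.symm l2.ne (fun m a b => by
      rw [e2, h.land_nb p l a]; exact l2.u2 m a b) (fun m a b => by
      rw [land_y2 p l]
      have z : m ≠ y := fun z => l2.nadj p.symm (z ▸ a.symm)
      have z' : m ≠ w := fun z => n (z ▸ a.symm)
      simpa [Equiv.swap_apply_of_ne_of_ne z z'] using l2.u1 m a b)
  obtain ⟨m, a, b⟩ := s2.sees nc (h.lt y2 p.a2.ne.symm)
  by_cases z : m = y2
  · rw [z, Function.comp_apply, Equiv.swap_apply_left, e2] at b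
    exact h.ne l2.adj b.symm
  · rw [Function.comp_apply, Equiv.swap_apply_of_ne_of_ne z fun k : m = w2 => l2.off (k ▸ a)] at b
    exact u m a z (b.trans (land_y2 p l).symm)

/-- The hole runs to the landing of the partner. -/
theorem sw_run (deg : ∀ v, (nb G v).card ≤ D + 1) (nc : ¬ Colr G D) (h : HC G D e c)
    (p : Twin G c e y y2) (l : Land G c e y w) (l2 : Land G c e y2 w2) {κ : ℕ} (k : κ < D)
    (n : κ ≠ c y) (n2 : κ ≠ c w2) : ∃ m, G.Adj w2 m ∧ m ≠ y2 ∧ m ≠ w ∧ c m = κ := by
  have s1 := (h.land_swap p l).shift p.a2.ne.symm (h.land_uq deg nc p l)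
  set g := c ∘ Equiv.swap y w with hg
  have v1 : ∀ m, m ≠ y2 → m ≠ e → Acc.shift D g e y2 m = g m := fun m a b => by
    simp [Acc.shift, Function.update_of_ne a, Function.update_of_ne b]
  have e2 : Acc.shift D g e y2 w2 = c w2 := by
    rw [v1 w2 l2.adj.ne.symm l2.ne]; exact h.land_nb p l l2.adj
  have s2 := s1.shift l2.adj.ne.symm (fun m a b => by
    rw [e2]
    by_cases z : m = e
    · have : Acc.shift D g e y2 e = c y2 := by
        simp only [Acc.shift, Function.update_of_ne p.a2.ne, Function.update_self]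
        exact land_y2 p l
      rw [z, this]; exact h.ne l2.adj
    · rw [v1 m a.ne.symm z, hg, h.land_nb p l a]; exact l2.u2 m a b)
  obtain ⟨m, a, b⟩ := s2.sees nc k
  have z1 : m ≠ y2 := fun z => by
    rw [z, Acc.shift, Function.update_of_ne l2.adj.ne, Function.update_self, e2] at b
    exact n2 b.symm
  rw [Acc.shift, Function.update_of_ne a.ne.symm, Function.update_of_ne z1,
    v1 m z1 fun z => l2.off (z ▸ a.symm)] at b
  have z2 : m ≠ w := fun z => n (by simpa [hg, z] using b.symm)
  have z3 : m ≠ y := fun z => l2.nadj p.symm (z ▸ a.symm)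
  exact ⟨m, a, z1, z2, by simpa [hg, Equiv.swap_apply_of_ne_of_ne z3 z2] using b⟩

/-- SW (b): if `y` has three landings, its partner has none. -/
theorem sw_three (deg : ∀ v, (nb G v).card ≤ D + 1) (nc : ¬ Colr G D) (h : HC G D e c)
    (p : Twin G c e y y2) {L : Finset V} (h3 : 3 ≤ L.card) (hL : ∀ w ∈ L, Land G c e y w) :
    ¬ Land G c e y2 w2 := fun l2 => by
  have n2 : y2 ∉ L := fun k => (hL y2 k).off p.a2
  have a1 := card_le_card (s := range D \ {c y, c w2})
    (t := (nb G w2 \ insert y2 L).image c) fun κ k => by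
      simp only [mem_sdiff, mem_range, mem_insert, mem_singleton, not_or] at k
      have key : ∀ w ∈ L, (∀ v ∈ L, c v = κ → v = w) → κ ∈ (nb G w2 \ insert y2 L).image c :=
        fun w hw q => by
          obtain ⟨m, a, b, d, f⟩ := h.sw_run deg nc p (hL w hw) l2 k.1 k.2.1 k.2.2
          exact mem_image.2 ⟨m, by simpa [a, b] using fun z => d (q m z f), f⟩
      by_cases z : ∃ w ∈ L, c w = κ
      · obtain ⟨w, hw, f⟩ := z
        exact key w hw fun v hv q => by
          by_contra r
          exact (hL v hv).col_ne (hL w hw) r (q.trans f.symm)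
      · obtain ⟨w, hw⟩ := card_pos.1 (by omega : 0 < L.card)
        exact key w hw fun v hv q => absurd ⟨v, hv, q⟩ z
  have a2 := card_sdiff_add_card_eq_card (s := insert y2 L) (t := nb G w2) fun m k => by
    rcases mem_insert.1 k with z | z
    · exact mem_nb.2 (z ▸ l2.adj.symm)
    · exact mem_nb.2 (h.sw_adj deg nc p (hL m z) l2).symm
  have := card_image_le (s := nb G w2 \ insert y2 L) (f := c)
  have := le_card_sdiff {c y, c w2} (range D)
  have := card_le_two (a := c y) (b := c w2)
  have := deg w2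
  rw [card_insert_of_notMem n2] at a2
  rw [card_range] at *
  omega

/-- SW (c): if `y` has two landings, a neighbour of the partner that is unique at the partner and
not seen by the hole cannot be recoloured. -/
theorem sw_recol (deg : ∀ v, (nb G v).card ≤ D + 1) (nc : ¬ Colr G D) (h : HC G D e c)
    (p : Twin G c e y y2) (l : Land G c e y w) (l' : Land G c e y w') (n : w ≠ w')
    (a : G.Adj y2 w2) (o : ¬ G.Adj e w2) (n2 : w2 ≠ e) (u : Uq G c y2 w2) {μ : ℕ} (k : μ < D)
    (n3 : μ ≠ c w2) : ∃ m, G.Adj w2 m ∧ c m = μ := by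
  by_contra! z
  have key : ∀ w, Land G c e y w → c w = μ := fun w l => by
    by_contra q
    have s := (h.land_swap p l).recol n2 k fun m b => by
      by_cases z1 : m = y
      · simpa [z1] using q
      by_cases z2 : m = w
      · simpa [z2, p.eq] using z y2 a.symm
      · simpa [Equiv.swap_apply_of_ne_of_ne z1 z2] using z m b
    have e1 : Function.update (c ∘ Equiv.swap y w) w2 μ y2 = c y2 := by
      rw [Function.update_of_ne a.ne, land_y2 p l]
    obtain ⟨m, b, d⟩ := s.uq_sees nc p.a2.ne.symm (fun m b d => by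
      rw [Function.update_of_ne a.ne, Function.update_of_ne fun z : m = w2 => o (z ▸ b)]
      exact h.land_uq deg nc p l m b d) (h.lt w2 n2) (by rw [e1]; exact (h.ne a).symm)
    by_cases z1 : m = w2
    · rw [z1, Function.update_self] at d; exact n3 d
    · rw [Function.update_of_ne z1, h.land_nb p l b] at d; exact u m b z1 d
  exact l.col_ne l' n ((key w l).trans (key w' l').symm)

end HC

variable {K : Finset V} {x : V}

/-- The colour `γ` of `K - x` can be put on a member that is not adjacent to `e` by a permutation of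
the colours of `K - x`. -/
def Place (G : SimpleGraph V) (c : V → ℕ) (K : Finset V) (x e : V) (γ : ℕ) : Prop :=
  ∃ f : V → ℕ, (∀ w ∈ K.erase x, f w ∈ (K.erase x).image c ∧ ¬ Sees G K c w (f w)) ∧
    Set.InjOn f (K.erase x) ∧ ∃ w ∈ K.erase x, ¬ G.Adj e w ∧ f w = γ

namespace HC

theorem nsees_self (h : HC G D x c) (w : V) : ¬ Sees G K c w (c w) :=
  fun ⟨_, a, _, b⟩ => h.ne a b.symm

theorem place_perm (h : HC G D x c) (hK : IsClq G K) (σ : Equiv.Perm V)
    (s : ∀ w ∈ K.erase x, σ w ∈ K.erase x ∧ ¬ Sees G K c w (c (σ w))) (hw : w ∈ K.erase x)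
    (n : ¬ G.Adj e w) : Place G c K x e (c (σ w)) :=
  ⟨c ∘ σ, fun v k => ⟨mem_image_of_mem c (s v k).1, (s v k).2⟩, fun u a v b q => σ.injective
    (h.inj hK (mem_of_mem_erase (s u a).1) (mem_of_mem_erase (s v b).1) q), w, hw, n, rfl⟩

theorem place_self (h : HC G D x c) (hK : IsClq G K) (hw : w ∈ K.erase x) (n : ¬ G.Adj e w) :
    Place G c K x e (c w) := h.place_perm hK 1 (fun v k => ⟨k, h.nsees_self v⟩) hw n

theorem place_swap (h : HC G D x c) (hK : IsClq G K) (hw : w ∈ K.erase x) (n : ¬ G.Adj e w)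
    {u : V} (hu : u ∈ K.erase x) (s1 : ¬ Sees G K c w (c u)) (s2 : ¬ Sees G K c u (c w)) :
    Place G c K x e (c u) := by
  have := h.place_perm hK (Equiv.swap w u) (fun v k => ?_) hw n
  · rwa [Equiv.swap_apply_left] at this
  · rw [Equiv.swap_apply_def]
    split_ifs with a b
    exacts [⟨hu, a ▸ s1⟩, ⟨hw, b ▸ s2⟩, ⟨k, h.nsees_self v⟩]

theorem place_cyc (h : HC G D x c) (hK : IsClq G K) (hw : w ∈ K.erase x) (n : ¬ G.Adj e w)
    {u v : V} (hu : u ∈ K.erase x) (hv : v ∈ K.erase x) (n1 : w ≠ u) (n2 : w ≠ v) (n3 : u ≠ v)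
    (s1 : ¬ Sees G K c w (c u)) (s2 : ¬ Sees G K c u (c v)) (s3 : ¬ Sees G K c v (c w)) :
    Place G c K x e (c u) := by
  have q1 : (Equiv.swap w v * Equiv.swap w u) w = u := by
    simp [Equiv.swap_apply_of_ne_of_ne n1.symm n3]
  have := h.place_perm hK (Equiv.swap w v * Equiv.swap w u) (fun m k => ?_) hw n
  · rwa [q1] at this
  · by_cases a : m = w
    · rw [a, q1]; exact ⟨hu, s1⟩
    by_cases b : m = u
    · simpa [b] using ⟨by simpa using hv, s2⟩
    by_cases d : m = v
    · simpa [d, Equiv.swap_apply_of_ne_of_ne n2.symm n3.symm] using ⟨by simpa using hw, s3⟩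
    · simpa [Equiv.swap_apply_of_ne_of_ne a b, Equiv.swap_apply_of_ne_of_ne a d] using
        ⟨by simpa using k, h.nsees_self m⟩

/-- The hole leaves the clique through `e` after any recolouring `f` of the other members. -/
theorem exit_sees (nc : ¬ Colr G D) (h : HC G D x c) (hx : x ∈ K) (he : e ∉ K) (a : G.Adj x e)
    (u : Uq G c x e) (f : V → ℕ)
    (f0 : ∀ w ∈ K.erase x, f w < D ∧ f w ≠ c e ∧ ¬ Sees G K c w (f w))
    (f2 : Set.InjOn f (K.erase x)) {γ : ℕ} (k : γ < D) (n1 : γ ≠ c e)
    (n2 : ∀ w ∈ K.erase x, G.Adj e w → f w ≠ γ) : Sees G K c e γ := by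
  have le := h.lt e a.ne.symm
  have sv : ∀ v, v ∉ K → v ≠ e → Acc.shift D c x e v = c v := fun v p q => by
    simp [Acc.shift, Function.update_of_ne q, Function.update_of_ne fun z : v = x => p (z ▸ hx)]
  have s1 := h.shift a.ne.symm u
  have lt : ∀ w ∈ K, Function.update f x (c e) w < D := fun w p => by
    by_cases z : w = x
    · rwa [z, Function.update_self]
    · rw [Function.update_of_ne z]; exact (f0 w (mem_erase.2 ⟨z, p⟩)).1
  have s := s1.put he (Function.update f x (c e)) lt (fun w p ⟨m, m1, m2, m3⟩ => by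
      have q : m ≠ e := fun z => (lt w p).ne' (by rw [← m3, z, s1.hole])
      rw [sv m m2 q] at m3
      by_cases z : w = x
      · rw [z, Function.update_self] at m3; exact u m (z ▸ m1) q m3
      · rw [Function.update_of_ne z] at m3
        exact (f0 w (mem_erase.2 ⟨z, p⟩)).2.2 ⟨m, m1, m2, m3⟩) fun v p w q r => by
      by_cases z : v = x
      · have z' : w ≠ x := fun z' => r.ne (z.trans z'.symm)
        rw [z, Function.update_self, Function.update_of_ne z']
        exact (f0 w (mem_erase.2 ⟨z', q⟩)).2.1.symm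
      rw [Function.update_of_ne z]
      by_cases z' : w = x
      · rw [z', Function.update_self]; exact (f0 v (mem_erase.2 ⟨z, p⟩)).2.1
      · rw [Function.update_of_ne z']
        exact fun t => r.ne (f2 (mem_coe.2 (mem_erase.2 ⟨z, p⟩)) (mem_coe.2 (mem_erase.2 ⟨z', q⟩)) t)
  obtain ⟨m, m1, m2⟩ := s.sees nc k
  by_cases p : m ∈ K
  · rw [if_pos p] at m2
    by_cases z : m = x
    · rw [z, Function.update_self] at m2; exact absurd m2.symm n1
    · rw [Function.update_of_ne z] at m2; exact absurd m2 (n2 m (mem_erase.2 ⟨z, p⟩) m1)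
  · rw [if_neg p, sv m p m1.ne.symm] at m2
    exact ⟨m, m1, p, m2⟩

theorem exit_place (nc : ¬ Colr G D) (h : HC G D x c) (hK : IsClq G K) (hx : x ∈ K) (he : e ∉ K)
    (a : G.Adj x e) (u : Uq G c x e) {γ : ℕ} (p : Place G c K x e γ) :
    γ ∈ (K.erase x).image c ∧ Sees G K c e γ := by
  obtain ⟨f, f1, f2, w, w1, w2, rfl⟩ := p
  have q : ∀ v ∈ K.erase x, f v < D ∧ f v ≠ c e := fun v k => by
    obtain ⟨m, m1, m2⟩ := mem_image.1 (f1 v k).1
    obtain ⟨m3, m4⟩ := mem_erase.1 m1
    exact m2 ▸ ⟨h.lt m m3, u m (hK x hx m m4 m3.symm) fun z => he (z ▸ m4)⟩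
  exact ⟨(f1 w w1).1, h.exit_sees nc hx he a u f (fun v k => ⟨(q v k).1, (q v k).2, (f1 v k).2⟩) f2
    (q w w1).1 (q w w1).2 fun v k b t => w2 (f2 (mem_coe.2 k) (mem_coe.2 w1) t ▸ b)⟩

/-- EXIT bound: neighbours of the exit in `K - x` plus placeable colours are at most `|K|`. -/
theorem exit_gen (deg : ∀ v, (nb G v).card ≤ D + 1) (nc : ¬ Colr G D) (h : HC G D x c)
    (hK : IsClq G K) (hx : x ∈ K) (he : e ∉ K) (a : G.Adj x e) (u : Uq G c x e) (P : Finset ℕ)
    (hP : ∀ γ ∈ P, Place G c K x e γ) :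
    ((K.erase x).filter (G.Adj e)).card + P.card ≤ K.card := by
  have cq : IsClq G (K.erase x) := fun v p w q => hK v (mem_of_mem_erase p) w (mem_of_mem_erase q)
  have ne : ∀ v ∈ K.erase x, c v ≠ c e := fun v k =>
    u v (hK x hx v (mem_of_mem_erase k) (ne_of_mem_erase k).symm)
      fun z => he (z ▸ mem_of_mem_erase k)
  have a0 := h.card_abs cq (notMem_erase x K)
  have me : c e ∈ Abs D c (K.erase x) := mem_Abs.2 ⟨h.lt e a.ne.symm, ne⟩
  have a1 := card_erase_add_one me
  have a2 := card_erase_add_one hx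
  have a3 := card_union_of_disjoint (s := P) (t := (Abs D c (K.erase x)).erase (c e))
    (disjoint_left.2 fun γ p q => by
      obtain ⟨m, m1, m2⟩ := mem_image.1 (h.exit_place nc hK hx he a u (hP γ p)).1
      exact (mem_Abs.1 (mem_of_mem_erase q)).2 m m1 m2)
  have a4 := (card_le_card (s := P ∪ (Abs D c (K.erase x)).erase (c e))
    (t := (nb G e \ K).image c) fun γ k => by
      have : Sees G K c e γ := by
        rcases mem_union.1 k with p | q
        · exact (h.exit_place nc hK hx he a u (hP γ p)).2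
        · have q2 := mem_Abs.1 (mem_of_mem_erase q)
          exact h.exit_sees nc hx he a u c
            (fun v k => ⟨h.lt v (ne_of_mem_erase k), ne v k, h.nsees_self v⟩) (h.inj cq) q2.1
            (ne_of_mem_erase q) fun v k _ => q2.2 v k
      obtain ⟨m, m1, m2, rfl⟩ := this
      exact mem_image_of_mem c (by simp [m1, m2])).trans card_image_le
  have a5 := card_le_card (s := insert x ((K.erase x).filter (G.Adj e))) (t := nb G e ∩ K)
    fun m k => by
      rcases mem_insert.1 k with z | z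
      · simp [z, a.symm, hx]
      · simp [(mem_filter.1 z).2, mem_of_mem_erase (mem_filter.1 z).1]
  rw [card_insert_of_notMem (by simp)] at a5
  have := card_sdiff_add_card_inter (nb G e) K
  have := deg e
  omega

end HC

end Pool.Agent.Lib.MP_12eaff_co.Acc
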