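import Pool.Agent.Lib.MP_12eaff_co.Acc.Pair
import Pool.Agent.Lib.MP_12eaff_co.Acc.Sw

set_option autoImplicit false
set_option linter.unusedSectionVars false

namespace Pool.Agent.Lib.MP_12eaff_co.Acc

open Finset Pool.Agent.Lib.MP_12eaff_co.BK
open scoped Classical

variable {V : Type} [Fintype V] {G : SimpleGraph V} {D : ℕ}

/-- A hole with four neighbours in a clique misses at most one member. -/
theorem HC.hang4 (deg : ∀ v, (nb G v).card ≤ D + 1) (nc : ¬ Colr G D) {f : V → ℕ} {b w w' : V}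
    {K : Finset V} (h : HC G D b f) (hK : IsClq G K) (hb : b ∉ K)
    (c4 : 4 ≤ (K.filter (G.Adj b)).card) (hw : w ∈ K) (hw' : w' ∈ K) (n : ¬ G.Adj b w)
    (n' : ¬ G.Adj b w') : w = w' := by
  have c1 : ((K.filter (G.Adj b)).filter fun z => ¬ Uq G f b z).card ≤ 1 :=
    card_le_one.2 fun s p t q => by
      simp only [mem_filter, Uq, not_forall, not_not] at p q
      obtain ⟨⟨p1, p2⟩, m, m1, m2, m3⟩ := p
      obtain ⟨⟨q1, q2⟩, m', n1, n2, n3⟩ := q
      rcases h.dbl2 deg nc p2 m1 q2 n1 (Ne.symm m2) (Ne.symm n2) m3.symm n3.symm with z | z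
      exacts [z.symm, h.inj hK p1 q1 (by rw [z, m3])]
  have c2 := card_filter_add_card_filter_not (s := K.filter (G.Adj b)) fun z => Uq G f b z
  exact h.hanger deg nc hK hb (Z := (K.filter (G.Adj b)).filter fun z => Uq G f b z)
    ((filter_subset _ _).trans (filter_subset _ _)) (by omega)
    (fun z k => ⟨(mem_filter.1 (mem_filter.1 k).1).2, (mem_filter.1 k).2⟩) hw hw' n n'

namespace IsB

variable {T : Tr G D} {x y b w w' w0 : V} {K : Finset V}

open Tr IsA

/-- In its own state the clique of a head with a tail is blocked by the absent colours only. -/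
theorem own_abs (h : IsB T) (hx : x ∈ T.R) (h0 : w0 ∈ W T x) :
    ∀ w ∈ insert (T.p x) (insert x (W T x)), ∀ γ ∈ Abs D (T.col x)
      (insert (T.p x) (insert x (W T x))), Sees G (insert (T.p x) (insert x (W T x))) (T.col x) w γ := by
  obtain ⟨a0, xr, a2, -⟩ := mem_W.1 h0
  have hq := T.p_mem x hx xr
  refine ((h.hc hx).blocked h.deg h.ncol (h.W_clq hx xr).1 (by simp)).resolve_right
    fun ⟨r, r1, r2, r3⟩ => ?_
  simp only [mem_insert, r2, false_or] at r1
  rcases r1 with rfl | r1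
  · obtain ⟨m, m1, m2, m3⟩ := (r3 w0 (by simp [h0]) (T.O_adj _ hq w0 a2).ne.symm).1
    simp only [mem_insert, not_or] at m2
    exact W_uq hx h0 m m1 m2.2.1
      (by rw [← col_step hx xr m2.2.1 m2.1, m3, col_par hx xr, col_p_self hx xr])
  · have o := (mem_W.1 r1).2.2.1
    have a := T.O_adj _ hq r o
    obtain ⟨m, m1, m2, m3⟩ := (r3 _ (by simp) a.ne).1
    simp only [mem_insert, not_or] at m2
    exact h.uq_O hq o m m1 (fun e => m2.2.2 (e ▸ r1))
      (by rw [← col_step hx xr m2.2.1 m2.1, m3, col_step hx xr r2 a.ne.symm])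

/-- G0: an exit that misses a tail has the parent doubled. -/
theorem g0_dbl (h : IsB T) (hx : x ∈ T.R) (hy : y ∈ T.O x) (h0 : w0 ∈ W T x) (ne : y ≠ w0)
    (n : ¬ G.Adj y w0) : ¬ Uq G (shift D (T.col x) x y) y (T.p x) := by
  obtain ⟨a0, xr, a2, -⟩ := mem_W.1 h0
  have hq := T.p_mem x hx xr
  have a := T.O_adj x hx y hy
  have b := T.O_adj _ hq w0 a2
  have c := h.adj_par hx xr
  have uq := h.uq_O hx hy
  have qy : T.p x ≠ y := (O_ne_p hx (.inl hy)).symm
  have s := (h.hc hx).shift a.ne.symm uq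
  refine s.swap_dbl h.ncol ne.symm qy n (fun m p q => ?_) (fun m p q => ?_) b.symm
  · by_cases z : m = x
    · exact z ▸ s.ne c.symm
    · rw [shift_o (fun e : m = y => n (e ▸ p.symm)) z, shift_o qy c.ne, col_step hx xr z q,
        col_par hx xr, ← col_p_self hx xr]
      exact W_uq hx h0 m p z
  · rw [shift_o ne.symm a0.ne.symm]
    by_cases z : m = x
    · rw [z, shift_l a.ne]
      exact (uq w0 a0 ne.symm).symm
    by_cases z' : m = y
    · rw [z', s.hole]
      exact ((h.hc hx).lt w0 a0.ne.symm).ne'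
    · rw [shift_o z' z, col_step hx xr z p.ne.symm, col_step hx xr a0.ne.symm b.ne.symm]
      exact h.uq_O hq a2 m p q

/-- G0: a child that is adjacent to the grandparent and misses a tail has no `t`. -/
theorem g0_t (h : IsB T) (hy : y ∈ T.ch x) (h0 : w0 ∈ W T x) (n : ¬ G.Adj y w0)
    (a : G.Adj y (T.p x)) : T.p x ∈ T.Bd y ∧ ∀ e ∈ T.O y, ¬ T.PayT y e := by
  obtain ⟨p1, p2, p3⟩ := T.mem_ch.1 hy
  have hx := (anc_ch hy).mem.1
  have xr := (mem_W.1 h0).2.1
  have k := h.g0_dbl hx (h.ch_O hy) h0 (fun e => by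
    have := (W_d hx h0).2
    have := d_ch hy
    rw [e] at *
    omega) n
  rw [← p3, ← T.col_p y p1 p2, p3] at k
  refine ⟨mem_Bd.2 ⟨a, k⟩, fun e he t => ?_⟩
  have c : T.col y (T.p x) = T.col y e := by
    rw [t.2, p3, col_anc (T.mem_ch.2 ⟨hx, xr, rfl⟩) (anc_ch hy)]
  by_cases z : T.p x = e
  exacts [k (z ▸ h.uq_O p1 he), h.uq_O p1 he _ a z c]

/-- General EXIT bound: an exit that misses a member has at most one neighbour among the
tails. -/
theorem exit_one3 (h : IsB T) (hx : x ∈ T.R) (hy : y ∈ T.O x) (yW : y ∉ W T x)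
    (n : ¬ G.Adj (T.p x) y ∨ ∃ w0 ∈ W T x, ¬ G.Adj y w0) (hw : w ∈ W T x) (hw' : w' ∈ W T x)
    (a : G.Adj y w) (a' : G.Adj y w') : w = w' := by
  by_cases g : G.Adj (T.p x) y
  swap
  · exact h.exit_one2 hx hy g hw hw' a a'
  obtain ⟨w0, h0, n⟩ := n.resolve_left (not_not.2 g)
  have xr := (mem_W.1 h0).2.1
  have hq := T.p_mem x hx xr
  have hc := h.hc hx
  obtain ⟨cl, cK⟩ := h.W_clq hx xr
  set K := insert (T.p x) (insert x (W T x)) with hK
  have xy := T.O_adj x hx y hy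
  have qx := h.adj_par hx xr
  have yK : y ∉ K := by simp [hK, g.ne.symm, xy.ne.symm, yW]
  have mW : ∀ v ∈ W T x, v ∈ K.erase x := fun v k => by simp [hK, k, (mem_W.1 k).1.ne.symm]
  have aq : ∀ v ∈ W T x, G.Adj (T.p x) v := fun v k => T.O_adj _ hq v (mem_W.1 k).2.2.1
  have s := hc.shift xy.ne.symm (h.uq_O hx hy)
  have d0 := h.g0_dbl hx hy h0 (fun e => yW (e ▸ h0)) n
  have key : ∀ w ∈ W T x, G.Adj y w → Sees G K (T.col x) w0 (T.col x w) := fun w hw a => by
    by_contra k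
    have s2 : ¬ Sees G K (T.col x) w (T.col x (T.p x)) := fun ⟨m, m1, m2, m3⟩ => by
      simp only [hK, mem_insert, not_or] at m2
      exact W_uq hx hw m m1 m2.2.1
        (by rw [← col_step hx xr m2.2.1 m2.1, m3, col_par hx xr, col_p_self hx xr])
    have s3 : ¬ Sees G K (T.col x) (T.p x) (T.col x w0) := fun ⟨m, m1, m2, m3⟩ => by
      simp only [hK, mem_insert, not_or] at m2
      exact h.uq_O hq (mem_W.1 h0).2.2.1 m m1 (fun e => m2.2.2 (e ▸ h0)) (by
        rw [← col_step hx xr m2.2.1 m2.1, m3,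
          col_step hx xr (mem_W.1 h0).1.ne.symm (aq w0 h0).ne.symm])
    obtain ⟨m, m1, m2, m3⟩ := (hc.exit_place h.ncol cl (by simp [hK]) yK xy (h.uq_O hx hy)
      (hc.place_cyc cl (mW w0 h0) n (mW w hw) (v := T.p x) (by simp [hK, qx.ne])
        (fun e => n (e ▸ a)) (aq w0 h0).ne.symm (aq w hw).ne.symm k s2 s3)).2
    simp only [hK, mem_insert, not_or] at m2
    simp only [Uq, not_forall, not_not] at d0
    obtain ⟨m', n1, n2, n3⟩ := d0
    have wx := (mem_W.1 hw).1.ne.symm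
    rcases s.dbl2 h.deg h.ncol g.symm n1 a m1 (Ne.symm n2) (fun e => m2.2.2 (e ▸ hw)) n3.symm
      (by rw [shift_o a.ne.symm wx, shift_o m1.ne.symm m2.2.1, m3]) with z | z
    exacts [(aq w hw).ne z.symm, s.ne (aq w hw) (by rw [z, n3])]
  by_contra ne
  have cq : IsClq G (K.erase x) := fun v p w q => cl v (mem_of_mem_erase p) w (mem_of_mem_erase q)
  have a0 := hc.card_abs cq (notMem_erase x K)
  have a1 := card_erase_add_one (show x ∈ K by simp [hK])
  have a2 := sees_card h.deg cl (mem_of_mem_erase (mW w0 h0))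
    (Abs D (T.col x) (K.erase x) ∪ {T.col x w, T.col x w'}) ∅ (fun γ k => by
      rcases mem_union.1 k with k | k
      · refine h.own_abs hx h0 w0 (mem_of_mem_erase (mW w0 h0)) γ (mem_Abs.2 ⟨(mem_Abs.1 k).1,
          fun v p => ?_⟩)
        by_cases e : v = x
        · rw [e, hc.hole]
          exact (mem_Abs.1 k).1.ne'
        · exact (mem_Abs.1 k).2 v (mem_erase.2 ⟨e, p⟩)
      · rcases mem_insert.1 k with rfl | k
        exacts [key w hw a, mem_singleton.1 k ▸ key w' hw' a']) (by simp)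
  rw [card_union_of_disjoint (disjoint_right.2 fun γ k p => by
      rcases mem_insert.1 k with rfl | k
      exacts [(mem_Abs.1 p).2 w (mW w hw) rfl,
        (mem_Abs.1 p).2 w' (mW w' hw') (mem_singleton.1 k).symm]),
    card_pair (hc.ne (h.W_adj hx hw hw' ne)), card_empty] at a2
  omega

/-- ENTRY for a shallow prober: of three members off `N(b)` one is a receiver that is not open. -/
theorem probe3 (h : IsB T) (hK : IsClq G K) (hx : x ∈ K)
    (tl : ∀ r ∈ K, r ≠ x → r ∈ T.R ∧ x ∈ T.O r ∧ T.col r x = T.c x) (hb : b ∈ T.R)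
    (pb : x ∈ T.O b) (bK : b ∉ K) (nx : ¬ T.Anc x b) (db : T.d b ≤ T.d x + 1) {N : Finset V}
    (hN : N ⊆ K.erase x) (ny : ∀ r ∈ N, ¬ G.Adj b r) (c3 : 3 ≤ N.card) :
    ∃ r ∈ N, Sees G K (T.col b) r (T.col b x) ∧ T.Tight (fun _ _ _ => False) b r ∧
      ¬ ∃ a a', T.Op2 r x b a a' := by
  by_contra no
  simp only [not_exists, not_and, not_forall, not_not] at no
  have hc := h.hc hb
  have bx := T.O_adj b hb x pb
  have mN : ∀ r ∈ N, r ∈ K ∧ r ≠ x ∧ G.Adj x r := fun r k =>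
    have := mem_erase.1 (hN k)
    ⟨this.2, this.1, hK x hx r this.2 this.1.symm⟩
  have cn : ∀ s ∈ T.R, ∀ r ∈ N, ∀ r' ∈ N, r ≠ r' → T.col s r ≠ T.col s r' :=
    fun s p r q r' q' n => (h.hc p).ne (hK r (mN r q).1 r' (mN r' q').1 n)
  have ti : ∀ r ∈ N, (∀ γ ∈ Abs D (T.col b) K, Sees G K (T.col b) r γ) →
      T.Tight (fun _ _ _ => False) b r := fun r k p κ l q => .inl (by
    by_cases e : κ ∈ Abs D (T.col b) K
    · exact (p κ e).imp fun _ e => ⟨e.1, e.2.2⟩
    simp only [mem_Abs, l, true_and, not_forall, not_not] at e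
    obtain ⟨w, w1, w2⟩ := e
    exact ⟨w, hK r (mN r k).1 w w1 fun e => q (by rw [← w2, e]), w2⟩)
  obtain ⟨r0, e0, op⟩ : ∃ r0, (r0 ∈ N → ¬ Uq G (T.col b) x r0) ∧
      ∀ r ∈ N, r ≠ r0 → ∃ a a', T.Op2 r x b a a' := by
    rcases hc.entry h.deg h.ncol hK bK hx (h.uq_O hb pb) with p | ⟨r0, r1, r2, p⟩
    · exact ⟨x, fun k => absurd rfl (mN x k).2.1, fun r k _ => no r k ((p r (mN r k).1).1.resolve_left
        fun e => ny r k e.symm) (ti r k (p r (mN r k).1).2)⟩
    · refine ⟨r0, fun _ k => ?_, fun r k n => no r k ((p r (mN r k).1 n).2.1.resolve_left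
        fun e => ny r k e.symm) (ti r k (p r (mN r k).1 n).2.2)⟩
      obtain ⟨m, m1, m2, m3⟩ := (p x hx r2.symm).1
      exact k m m1 (fun e => m2 (e ▸ r1)) m3
  choose! A B op using op
  have ot := fun r (p : r ∈ N) (q : r ≠ r0) =>
    have t := tl r (mN r p).1 (mN r p).2.1
    h.op_tight t.1 t.2.1 t.2.2 nx (op r p q)
  have dA : ∀ r ∈ N, r ≠ r0 → T.d x ≤ T.d (A r) + 2 := fun r p q => by
    have t := tl r (mN r p).1 (mN r p).2.1
    have := (op r p q).dep
    have := (O_mem t.1 t.2.1).2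
    omega
  -- all witnesses are equal
  have dB : ∀ r ∈ N, r ≠ r0 → T.d (A r) + 2 ≤ T.d b := fun r p q => by
    have := (op r p q).2.1.lt fun e => (ot r p q).2.1 (e ▸ bx.symm)
    have := d_ch (op r p q).1
    omega
  have eq : ∀ r ∈ N, r ≠ r0 → ∀ s ∈ N, s ≠ r0 → T.d (A r) ≤ T.d (A s) → A r = A s :=
    fun r p q s p' q' l => by
      by_contra ne
      have k := (op r p q).anc.comp (op s p' q').anc l
      have := k.lt ne
      have := dA r p q
      have := dB s p' q'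
      have := d_ch (op r p q).1
      have e : B r = A s := ((op r p q).2.1.comp (op s p' q').anc (by omega)).eq_of_d (by omega)
      refine c_ch_ne (e ▸ (op s p' q').1) (T.mem_ch.1 (op r p q).1).2.1 ?_
      rw [(op r p q).2.2.2.1, (op s p' q').2.2.2.1, (tl r (mN r p).1 (mN r p).2.1).2.2,
        (tl s (mN s p').1 (mN s p').2.1).2.2]
  have eq' : ∀ r ∈ N, r ≠ r0 → ∀ s ∈ N, s ≠ r0 → A r = A s := fun r p q s p' q' =>
    (le_total _ _).elim (eq r p q s p' q') fun l => (eq s p' q' r p q l).symm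
  have r0N : r0 ∈ N := by
    by_contra k
    obtain ⟨s, t, u, s1, t1, u1, st, su, tu⟩ := two_lt_card_iff.1 (show 2 < N.card by omega)
    have n : ∀ r ∈ N, r ≠ r0 := fun r p e => k (e ▸ p)
    have aR := (op s s1 (n s s1)).anc.mem.1
    obtain ⟨-, -, c1, c2, c3⟩ := ot s s1 (n s s1)
    exact three_dbl h.deg (by rw [c1, ← col_base hb nx]; exact hc.lt x bx.ne.symm)
      (fun κ p q => (c3 κ p q).imp fun _ e => ⟨e.1, e.2.2⟩) (mN s s1).2.2 (mN t t1).2.2
      (mN u u1).2.2 (cn _ aR s s1 t t1 st) (cn _ aR s s1 u u1 su) (cn _ aR t t1 u u1 tu) c2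
      (eq' s s1 (n s s1) t t1 (n t t1) ▸ (ot t t1 (n t t1)).2.2.2.1)
      (eq' s s1 (n s s1) u u1 (n u u1) ▸ (ot u u1 (n u u1)).2.2.2.1)
  -- the other members are unique in the state of `b`
  have uq : ∀ r ∈ N, r ≠ r0 → Uq G (T.col b) x r := fun r p q m m1 m2 m3 => by
    have d := e0 r0N
    simp only [Uq, not_forall, not_not] at d
    obtain ⟨m', n1, n2, n3⟩ := d
    rcases hc.dbl_nb h.deg bx.symm (fun κ y z => (h.probe_tight hb pb κ y z).resolve_right id)
      (mN r0 r0N).2.2 n1 (mN r p).2.2 m1 (Ne.symm n2) (Ne.symm m2) n3.symm m3.symm with z | z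
    exacts [q z, cn b hb r p r0 r0N q (by rw [z, n3])]
  have := card_erase_add_one r0N
  obtain ⟨s, s1, t, t1, st⟩ := one_lt_card.1 (show 1 < (N.erase r0).card by omega)
  rw [mem_erase] at s1 t1
  have sl := fun r (p : r ∈ N) (q : r ≠ r0) =>
    have t := tl r (mN r p).1 (mN r p).2.1
    h.op_slot t.1 t.2.1 t.2.2 nx (op r p q) (uq r p q)
  have key : ∀ s ∈ N, s ≠ r0 → ∀ t ∈ N, t ≠ r0 → s ≠ t → ∀ m, T.Anc (B t) m → B t ≠ m →
      T.Anc m b → G.Adj x m → m ≠ b → T.c b ≠ T.col (A s) s := fun s p q t p' q' n m m1 m2 m3 m4 m5 e => by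
    have := m1.lt m2
    have := m3.lt m5
    have := d_ch (op t p' q').1
    have := dA t p' q'
    have mc := m3.ch_of_d m5 (by omega)
    obtain ⟨-, p2, p3⟩ := T.mem_ch.1 mc
    have ms : m ≠ s := fun z => ny s p (z ▸ (h.adj_ch mc).symm)
    refine uq s p q m m4 ms ?_
    rw [← p3, col_par hb p2, e, col_diff (op s p q).anc fun z => ?_]
    have := z.2.lt fun k => bK (k ▸ (mN s p).1)
    have xs := (mN s p).2.2
    have := z.1.lt fun k => (ot s p q).1 (by rw [k]; exact xs)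
    have := d_ch (op s p q).1
    have := congrArg T.d (eq' s p q t p' q')
    by_cases l : T.d s = T.d m
    · exact ms ((m3.comp z.2 l.ge).eq_of_d l.le)
    · exact (ot s p q).2.1 (by
        rw [((op s p q).2.1.comp z.2 (by omega)).eq_of_d (by omega)]; exact xs)
  obtain ⟨m, m1, m2, m3, m4, m5⟩ := sl s s1.2 s1.1
  obtain ⟨m', n1, n2, n3, n4, n5⟩ := sl t t1.2 t1.1
  have ne := cn _ (op s s1.2 s1.1).anc.mem.1 s s1.2 t t1.2 st
  have e := eq' s s1.2 s1.1 t t1.2 t1.1
  by_cases z : m = b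
  · have c := m5.resolve_left fun k => bK (z ▸ k ▸ (mN s s1.2).1)
    exact key s s1.2 s1.1 t t1.2 t1.1 st m' n1 n2 n3 n4 (fun z' => ne (by
      rw [← c, e, ← n5.resolve_left fun k => bK (z' ▸ k ▸ (mN t t1.2).1), z, z'])) (z ▸ c)
  by_cases z' : m' = b
  · exact key t t1.2 t1.1 s s1.2 s1.1 st.symm m m1 m2 m3 m4 z
      (z' ▸ n5.resolve_left fun k => bK (z' ▸ k ▸ (mN t t1.2).1))
  have := m1.lt m2
  have := m3.lt z
  have := n1.lt n2
  have := n3.lt z'
  have := d_ch (op s s1.2 s1.1).1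
  have := d_ch (op t t1.2 t1.1).1
  have := dA s s1.2 s1.1
  have := dA t t1.2 t1.1
  have mc := m3.ch_of_d z (by omega)
  obtain rfl : m' = m := (n3.comp m3 (by omega)).eq_of_d (by omega)
  exact ne (by rw [← m5.resolve_left fun k => ny s s1.2 (k ▸ (h.adj_ch mc).symm), e,
    n5.resolve_left fun k => ny t t1.2 (k ▸ (h.adj_ch mc).symm)])

end IsB

end Pool.Agent.Lib.MP_12eaff_co.Acc
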