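import Pool.Agent.Lib.MP_12eaff_co.Acc.G01

set_option autoImplicit false
set_option linter.unusedSectionVars false

namespace Pool.Agent.Lib.MP_12eaff_co.Acc

open Finset Pool.Agent.Lib.MP_12eaff_co.BK
open scoped Classical

variable {V : Type} [Fintype V] {G : SimpleGraph V} {D : ℕ}

/-- The double `w, s` of the hole `y` is removed: `s` swaps with `q`, the clique of `w` is
permuted. -/
theorem HC.g4_fill (deg : ∀ v, (nb G v).card ≤ D + 1) (nc : ¬ Colr G D) {f : V → ℕ}
    {y w s q : V} {K : Finset V} (h : HC G D y f) (hK : IsClq G K) (hw : w ∈ K) (yK : y ∉ K)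
    (sK : s ∉ K) (yw : G.Adj y w) (ys : G.Adj y s) (c : f w = f s) (sq : G.Adj s q)
    (yq : ¬ G.Adj y q) (qy : q ≠ y) (u1 : Uq G f s q)
    (u2 : ∀ m, G.Adj q m → m ≠ s → m ≠ w → f m ≠ f w) (cq : ∀ r ∈ K, f r ≠ f q)
    (σ : Equiv.Perm V) (p : ∀ r ∈ K, σ r ∈ K ∧ ¬ Sees G K f r (f (σ r)))
    (n : ∀ r ∈ K, σ r = w → ¬ G.Adj y r ∧ ¬ G.Adj q r) : False := by
  have qK : q ∉ K := fun k => cq q k rfl
  have ws : w ≠ s := fun e => sK (e ▸ hw)
  have sy := ys.ne.symm
  have e1 : ∀ r ∈ K, f (σ r) = f w → σ r = w := fun r k e => h.inj hK (p r k).1 hw e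
  refine h.fill (K := insert y (insert s (insert q K))) nc (by simp)
    (fun m => if m ∈ K then f (σ m) else if m = s then f q else f w) (fun m k => ?_)
    (fun m k ⟨e, a1, a2, a3⟩ => ?_) fun a k b k' e => ?_
  · split_ifs with z
    exacts [h.lt _ fun e => yK (e ▸ (p m z).1), h.lt q qy, h.lt w yw.ne.symm]
  · simp only [mem_insert, not_or] at k a2
    by_cases z : m ∈ K
    · exact (p m z).2 ⟨e, a1, a2.2.2.2, by simpa [z] using a3⟩
    simp only [z, or_false, if_false] at k a3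
    rcases k with rfl | rfl | rfl
    · exact h.double nc (deg m) yw ys ws c a1 (fun t => a2.2.2.2 (t ▸ hw)) a2.2.1 w yw
        (fun t => a2.2.2.2 (t ▸ hw)) (by simpa [ys.ne] using a3.symm)
    · exact u1 e a1 a2.2.2.1 (by simpa using a3)
    · exact u2 e a1 a2.2.1 (fun t => a2.2.2.2 (t ▸ hw)) (by simpa [sq.ne.symm] using a3)
  · have key : ∀ a ∈ K, ∀ b, b = y ∨ b = s ∨ b = q → G.Adj a b →
        f (σ a) ≠ if b = s then f q else f w := fun a j b j' e => by
      rcases j' with rfl | rfl | rfl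
      · rw [if_neg ys.ne]
        exact fun t => (n a j (e1 a j t)).1 e.symm
      · rw [if_pos rfl]
        exact cq _ (p a j).1
      · rw [if_neg sq.ne.symm]
        exact fun t => (n a j (e1 a j t)).2 e.symm
    simp only [mem_insert] at k k'
    by_cases z : a ∈ K <;> by_cases z' : b ∈ K <;> simp only [z, z', if_true, if_false]
    · exact fun t => e.ne (σ.injective (h.inj hK (p a z).1 (p b z').1 t))
    · exact key a z b (by tauto) e
    · exact (key b z' a (by tauto) e.symm).symm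
    · have := (cq w hw).symm
      have := e.symm
      have := e.ne
      grind

namespace IsB

variable {T : Tr G D} {x y w s q r : V}

open Tr IsA

/-- G4, second part: `s` can swap with `q` in `s(y)`; then `q` blocks every landing of the colour
of `w`. -/
theorem g4 (h : IsB T) (hy : y ∈ T.ch x) (hw : w ∈ W T x) (ng : ¬ G.Adj y (T.p x))
    (bw : w ∈ T.Bd y) (bs : s ∈ T.Bd y) (ne : s ≠ w) (sq : G.Adj s q) (yq : ¬ G.Adj y q)
    (cq : T.col y q = T.c y) (u1 : Uq G (T.col y) s q)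
    (u2 : ∀ m, G.Adj q m → m ≠ s → m ≠ w → T.col y m ≠ T.col y w) :
    G.Adj q (T.p x) ∧ ∀ r ∈ W T x, ¬ G.Adj y r →
      G.Adj q r ∨ ∃ m, G.Adj r m ∧ m ≠ w ∧ T.col y m = T.col y w := by
  obtain ⟨p1, p2, p3⟩ := T.mem_ch.1 hy
  have hx := (anc_ch hy).mem.1
  obtain ⟨a0, xr, a2, -⟩ := mem_W.1 hw
  have hg := T.p_mem x hx xr
  have hc := h.hc p1
  have gx := h.adj_par hx xr
  have xy := h.adj_ch hy
  have cx : T.col y x = T.c y := p3 ▸ col_par p1 p2
  have cg : T.col y (T.p x) = T.col (T.p x) x := by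
    rw [col_anc (T.mem_ch.2 ⟨hx, xr, rfl⟩) (anc_ch hy), col_p_self hx xr]
  have cv : ∀ m, m ≠ y → m ≠ x → m ≠ T.p x → T.col y m = T.col (T.p x) m := fun m a b c => by
    rw [col_step p1 p2 a (p3 ▸ b), p3, col_step hx xr b c]
  have aq : ∀ v ∈ W T x, G.Adj (T.p x) v := fun v k => T.O_adj _ hg v (mem_W.1 k).2.2.1
  have yW : ∀ v ∈ W T x, v ≠ y := fun v k e => ng (e ▸ aq v k).symm
  have cW := fun v (k : v ∈ W T x) => cv v (yW v k) (mem_W.1 k).1.ne.symm (aq v k).ne.symm
  have cl : IsClq G (insert (T.p x) (W T x)) := fun a p b p' => (h.W_clq hx xr).1 a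
    (insert_subset_insert _ (subset_insert _ _) p) b (insert_subset_insert _ (subset_insert _ _) p')
  have ax : ∀ v ∈ insert (T.p x) (W T x), G.Adj x v := fun v k => by
    rcases mem_insert.1 k with rfl | k
    exacts [gx.symm, (mem_W.1 k).1]
  have fill := hc.g4_fill h.deg h.ncol cl (mem_insert_of_mem hw)
    (fun k => (mem_insert.1 k).elim (fun e => O_ne_p hx (.inl (h.ch_O hy)) e) fun k => yW y k rfl)
    (fun k => hc.ne (cl s k w (mem_insert_of_mem hw) ne) (h.Bd_col p1 bs bw)) (mem_Bd.1 bw).1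
    (mem_Bd.1 bs).1 (h.Bd_col p1 bw bs) sq yq (hc.ne_hole (cq ▸ c_lt p1 p2)) u1 u2
    fun r k => by rw [cq, ← cx]; exact (hc.ne (ax r k)).symm
  -- every tail may take the colour of the parent, the parent may take the colour of a tail
  have s1 : ∀ v ∈ W T x, ¬ Sees G (insert (T.p x) (W T x)) (T.col y) v (T.col y (T.p x)) :=
    fun v k ⟨m, m1, m2, m3⟩ => by
      have mg : m ≠ T.p x := fun e => m2 (by simp [e])
      have mx : m ≠ x := fun e => hc.ne gx (by rw [← m3, e])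
      exact W_uq hx k m m1 mx
        (by rw [← cv m (hc.ne_hole (m3 ▸ hc.lt _ (O_ne_p hx (.inl (h.ch_O hy))).symm)) mx mg, m3, cg])
  have s2 : ∀ v ∈ W T x, ¬ Sees G (insert (T.p x) (W T x)) (T.col y) (T.p x) (T.col y v) :=
    fun v k ⟨m, m1, m2, m3⟩ => by
      have mx : m ≠ x := fun e => hc.ne (mem_W.1 k).1 (by rw [← m3, e])
      exact h.uq_O hg (mem_W.1 k).2.2.1 m m1 (fun e => m2 (by simp [e, k]))
        (by rw [← cv m (fun e => ng (e ▸ m1.symm)) mx m1.ne.symm, m3, cW v k])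
  have wg := (aq w hw).ne
  refine ⟨by_contra fun k => fill (Equiv.swap w (T.p x)) (fun r p => ?_) fun r p e => ?_,
    fun r p n => by_contra fun k => ?_⟩
  · rw [Equiv.swap_apply_def]
    split_ifs with a b
    exacts [⟨by simp, a ▸ s1 w hw⟩, ⟨by simp [hw], b ▸ s2 w hw⟩, ⟨p, hc.nsees_self r⟩]
  · rw [Equiv.swap_apply_eq_iff, Equiv.swap_apply_left] at e
    exact e ▸ ⟨ng, k⟩
  rw [not_or] at k
  have rw' : r ≠ w := fun e => n (e ▸ (mem_Bd.1 bw).1)
  have rg := (aq r p).ne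
  have q1 : (Equiv.swap r (T.p x) * Equiv.swap r w) r = w := by
    simp [Equiv.swap_apply_of_ne_of_ne rw'.symm wg.symm]
  refine fill (Equiv.swap r (T.p x) * Equiv.swap r w) (fun m z => ?_) fun m z e => ?_
  · by_cases a : m = r
    · rw [a, q1]
      exact ⟨by simp [hw], fun ⟨m, m1, m2, m3⟩ => k.2 ⟨m, m1, fun e => m2 (by simp [e, hw]), m3⟩⟩
    by_cases b : m = w
    · simpa [b] using s1 w hw
    by_cases d : m = T.p x
    · simpa [d, Equiv.swap_apply_of_ne_of_ne rg wg, p] using s2 r p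
    · simpa [Equiv.swap_apply_of_ne_of_ne a b, Equiv.swap_apply_of_ne_of_ne a d] using
        ⟨by simpa using z, hc.nsees_self m⟩
  · obtain rfl : m = r := (Equiv.swap r (T.p x) * Equiv.swap r w).injective (e.trans q1.symm)
    exact ⟨n, k.1⟩

end IsB

end Pool.Agent.Lib.MP_12eaff_co.Acc
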