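import Pool.Agent.Lib.MP_12eaff_co.Acc.Pair
import Pool.Agent.Lib.MP_12eaff_co.ATS

set_option autoImplicit false
set_option linter.unusedSectionVars false

namespace Pool.Agent.Lib.MP_12eaff_co.Acc

open Finset Pool.Agent.Lib.MP_12eaff_co.BK
open scoped Classical

variable {V : Type} [Fintype V] {G : SimpleGraph V} {D : ℕ}

/-- An edge joined to the path `a b c d` and a common neighbour `e` of `a`, `b`, `c`. -/
theorem k2kite (h : CR G D) {W : Finset V} (hW : IsClq G W) (h2 : 2 ≤ #W) {a b c d e : V}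
    (hx : ∀ w ∈ W, G.Adj w a ∧ G.Adj w d ∧ G.Adj w c ∧ G.Adj w b ∧ G.Adj w e) (ab : G.Adj a b)
    (bc : G.Adj c b) (cd : G.Adj d c) (ae : G.Adj a e) (be : G.Adj b e) (ce : G.Adj c e)
    (ac : ¬ G.Adj a c) (ad : ¬ G.Adj a d) (bd : ¬ G.Adj d b) : False :=
  AT.chk_join h hW 2 h2 ![a, d, c, b, e]
    (AT.inj_of (G := G) _ [(2, 3), (2, 4), (3, 4), (0, 3), (1, 2), (0, 4)]
      [(0, 1), (0, 2), (1, 3), (1, 4)] (by simp [*])
      (by
        have : a ≠ d := fun z => ac (z ▸ cd)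
        have : a ≠ c := fun z => ad (z ▸ cd.symm)
        have : d ≠ b := fun z => ad (z ▸ ab)
        have : d ≠ e := fun z => ad (z ▸ ae)
        simp [*])
      (by decide))
    (fun w hw => by simpa [Fin.forall_fin_succ] using hx w hw)
    [(2, 3), (2, 4), (3, 4), (0, 3), (1, 2), (0, 4)] [(0, 1), (0, 2), (1, 3)] (by decide)
    (by simp [*]) (by simp [*]) [51581492, 70459698] (by decide +kernel)

/-- P2: both doubled neighbours of the hole `q` see the colour of `u` only at `u`; then one of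
them is complete to every clique of three or more such vertices. -/
theorem HC.p2 (cr : CR G D) {f : V → ℕ} {q u v v2 : V} (h : HC G D q f) (qu : G.Adj q u)
    (qv : G.Adj q v) (qv2 : G.Adj q v2) (uv : G.Adj u v) (uv2 : G.Adj u v2) (ne : v ≠ v2)
    (c : f v = f v2) (h1 : Uq G f v u) (h2 : Uq G f v2 u) {Z : Finset V} (cl : IsClq G Z)
    (hZ : ∀ w ∈ Z, G.Adj q w ∧ G.Adj u w ∧ w ≠ v ∧ w ≠ v2 ∧ Uq G f w u) (c3 : 3 ≤ Z.card) :
    (∀ w ∈ Z, G.Adj v w) ∨ ∀ w ∈ Z, G.Adj v2 w := by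
  by_contra! k
  obtain ⟨⟨w1, a1, n1⟩, w2, a2, n2⟩ := k
  have one : ∀ w ∈ Z, G.Adj v w ∨ G.Adj v2 w := fun w p =>
    let ⟨z1, z2, z3, z4, z5⟩ := hZ w p
    h.p2_same cr.deg cr.ncol qu qv qv2 z1 uv uv2 z2 ne c z3 z4 h1 h2 z5
  have b1 := (one w1 a1).resolve_left n1
  have b2 := (one w2 a2).resolve_right n2
  have ne' : w1 ≠ w2 := fun e => n1 (e ▸ b2)
  obtain ⟨w, a3, p1, p2⟩ : ∃ w ∈ Z, w ≠ w1 ∧ w ≠ w2 := by
    by_contra! k
    have := card_le_card (s := Z) (t := {w1, w2}) fun w p => by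
      have := k w p
      simp only [mem_insert, mem_singleton]
      tauto
    have := card_le_two (a := w1) (b := w2)
    omega
  have cq : IsClq G {q, u} := fun a p b p' e => by
    have := qu.symm
    simp only [mem_insert, mem_singleton] at p p'
    grind
  have nv : ¬ G.Adj v v2 := fun p => h.ne p c
  rcases one w a3 with p | p
  · refine k2kite cr cq (by rw [card_pair qu.ne]) (fun z hz => ?_) b2 (cl _ a1 _ a2 ne') b1 p
      (cl _ a2 _ a3 p2.symm) (cl _ a1 _ a3 p1.symm) n1 nv n2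
    rcases mem_insert.1 hz with rfl | hz
    · exact ⟨qv, qv2, (hZ _ a1).1, (hZ _ a2).1, (hZ _ a3).1⟩
    · rw [mem_singleton.1 hz]
      exact ⟨uv, uv2, (hZ _ a1).2.1, (hZ _ a2).2.1, (hZ _ a3).2.1⟩
  · refine k2kite cr cq (by rw [card_pair qu.ne]) (fun z hz => ?_) b1 (cl _ a2 _ a1 ne'.symm) b2 p
      (cl _ a1 _ a3 p1.symm) (cl _ a2 _ a3 p2.symm) n2 (fun e => nv e.symm) n1
    rcases mem_insert.1 hz with rfl | hz
    · exact ⟨qv2, qv, (hZ _ a2).1, (hZ _ a1).1, (hZ _ a3).1⟩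
    · rw [mem_singleton.1 hz]
      exact ⟨uv2, uv, (hZ _ a2).2.1, (hZ _ a1).2.1, (hZ _ a3).2.1⟩

namespace IsB

variable {T : Tr G D} {u v v2 w x e r r' : V}

open Tr IsA

/-- P2 in the tree. -/
theorem p2 (h : IsB T) (cr : CR G D) (hu : u ∈ T.R) (ur : u ≠ T.r) (hv : v ∈ T.Bd (T.p u))
    (hv2 : v2 ∈ T.Bd (T.p u)) (ne : v ≠ v2) (uv : G.Adj u v) (uv2 : G.Adj u v2)
    (h1 : Uq G (T.col (T.p u)) v u) (h2 : Uq G (T.col (T.p u)) v2 u) {Z : Finset V}
    (hZ : Z ⊆ W T u) (c3 : 3 ≤ Z.card) : (∀ w ∈ Z, G.Adj v w) ∨ ∀ w ∈ Z, G.Adj v2 w := by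
  have hq := T.p_mem u hu ur
  refine (h.hc hq).p2 cr (h.adj_par hu ur) (mem_Bd.1 hv).1 (mem_Bd.1 hv2).1 uv uv2 ne
    (h.Bd_col hq hv hv2) h1 h2 (fun a p b q => h.W_adj hu (hZ p) (hZ q)) (fun w p => ?_) c3
  have o := (mem_W.1 (hZ p)).2.2.1
  exact ⟨T.O_adj _ hq w o, (mem_W.1 (hZ p)).1, fun e => (mem_Bd.1 hv).2 (e ▸ h.uq_O hq o),
    fun e => (mem_Bd.1 hv2).2 (e ▸ h.uq_O hq o), W_uq hu (hZ p)⟩

/-- P1, exit part: an exit at the triangle vertex `v` has no neighbour among the tails. -/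
theorem p1_exit (h : IsB T) (hx : x ∈ T.R) (ho : e ∈ T.O x) (n : ¬ G.Adj (T.p x) e)
    (hv : v ∈ T.Bd (T.p x)) (hv2 : v2 ∈ T.Bd (T.p x)) (ne : v ≠ v2) (xv : G.Adj x v)
    (uv : Uq G (T.col (T.p x)) v x) {η : ℕ} (l : η < D)
    (h1 : ∀ m, G.Adj v2 m → T.col (T.p x) m ≠ η) (h2 : η ≠ T.col (T.p x) v2)
    (h3 : G.Adj x v2 → η ≠ T.col x e) (ev : G.Adj e v) (hw : w ∈ W T x) : ¬ G.Adj e w := by
  intro ew
  obtain ⟨a0, xr, a2, -⟩ := mem_W.1 hw
  have hq := T.p_mem x hx xr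
  have qx := h.adj_par hx xr
  have xe := T.O_adj x hx e ho
  have qv := (mem_Bd.1 hv).1
  have qv2 := (mem_Bd.1 hv2).1
  have c := h.Bd_col hq hv hv2
  have hc := h.hc hq
  have s := (h.hc hx).shift xe.ne.symm (h.uq_O hx ho)
  have qe : T.p x ≠ e := (O_ne_p hx (.inl ho)).symm
  have sv : ∀ m, m ≠ e → m ≠ x → m ≠ T.p x → shift D (T.col x) x e m = T.col (T.p x) m :=
    fun m p q r => by rw [shift_o p q, col_step hx xr q r]
  have ve : v ≠ e := ev.ne.symm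
  have v2e : v2 ≠ e := fun z => n (z ▸ qv2)
  have v2x : v2 ≠ x := fun z => (mem_Bd.1 hv2).2 (by
    have := h.uq_O hq (h.par_O hx xr)
    rwa [z])
  have s1 := sv v ve xv.ne.symm qv.ne.symm
  have sx : shift D (T.col x) x e x = T.col x e := shift_l xe.ne
  have d1 := h.exit_dbl2 hx ho n hw
  have d2 : ¬ Uq G (shift D (T.col x) x e) e v := fun k => by
    have nv : ¬ G.Adj v v2 := fun p => hc.ne p c
    have n2 : ¬ G.Adj e v2 := fun p => k v2 p ne.symm (by rw [s1, sv v2 v2e v2x qv2.ne.symm, c])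
    have := hc.ne xv
    have := qv.ne
    have := qv2.ne
    refine s.fill (K := {e, T.p x, v, v2}) h.ncol (by simp) (fun m => if m = v then
      T.col (T.p x) x else if m = v2 then η else T.col (T.p x) v) (fun m _ => ?_)
      (fun m p ⟨y, e1, e2, e3⟩ => ?_) fun a p b p' z => ?_
    · split_ifs
      exacts [hc.lt x qx.ne.symm, l, hc.lt v qv.ne.symm]
    · simp only [mem_insert, mem_singleton, not_or] at p e2
      rcases p with rfl | rfl | rfl | rfl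
      · exact k y e1 e2.2.2.1 (by rw [s1]; simpa [ve.symm, v2e.symm] using e3)
      · simp only [qv.ne, qv2.ne, if_false] at e3
        by_cases z : y = x
        · exact s.ne xv (by rw [s1, ← e3, z])
        · exact hc.double h.ncol (h.deg _) qv qv2 ne c e1 e2.2.2.1 e2.2.2.2 v qv
            (Ne.symm e2.2.2.1) (by rw [← e3, sv y e2.1 z e2.2.1])
      · simp only [if_true] at e3
        by_cases z : y = x
        · refine h.uq_O hx ho _ qx.symm qe ?_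
          rw [col_par hx xr, ← col_p_self hx xr, ← e3, z, sx]
        · exact uv y e1 z (by rw [← e3, sv y e2.1 z e2.2.1])
      · simp only [ne.symm, if_false, if_true] at e3
        by_cases z : y = x
        · exact h3 (z ▸ e1.symm) (by rw [← e3, z, sx])
        · exact h1 y e1 (by rw [← e3, sv y e2.1 z e2.2.1])
    · have := z.symm
      have := z.ne
      simp only [mem_insert, mem_singleton] at p p'
      grind
  simp only [Uq, not_forall, not_not] at d1 d2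
  obtain ⟨m, m1, m2, m3⟩ := d1
  obtain ⟨m', n1, n2, n3⟩ := d2
  have wv : v ≠ w := fun z => (mem_Bd.1 hv).2 (z ▸ h.uq_O hq a2)
  rcases s.dbl2 h.deg h.ncol ew m1 ev n1 (Ne.symm m2) (Ne.symm n2) m3.symm n3.symm with z | z
  · exact wv z
  · refine h.uq_O hq a2 v qv wv ?_
    rw [← s1, z, m3, sv w ew.ne.symm a0.ne.symm (T.O_adj _ hq w a2).ne.symm]

/-- The vertex `t(x)` that probes `x` is not adjacent to the parent. -/
theorem t_off (h : IsB T) (hx : x ∈ T.R) (ho : e ∈ T.O x) (ht : T.PayT x e) (hp : x ∈ T.O e) :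
    ¬ G.Adj (T.p x) e := fun a => by
  have hq := T.p_mem x hx ht.1
  have hr := t_nr hx ho ht
  have := (O_mem (O_mem hx ho).1 hp).2
  have := T.d_p x hx ht.1
  have := T.d_p _ hq hr
  refine h.uq_par hq hr e a (fun z => by have := congrArg T.d z; omega) ?_
  rw [col_par hq hr, ← ht.2, col_step hx ht.1 (T.O_adj x hx e ho).ne.symm a.ne.symm]

/-- A tail off the probing vertex `t(x)` with an open witness is an exception. -/
theorem exc (h : IsB T) (hx : x ∈ T.R) (ho : e ∈ T.NT x) (ht : T.PayT x e) (hp : x ∈ T.O e)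
    (hr : r ∈ T.R) (rx : x ∈ T.O r) (cr : T.col r x = T.c x) (qr : G.Adj (T.p x) r)
    (n : ¬ G.Adj e r) (orc : Uq G (T.col e) x r → ∃ a a', T.Op2 r x e a a') :
    ¬ Uq G (T.col e) x r ∨ ¬ Uq G (T.col e) x (T.p x) ∧ T.c (T.p e) = T.col (T.p x) r := by
  refine or_iff_not_imp_left.2 fun uq => ?_
  rw [not_not] at uq
  obtain ⟨o1, o2⟩ := T.mem_NT.1 ho
  obtain ⟨he, de⟩ := O_mem hx o1
  have hq := T.p_mem x hx ht.1
  have qx := h.adj_par hx ht.1
  have nx := nanc_of_O hx o1 o2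
  obtain ⟨a, a', o⟩ := orc uq
  obtain ⟨m, m1, m2, m3, m4, m5⟩ := h.op_slot hr rx cr nx o uq
  obtain ⟨t1, t2, -⟩ := h.op_tight hr rx cr nx o
  have := T.d_p x hx ht.1
  have := d_ch o.1
  have := m1.lt m2
  have := m3.le
  have := o.dep
  have := (O_mem hr rx).2
  have aR := o.anc.mem.1
  have ce : T.c e = T.c (T.p x) := by
    rw [← ht.2, col_base hx fun z => O_ne_p hx (.inl o1) (T.mem_ch.1
      (z.ch_of_d (T.O_adj x hx e o1).ne.symm (O_mem he hp).2)).2.2.symm]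
  have me : m ≠ e := fun z => by
    have qa : ¬ T.Anc (T.p x) a := fun k => by
      have := k.lt fun k => t1 (k ▸ qx.symm)
      omega
    refine (h.hc aR).ne qr ?_
    rw [col_base aR qa, ← ce, ← z, m5.resolve_left fun k => h.t_off hx o1 ht hp (z ▸ k ▸ qr)]
  have := m3.lt me
  have mc := m3.ch_of_d me (by omega)
  obtain ⟨-, p2, p3⟩ := T.mem_ch.1 mc
  have qe : ¬ T.Anc (T.p x) e := fun k =>
    t2 ((k.comp o.2.1 (by omega)).eq_of_d (by omega) ▸ qx.symm)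
  refine ⟨fun k => k m m4 (fun z => by have := congrArg T.d z; omega) ?_, ?_⟩
  · rw [col_base he qe, ← p3, col_par he p2, ce]
  · rw [p3, m5.resolve_left fun k => n (k ▸ (h.adj_ch mc).symm),
      col_base aR fun k => by have := k.le; omega,
      col_base hq fun k => qr.ne (k.eq_of_d (by omega)).symm]

/-- There is only one exception. -/
theorem exc_one (h : IsB T) (hx : x ∈ T.R) (xr : x ≠ T.r) (he : e ∈ T.R) (hp : x ∈ T.O e)
    (a : G.Adj x r) (a' : G.Adj x r') (q : G.Adj (T.p x) r) (q' : G.Adj (T.p x) r')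
    (c : T.col (T.p x) r ≠ T.col (T.p x) r')
    (k : ¬ Uq G (T.col e) x r ∨ ¬ Uq G (T.col e) x (T.p x) ∧ T.c (T.p e) = T.col (T.p x) r)
    (k' : ¬ Uq G (T.col e) x r' ∨ ¬ Uq G (T.col e) x (T.p x) ∧ T.c (T.p e) = T.col (T.p x) r') :
    T.col e r = T.col e r' := by
  have one : ∀ {s t}, G.Adj x s → G.Adj x t → ¬ Uq G (T.col e) x s → ¬ Uq G (T.col e) x t →
      T.col e s = T.col e t := fun {s t} p p' d d' => by
    simp only [Uq, not_forall, not_not] at d d'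
    obtain ⟨m, m1, m2, m3⟩ := d
    obtain ⟨m', n1, n2, n3⟩ := d'
    rcases (h.hc he).dbl_nb h.deg (T.O_adj e he x hp).symm
      (fun κ y z => (h.probe_tight he hp κ y z).resolve_right id) p m1 p' n1 (Ne.symm m2)
      (Ne.symm n2) m3.symm n3.symm with z | z
    exacts [by rw [z], by rw [z, m3]]
  have qx := (h.adj_par hx xr).symm
  rcases k with k | k <;> rcases k' with k' | k'
  exacts [one a a' k k', absurd (one qx a k'.1 k) ((h.hc he).ne q),
    absurd (one qx a' k.1 k') ((h.hc he).ne q'), absurd (k.2.symm.trans k'.2) c]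

/-- P1: only the coincidence of the colours of `v` and of a tail in `s(e)` is left. -/
theorem p1 (h : IsB T) (hx : x ∈ T.R) (ho : e ∈ T.NT x) (ht : T.PayT x e) (hp : x ∈ T.O e)
    {w1 w2 : V} (ne : w1 ≠ w2) (hw : ∀ w, w = w1 ∨ w = w2 → w ∈ W T x ∧ x ∈ T.O w)
    (hv : v ∈ T.Bd (T.p x)) (hv2 : v2 ∈ T.Bd (T.p x)) (nv : v ≠ v2) (vR : v ∈ T.R)
    (vx : x ∈ T.O v) (cv : T.col v x = T.c x) (uv : Uq G (T.col (T.p x)) v x) {η : ℕ} (l : η < D)
    (h1 : ∀ m, G.Adj v2 m → T.col (T.p x) m ≠ η) (h2 : η ≠ T.col (T.p x) v2)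
    (h3 : G.Adj x v2 → η ≠ T.col x e)
    (orc : ∀ r, r = w1 ∨ r = w2 ∨ r = v → ¬ G.Adj e r → Uq G (T.col e) x r →
      ∃ a a', T.Op2 r x e a a') :
    ¬ G.Adj e v ∧ ∃ w, (w = w1 ∨ w = w2) ∧ ¬ G.Adj e w ∧ T.col e w = T.col e v := by
  have o1 := (T.mem_NT.1 ho).1
  have he := (O_mem hx o1).1
  have hq := T.p_mem x hx ht.1
  have n := h.t_off hx o1 ht hp
  have xv := (T.O_adj v vR x vx).symm
  have wq : ∀ w, w = w1 ∨ w = w2 → w ∈ T.O (T.p x) := fun w p => (mem_W.1 (hw w p).1).2.2.1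
  have ex := fun w (p : w = w1 ∨ w = w2) (k : ¬ G.Adj e w) =>
    h.exc hx ho ht hp (W_d hx (hw w p).1).1 (hw w p).2 (mem_W.1 (hw w p).1).2.2.2.1
      (T.O_adj _ hq w (wq w p)) k (orc w (p.imp_right .inl) k)
  have a := h.W_adj hx (hw w1 (.inl rfl)).1 (hw w2 (.inr rfl)).1 ne
  have ev : ¬ G.Adj e v := fun k => (h.hc he).ne a (h.exc_one hx ht.1 he hp
    (mem_W.1 (hw w1 (.inl rfl)).1).1 (mem_W.1 (hw w2 (.inr rfl)).1).1
    (T.O_adj _ hq _ (wq w1 (.inl rfl))) (T.O_adj _ hq _ (wq w2 (.inr rfl))) ((h.hc hq).ne a)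
    (ex w1 (.inl rfl) (h.p1_exit hx o1 n hv hv2 nv xv uv l h1 h2 h3 k (hw w1 (.inl rfl)).1))
    (ex w2 (.inr rfl) (h.p1_exit hx o1 n hv hv2 nv xv uv l h1 h2 h3 k (hw w2 (.inr rfl)).1)))
  obtain ⟨w, p, k⟩ : ∃ w, (w = w1 ∨ w = w2) ∧ ¬ G.Adj e w := by
    by_contra! k
    exact ne (h.exit_one2 hx o1 n (hw w1 (.inl rfl)).1 (hw w2 (.inr rfl)).1 (k w1 (.inl rfl))
      (k w2 (.inr rfl)))
  refine ⟨ev, w, p, k, h.exc_one hx ht.1 he hp (mem_W.1 (hw w p).1).1 xv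
    (T.O_adj _ hq w (wq w p)) (mem_Bd.1 hv).1 (h.uq_O hq (wq w p) v (mem_Bd.1 hv).1
      fun z => (mem_Bd.1 hv).2 (z ▸ h.uq_O hq (wq w p))).symm (ex w p k)
    (h.exc hx ho ht hp vR vx cv (mem_Bd.1 hv).1 ev (orc v (.inr (.inr rfl)) ev))⟩

end IsB

end Pool.Agent.Lib.MP_12eaff_co.Acc
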