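import Pool.Agent.Lib.MP_12eaff_co.Acc.E2
import Pool.Agent.Lib.MP_12eaff_co.Acc.Cnt2

set_option autoImplicit false
set_option linter.unusedSectionVars false

namespace Pool.Agent.Lib.MP_12eaff_co.Acc

open Finset Pool.Agent.Lib.MP_12eaff_co.BK
open scoped Classical

variable {V : Type} [Fintype V] {G : SimpleGraph V} {D : ℕ}

namespace Tr

variable (T : Tr G D)

/-- Internal heads whose parent has `v` as a double: the free supply of the tail `v`. -/
noncomputable def Int (v : V) : Finset V :=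
  T.R.filter fun x => x ≠ T.r ∧ T.ch x ≠ ∅ ∧ v ∈ T.Bd (T.p x)

variable {T} {v x : V}

theorem mem_Int : x ∈ T.Int v ↔ x ∈ T.R ∧ x ≠ T.r ∧ T.ch x ≠ ∅ ∧ v ∈ T.Bd (T.p x) := mem_filter

/-- Supply of one tail: targets `A` with named heads and hiders `B` with a free head. -/
theorem tail_count (hv : v ∈ T.R) (A B : Finset V) (σ : V → V) (hA : A ⊆ T.O v)
    (h1 : ∀ u ∈ A, σ u ∈ T.Int v ∧ T.tc (σ u) v = T.col v u)
    (h2 : ∀ m ∈ B, ∃ x ∈ T.Int v, T.p x = m ∧ ∀ u ∈ A, σ u ≠ x) :
    A.card + B.card ≤ (T.Int v).card := by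
  choose! τ t1 t2 t3 using h2
  have c1 : (A.image σ).card = A.card := card_image_of_injOn fun a ha b hb e =>
    O_inj hv (hA ha) (hA hb) (by rw [← (h1 a ha).2, e, (h1 b hb).2])
  have c2 : (B.image τ).card = B.card := card_image_of_injOn fun a ha b hb e => by
    rw [← t2 a ha, e, t2 b hb]
  rw [← c1, ← c2, ← card_union_of_disjoint]
  · refine card_le_card (union_subset ?_ ?_) <;> intro x hx <;>
      obtain ⟨a, ha, rfl⟩ := mem_image.1 hx
    exacts [(h1 a ha).1, t1 a ha]
  · refine disjoint_left.2 fun x h3 h4 => ?_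
    obtain ⟨a, ha, rfl⟩ := mem_image.1 h3
    obtain ⟨b, hb, e⟩ := mem_image.1 h4
    exact t3 b hb a ha e.symm

end Tr

namespace IsB

variable {T : Tr G D}

open Tr

theorem sum_Int (h : IsB T) : ∑ v ∈ T.R, (T.Int v).card +
    ∑ x ∈ T.R, (if x ≠ T.r ∧ T.ch x = ∅ then 2 else 0) ≤ ∑ w ∈ T.R, 2 * (T.ch w).card := by
  have h1 : ∑ v ∈ T.R, (T.Int v).card = ∑ x ∈ T.R, (T.R.filter fun v =>
      x ≠ T.r ∧ T.ch x ≠ ∅ ∧ v ∈ T.Bd (T.p x)).card := by
    simp only [Tr.Int, card_filter]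
    exact sum_comm
  have h2 : ∑ w ∈ T.R, 2 * (T.ch w).card = ∑ x ∈ T.R, if x = T.r then 0 else 2 := by
    rw [← T.sum_sum_ch fun _ => 2]
    exact sum_congr rfl fun w _ => by rw [sum_const, smul_eq_mul, mul_comm]
  rw [h1, h2, ← sum_add_distrib]
  refine sum_le_sum fun x hx => ?_
  by_cases e : x = T.r
  · simp [e]
  by_cases e2 : T.ch x = ∅
  · simp [e, e2]
  · rw [if_neg e, if_neg (fun k => e2 k.2), add_zero]
    exact (card_le_card fun v hv => (mem_filter.1 hv).2.2.2).trans (h.card_Bd (T.p_mem x hx e))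

/-- The account in supply form: internal heads always accept their two units. -/
theorem final_sup (h : IsB T) (hD : 5 ≤ D) (ext give : V → ℕ)
    (k : ∀ v ∈ T.R, (T.NT v).card + give v ≤ (T.Int v).card + ext v) :
    ∑ v ∈ T.R, (D - 5 + (if v ≠ T.r ∧ T.ch v = ∅ then 2 else 0) + (if T.Bd v = ∅ then 1 else 0) +
      give v) + 4 ≤ ∑ v ∈ T.R, (ext v + (T.Dr v).card) := by
  have h1 := h.budget2 hD
  have h2 := h.sum_Int
  have h3 := sum_le_sum k
  simp only [sum_add_distrib] at h1 h3 ⊢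
  omega

end IsB

namespace Tr

variable (T : Tr G D) (S : V → V → Prop) (Rq : V → V → Prop)

/-- The target `u` of the tail `v` has a good pair with an internal head. -/
def GI (v u : V) : Prop := ∃ x, T.PayP (S v) x v u ∧ x ∈ T.Int v

/-- The chosen internal head. -/
noncomputable def pick (v u : V) : V := if h : T.GI S v u then h.choose else v

/-- Active targets: mutual arcs, requests, and hiders whose column is used. -/
inductive Act (v : V) : V → Prop
  | mutl (u : V) : u ∈ T.NT v → v ∈ T.O u → Act v u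
  | req (u : V) : Rq v u → Act v u
  | step (u : V) : Act v u → T.GI S v u → T.p (T.pick S v u) ∈ T.NT v →
      Act v (T.p (T.pick S v u))

/-- Arcs that need a payer outside the supply: active without an internal pair. -/
noncomputable def XA (v : V) : Finset V :=
  (T.NT v).filter fun u => T.Act S Rq v u ∧ ¬ T.GI S v u

/-- Inactive arcs into heads without a free internal child. -/
noncomputable def XN (v : V) : Finset V :=
  (T.NT v).filter fun u => ¬ T.Act S Rq v u ∧ ¬ ∃ x ∈ T.Int v, T.p x = u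

/-- Tokens: requested children. -/
noncomputable def TK (v : V) : Finset V := (T.ch v).filter fun u => Rq v u ∧ T.GI S v u

variable {T S Rq} {v u : V}

theorem pick_spec (h : T.GI S v u) :
    T.PayP (S v) (T.pick S v u) v u ∧ T.pick S v u ∈ T.Int v := by
  rw [pick, dif_pos h]; exact h.choose_spec

theorem mem_XA : u ∈ T.XA S Rq v ↔ u ∈ T.NT v ∧ T.Act S Rq v u ∧ ¬ T.GI S v u := mem_filter

theorem mem_XN : u ∈ T.XN S Rq v ↔
    u ∈ T.NT v ∧ ¬ T.Act S Rq v u ∧ ¬ ∃ x ∈ T.Int v, T.p x = u := mem_filter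

theorem mem_TK : u ∈ T.TK S Rq v ↔ u ∈ T.ch v ∧ Rq v u ∧ T.GI S v u := mem_filter

/-- An active non-tree arc is mutual, requested, or explained through a used pair. -/
theorem Act.cases' (h : T.Act S Rq v u) : (u ∈ T.NT v ∧ v ∈ T.O u) ∨ Rq v u ∨
    ∃ w, T.Act S Rq v w ∧ T.GI S v w ∧ u = T.p (T.pick S v w) := by
  cases h with
  | mutl _ a b => exact .inl ⟨a, b⟩
  | req _ a => exact .inr (.inl a)
  | step w a b _ => exact .inr (.inr ⟨w, a, b, rfl⟩)

/-- An inactive arc has a hiding head. -/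
theorem inact_H (hv : v ∈ T.R) (hu : u ∈ T.NT v) (h : ¬ T.Act S Rq v u) : v ∈ T.H u := by
  obtain ⟨h1, h2⟩ := T.mem_NT.1 hu
  rcases adj_cases (T.clo v hv u (.inl h1)).1 hv (T.O_adj v hv u h1).symm with k | k | k
  exacts [absurd (Act.mutl u hu k) h, k, absurd k h2]

end Tr

namespace IsB

variable {T : Tr G D} {S Rq : V → V → Prop}

open Tr

/-- The supply pays everything but `XA` and `XN`, and the tokens. -/
theorem tail_sup (h : IsB T) {v : V} (hv : v ∈ T.R) : (T.NT v).card + (T.TK S Rq v).card ≤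
    (T.Int v).card + ((T.XA S Rq v).card + (T.XN S Rq v).card) := by
  set A1 := (T.NT v).filter fun u => T.Act S Rq v u ∧ T.GI S v u with hA
  set B := (T.NT v).filter fun u => ¬ T.Act S Rq v u ∧ ∃ x ∈ T.Int v, T.p x = u with hB
  have d : Disjoint A1 (T.TK S Rq v) := disjoint_left.2 fun u a b =>
    (T.mem_NT.1 (mem_filter.1 a).1).2 (mem_TK.1 b).1
  have g : ∀ u ∈ A1 ∪ T.TK S Rq v, T.Act S Rq v u ∧ T.GI S v u := fun u hu =>
    (mem_union.1 hu).elim (fun a => (mem_filter.1 a).2)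
      fun a => ⟨.req u (mem_TK.1 a).2.1, (mem_TK.1 a).2.2⟩
  have h1 := tail_count hv (A1 ∪ T.TK S Rq v) B (T.pick S v)
    (union_subset (fun u a => (T.mem_NT.1 (mem_filter.1 a).1).1) fun u a => h.ch_O (mem_TK.1 a).1)
    (fun u hu => ⟨(pick_spec (g u hu).2).2, (pick_spec (g u hu).2).1.2.2.2.1⟩) fun m hm => by
      obtain ⟨m1, m2, x, x1, x2⟩ := mem_filter.1 hm
      refine ⟨x, x1, x2, fun u hu e => m2 ?_⟩
      rw [← x2, ← e] at m1 ⊢
      exact .step u (g u hu).1 (g u hu).2 m1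
  rw [card_union_of_disjoint d] at h1
  have h2 : (T.NT v).card ≤ A1.card + B.card + ((T.XA S Rq v).card + (T.XN S Rq v).card) := by
    simp only [hA, hB, XA, XN, card_filter, ← sum_add_distrib]
    rw [card_eq_sum_ones]
    refine sum_le_sum fun u _ => ?_
    by_cases a : T.Act S Rq v u <;> by_cases b : T.GI S v u <;>
      by_cases c : ∃ x ∈ T.Int v, T.p x = u <;> simp only [a, b, c] <;> simp
  omega

/-- The account with chains. -/
theorem final_chain (h : IsB T) (hD : 5 ≤ D) (S Rq : V → V → Prop) :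
    ∑ v ∈ T.R, (D - 5 + (if v ≠ T.r ∧ T.ch v = ∅ then 2 else 0) + (if T.Bd v = ∅ then 1 else 0) +
      (T.TK S Rq v).card) + 4 ≤
      ∑ v ∈ T.R, ((T.XA S Rq v).card + (T.XN S Rq v).card + (T.Dr v).card) :=
  h.final_sup hD (fun v => (T.XA S Rq v).card + (T.XN S Rq v).card) _ fun _ hv => h.tail_sup hv

/-- An active arc that is not requested is explained. -/
theorem act_expl {v u : V} (hv : v ∈ T.R) (hu : u ∈ T.NT v)
    (hp : ∀ z, T.SP v z → S v z) (h : T.Act S Rq v u) : Rq v u ∨ T.Expl (S v) v u := by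
  obtain ⟨h1, h2⟩ := T.mem_NT.1 hu
  rcases h.cases' with k | k | ⟨w, _, k, rfl⟩
  · exact .inr ⟨u, hp u ⟨(T.clo v hv u (.inl h1)).1, k.2, nanc_of_O hv h1 h2⟩, .inl rfl⟩
  · exact .inl k
  · exact .inr (pick_spec k).1.expl

end IsB

end Pool.Agent.Lib.MP_12eaff_co.Acc
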